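import Pool.Agent.Lib.MP_c82047_co_LS.Defs

/-!
# MP_c82047_co, project LS, module WA: basic facts on weighted hypergraphs
-/

set_option autoImplicit false

namespace BESL

open Finset

variable {V : Type} [Fintype V] [DecidableEq V] {r : ℕ} {w : Finset V → ℝ}

theorem deg_nonneg (hw : ∀ E, 0 ≤ w E) (σ : Finset V) : 0 ≤ deg w σ := by
  unfold deg
  refine Finset.sum_nonneg fun E _ => ?_
  split_ifs
  · exact hw E
  · exact le_rfl

theorem tot_nonneg (hw : ∀ E, 0 ≤ w E) : 0 ≤ tot w :=
  Finset.sum_nonneg fun E _ => hw E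

theorem deg_anti (hw : ∀ E, 0 ≤ w E) {σ τ : Finset V} (h : σ ⊆ τ) : deg w τ ≤ deg w σ := by
  unfold deg
  refine Finset.sum_le_sum fun E _ => ?_
  by_cases hτ : τ ⊆ E
  · rw [if_pos hτ, if_pos (h.trans hτ)]
  · rw [if_neg hτ]
    split_ifs
    · exact hw E
    · exact le_rfl

/-- `w E ≤ deg w σ` for `σ ⊆ E` -/
theorem le_deg (hw : ∀ E, 0 ≤ w E) {σ E : Finset V} (h : σ ⊆ E) : w E ≤ deg w σ := by
  unfold deg
  have h1 : ∀ E' ∈ (univ : Finset (Finset V)), 0 ≤ (if σ ⊆ E' then w E' else 0) := by
    intro E' _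
    split_ifs
    · exact hw E'
    · exact le_rfl
  have h2 := Finset.single_le_sum h1 (mem_univ E)
  rwa [if_pos h] at h2

theorem deg_mono {w' : Finset V → ℝ} (h : ∀ E, w' E ≤ w E) (σ : Finset V) :
    deg w' σ ≤ deg w σ := by
  unfold deg
  refine Finset.sum_le_sum fun E _ => ?_
  split_ifs
  · exact h E
  · exact le_rfl

theorem deg_add (w w' : Finset V → ℝ) (σ : Finset V) :
    deg (fun E => w E + w' E) σ = deg w σ + deg w' σ := by
  unfold deg
  rw [← Finset.sum_add_distrib]
  refine Finset.sum_congr rfl fun E _ => ?_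
  split_ifs <;> simp

theorem tot_add (w w' : Finset V → ℝ) : tot (fun E => w E + w' E) = tot w + tot w' :=
  Finset.sum_add_distrib

/-- sets with more than `r` elements have degree `0` -/
theorem deg_eq_zero (hw : Unif r w) {σ : Finset V} (h : r < σ.card) : deg w σ = 0 := by
  unfold deg
  refine Finset.sum_eq_zero fun E _ => ?_
  split_ifs with hσ
  · by_contra hE
    have h1 := hw.card E hE
    have h2 := Finset.card_le_card hσ
    omega
  · rfl

/-- double counting -/
theorem sum_deg (hw : Unif r w) (j : ℕ) :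
    ∑ σ ∈ univ.powersetCard j, deg w σ = (r.choose j : ℝ) * tot w := by
  unfold deg tot
  rw [Finset.sum_comm, Finset.mul_sum]
  refine Finset.sum_congr rfl fun E _ => ?_
  rw [← Finset.sum_filter, Finset.sum_const, nsmul_eq_mul]
  by_cases hE : w E = 0
  · rw [hE, mul_zero, mul_zero]
  · have h1 : (univ.powersetCard j).filter (fun σ => σ ⊆ E) = E.powersetCard j := by
      ext σ
      simp only [mem_filter, mem_powersetCard, subset_univ, true_and]
      exact and_comm
    rw [h1, card_powersetCard, hw.card E hE]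

theorem sum_deg_singleton (hw : Unif r w) : ∑ u, deg w {u} = (r : ℝ) * tot w := by
  unfold deg tot
  rw [Finset.sum_comm, Finset.mul_sum]
  refine Finset.sum_congr rfl fun E _ => ?_
  rw [← Finset.sum_filter, Finset.sum_const, nsmul_eq_mul]
  by_cases hE : w E = 0
  · rw [hE, mul_zero, mul_zero]
  · have h1 : (univ : Finset V).filter (fun u => ({u} : Finset V) ⊆ E) = E := by
      ext u
      simp
    rw [h1, hw.card E hE]

theorem unif_lnk (hw : Unif (r + 1) w) (u : V) : Unif r (lnk w u) := by
  constructor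
  · intro E
    unfold lnk
    split_ifs
    · exact le_rfl
    · exact hw.nonneg _
  · intro E hE
    unfold lnk at hE
    by_cases hu : u ∈ E
    · rw [if_pos hu] at hE
      exact absurd rfl hE
    · rw [if_neg hu] at hE
      have h1 := hw.card _ hE
      rw [card_insert_of_notMem hu] at h1
      omega

/-- the key computation: the degrees in the link -/
private theorem deg_lnk_eq (w : Finset V → ℝ) (u : V) (σ : Finset V) (hσ : u ∉ σ) :
    deg (lnk w u) σ = deg w (insert u σ) := by
  unfold deg lnk
  have h1 : ∑ E : Finset V, (if σ ⊆ E then (if u ∈ E then 0 else w (insert u E)) else 0) =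
      ∑ E ∈ univ.filter (fun E : Finset V => u ∉ E ∧ σ ⊆ E), w (insert u E) := by
    rw [Finset.sum_filter]
    refine Finset.sum_congr rfl fun E _ => ?_
    by_cases h1 : σ ⊆ E <;> by_cases h2 : u ∈ E <;> simp [h1, h2]
  have h2 : ∑ E : Finset V, (if insert u σ ⊆ E then w E else 0) =
      ∑ E ∈ univ.filter (fun E : Finset V => insert u σ ⊆ E), w E := by
    rw [Finset.sum_filter]
  rw [h1, h2]
  refine Finset.sum_nbij' (fun E => insert u E) (fun E => E.erase u) ?_ ?_ ?_ ?_ ?_
  · intro E hE
    simp only [mem_filter, mem_univ, true_and] at hE ⊢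
    exact insert_subset_insert u hE.2
  · intro E hE
    simp only [mem_filter, mem_univ, true_and] at hE ⊢
    refine ⟨notMem_erase u E, fun v hv => ?_⟩
    refine mem_erase.2 ⟨fun h => hσ (h ▸ hv), hE (mem_insert_of_mem hv)⟩
  · intro E hE
    simp only [mem_filter, mem_univ, true_and] at hE
    exact erase_insert hE.1
  · intro E hE
    simp only [mem_filter, mem_univ, true_and] at hE
    exact insert_erase (hE (mem_insert_self u σ))
  · intro E _
    rfl

theorem tot_lnk (w : Finset V → ℝ) (u : V) : tot (lnk w u) = deg w {u} := by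
  have h := deg_lnk_eq w u ∅ (notMem_empty u)
  have h1 : deg (lnk w u) ∅ = tot (lnk w u) := by
    unfold deg tot
    exact Finset.sum_congr rfl fun E _ => if_pos (empty_subset E)
  rw [← h1, h]
  rfl

/-- if `σ` contains `u` then no edge of the link contains `σ` -/
theorem deg_lnk_of_mem (w : Finset V → ℝ) {u : V} {σ : Finset V} (h : u ∈ σ) :
    deg (lnk w u) σ = 0 := by
  unfold deg lnk
  refine Finset.sum_eq_zero fun E _ => ?_
  split_ifs with h1 h2
  · rfl
  · exact absurd (h1 h) h2
  · rfl

theorem deg_lnk_le (hw : ∀ E, 0 ≤ w E) (u : V) (σ : Finset V) :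
    deg (lnk w u) σ ≤ deg w (insert u σ) := by
  by_cases h : u ∈ σ
  · rw [deg_lnk_of_mem w h]
    exact deg_nonneg hw _
  · exact (deg_lnk_eq w u σ h).le

theorem unif_dl (hw : Unif r w) (P : Finset V → Prop) : Unif r (dl w P) := by
  constructor
  · intro E
    unfold dl
    split_ifs
    · exact le_rfl
    · exact hw.nonneg E
  · intro E hE
    refine hw.card E fun h => hE ?_
    unfold dl
    split_ifs
    · rfl
    · exact h

theorem dl_le (hw : ∀ E, 0 ≤ w E) (P : Finset V → Prop) (E : Finset V) : dl w P E ≤ w E := by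
  unfold dl
  split_ifs
  · exact hw E
  · exact le_rfl

/-- deleting the edges which contain one of the sets of `S` costs at most the sum of the
degrees -/
theorem tot_le_tot_dl (hw : ∀ E, 0 ≤ w E) (S : Finset (Finset V)) :
    tot w ≤ tot (dl w fun E => ∃ σ ∈ S, σ ⊆ E) + ∑ σ ∈ S, deg w σ := by
  unfold tot deg
  rw [Finset.sum_comm, ← Finset.sum_add_distrib]
  refine Finset.sum_le_sum fun E _ => ?_
  have h0 : ∀ σ ∈ S, 0 ≤ (if σ ⊆ E then w E else 0) := by
    intro σ _
    split_ifs
    · exact hw E
    · exact le_rfl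
  by_cases h : ∃ σ ∈ S, σ ⊆ E
  · obtain ⟨σ, hσ, hσE⟩ := h
    have h1 := Finset.single_le_sum h0 hσ
    rw [if_pos hσE] at h1
    have h2 : 0 ≤ dl w (fun E => ∃ σ ∈ S, σ ⊆ E) E := by
      unfold dl
      split_ifs
      · exact le_rfl
      · exact hw E
    linarith
  · have h1 : dl w (fun E => ∃ σ ∈ S, σ ⊆ E) E = w E := by
      unfold dl
      exact if_neg h
    have h2 := Finset.sum_nonneg h0
    linarith

theorem unif_add {w' : Finset V → ℝ} (hw : Unif r w) (hw' : Unif r w') :
    Unif r fun E => w E + w' E := by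
  constructor
  · intro E
    exact add_nonneg (hw.nonneg E) (hw'.nonneg E)
  · intro E hE
    by_cases h : w E = 0
    · refine hw'.card E fun h' => hE ?_
      change w E + w' E = 0
      rw [h, h', add_zero]
    · exact hw.card E h

theorem ind_lnk {I : Finset V} {u : V} (hI : Ind w I) (hu : u ∈ I) : Ind (lnk w u) I := by
  intro E hE
  unfold lnk
  split_ifs
  · rfl
  · exact hI _ (insert_subset hu hE)

end BESL
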