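import Pool.Agent.Lib.MP_c82047_co_LS.Defs

/-!
# MP_c82047_co, project LS, module BR: Bregman's theorem
-/

set_option autoImplicit false

namespace BESL

open Finset

/-- `log (r!) / r` -/
noncomputable def breL (r : ℕ) : ℝ := Real.log (r.factorial : ℝ) / r

theorem bf_eq_exp (r : ℕ) : bf r = Real.exp (breL r) := by
  have h : (0 : ℝ) < (r.factorial : ℝ) := by exact_mod_cast r.factorial_pos
  rw [bf, Real.rpow_def_of_pos h, breL]
  congr 1
  ring

theorem bf_pos' (r : ℕ) : 0 < bf r := by
  rw [bf_eq_exp]; exact Real.exp_pos _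

theorem breL_succ (r : ℕ) : breL r ≤ breL (r + 1) := by
  unfold breL
  rcases Nat.eq_zero_or_pos r with h0 | h0
  · subst h0
    simp
  · have hr : (0 : ℝ) < (r : ℝ) := by exact_mod_cast h0
    have hf : (0 : ℝ) < (r.factorial : ℝ) := by exact_mod_cast r.factorial_pos
    have h1 : Real.log (((r + 1).factorial : ℕ) : ℝ) =
        Real.log ((r : ℝ) + 1) + Real.log (r.factorial : ℝ) := by
      rw [Nat.factorial_succ]
      push_cast
      rw [Real.log_mul (by positivity) (by positivity)]
    have h2 : Real.log (r.factorial : ℝ) ≤ r * Real.log ((r : ℝ) + 1) := by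
      have h3 : (r.factorial : ℝ) ≤ ((r : ℝ) + 1) ^ r := by
        have h4 : r.factorial ≤ (r + 1) ^ r :=
          le_trans r.factorial_le_pow (Nat.pow_le_pow_left (Nat.le_succ r) r)
        exact_mod_cast h4
      calc Real.log (r.factorial : ℝ) ≤ Real.log (((r : ℝ) + 1) ^ r) :=
            Real.log_le_log hf h3
        _ = r * Real.log ((r : ℝ) + 1) := by rw [Real.log_pow]
    rw [div_le_div_iff₀ hr (by positivity)]
    rw [h1]
    push_cast
    nlinarith

theorem breL_mono : Monotone breL := monotone_nat_of_le_succ breL_succ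

theorem breL_mul (r : ℕ) : (r : ℝ) * breL r = Real.log (r.factorial : ℝ) := by
  unfold breL
  rcases Nat.eq_zero_or_pos r with h0 | h0
  · subst h0; simp
  · have hr : (r : ℝ) ≠ 0 := by positivity
    field_simp

theorem bf_mono {r s : ℕ} (h : r ≤ s) : bf r ≤ bf s := by
  rw [bf_eq_exp, bf_eq_exp]
  exact Real.exp_le_exp.2 (breL_mono h)

section

set_option linter.unusedSectionVars false

variable {ι κ : Type} [Fintype ι] [Fintype κ] [DecidableEq ι] [DecidableEq κ]

theorem mem_sdr {A : ι → Finset κ} {σ : ι → κ} :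
    σ ∈ sdr A ↔ Function.Injective σ ∧ ∀ j, σ j ∈ A j := by
  simp [sdr]

/-- the minor: delete the index `i` and the value `k` -/
def minor (A : ι → Finset κ) (i : ι) (k : κ) : {j : ι // j ≠ i} → Finset {l : κ // l ≠ k} :=
  fun j => (A j.1).subtype (fun l => l ≠ k)

theorem mem_minor {A : ι → Finset κ} {i : ι} {k : κ} {j : {j : ι // j ≠ i}}
    {l : {l : κ // l ≠ k}} : l ∈ minor A i k j ↔ l.1 ∈ A j.1 := by
  simp [minor]

theorem card_minor (A : ι → Finset κ) (i : ι) (k : κ) (j : {j : ι // j ≠ i}) :
    (minor A i k j).card = ((A j.1).erase k).card := by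
  rw [minor, Finset.card_subtype]
  congr 1
  ext l
  simp [and_comm]

open Classical in
/-- the number of selections with `σ i = k` is the number for the minor -/
theorem card_fib {A : ι → Finset κ} {i : ι} {k : κ} (hk : k ∈ A i) :
    ((sdr A).filter fun σ => σ i = k).card = (sdr (minor A i k)).card := by
  refine Finset.card_bij'
    (i := fun σ (hσ : σ ∈ (sdr A).filter fun σ => σ i = k) =>
      fun j : {j : ι // j ≠ i} => (⟨σ j.1, fun h => j.2
        ((mem_sdr.1 (Finset.mem_filter.1 hσ).1).1 (h.trans (Finset.mem_filter.1 hσ).2.symm))⟩ :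
          {l : κ // l ≠ k}))
    (j := fun τ _ => fun j : ι => if h : j = i then k else (τ ⟨j, h⟩).1) ?_ ?_ ?_ ?_
  · intro σ hσ
    have h1 := mem_sdr.1 (Finset.mem_filter.1 hσ).1
    rw [mem_sdr]
    refine ⟨?_, ?_⟩
    · intro a b hab
      apply Subtype.ext
      exact h1.1 (congrArg Subtype.val hab)
    · intro j
      rw [mem_minor]
      exact h1.2 j.1
  · intro τ hτ
    have h1 := mem_sdr.1 hτ
    rw [Finset.mem_filter, mem_sdr]
    refine ⟨⟨?_, ?_⟩, ?_⟩
    · intro a b hab
      by_cases ha : a = i
      · by_cases hb : b = i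
        · rw [ha, hb]
        · exfalso
          simp only [ha, hb, dif_pos, dif_neg, not_false_eq_true] at hab
          exact (τ ⟨b, hb⟩).2 hab.symm
      · by_cases hb : b = i
        · exfalso
          simp only [ha, hb, dif_pos, dif_neg, not_false_eq_true] at hab
          exact (τ ⟨a, ha⟩).2 hab
        · simp only [ha, hb, dif_neg, not_false_eq_true] at hab
          have := h1.1 (Subtype.ext hab)
          exact congrArg Subtype.val this
    · intro j
      by_cases hj : j = i
      · simp only [hj, dif_pos]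
        exact hk
      · simp only [hj, dif_neg, not_false_eq_true]
        exact mem_minor.1 (h1.2 ⟨j, hj⟩)
    · simp
  · intro σ hσ
    funext j
    by_cases hj : j = i
    · subst hj
      simp only [dif_pos]
      exact (Finset.mem_filter.1 hσ).2.symm
    · simp only [hj, dif_neg, not_false_eq_true]
  · intro τ hτ
    funext j
    apply Subtype.ext
    have := j.2
    simp only [ne_eq] at this
    simp [this]

/-- the sum over `i ≠ j` of `L |A_j minus σ i|` -/
theorem sum_ne {A : ι → Finset κ} {σ : ι → κ} (hc : Fintype.card ι = Fintype.card κ)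
    (hσ : σ ∈ sdr A) (j : ι) :
    ∑ i ∈ univ.erase j, breL ((A j).erase (σ i)).card =
      ((A j).card - 1 : ℝ) * breL ((A j).card - 1) +
        ((Fintype.card ι : ℝ) - (A j).card) * breL (A j).card := by
  have h1 := mem_sdr.1 hσ
  have hb : Function.Bijective σ := (Fintype.bijective_iff_injective_and_card σ).2 ⟨h1.1, hc⟩
  have h2 : ∑ i ∈ univ.erase j, breL ((A j).erase (σ i)).card =
      ∑ k ∈ univ.erase (σ j), breL ((A j).erase k).card := by
    refine Finset.sum_bij (fun i _ => σ i) ?_ ?_ ?_ ?_
    · intro a ha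
      rw [Finset.mem_erase] at ha ⊢
      exact ⟨fun h => ha.1 (h1.1 h), Finset.mem_univ _⟩
    · intro a _ b _ hab
      exact h1.1 hab
    · intro k hk
      obtain ⟨i, hi⟩ := hb.2 k
      refine ⟨i, ?_, hi⟩
      rw [Finset.mem_erase] at hk ⊢
      exact ⟨fun h => hk.1 (by rw [← hi, h]), Finset.mem_univ _⟩
    · intro a _
      rfl
  rw [h2]
  have h3 : (univ.erase (σ j) : Finset κ) = (A j).erase (σ j) ∪ (A j)ᶜ := by
    ext k
    simp only [Finset.mem_erase, Finset.mem_univ, and_true, Finset.mem_union, Finset.mem_compl]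
    constructor
    · intro h
      by_cases hk : k ∈ A j
      · exact Or.inl ⟨h, hk⟩
      · exact Or.inr hk
    · rintro (h | h)
      · exact h.1
      · rintro rfl
        exact h (h1.2 j)
  have h4 : Disjoint ((A j).erase (σ j)) (A j)ᶜ := by
    rw [Finset.disjoint_left]
    intro a ha hb
    exact (Finset.mem_compl.1 hb) (Finset.mem_of_mem_erase ha)
  rw [h3, Finset.sum_union h4]
  have hpos : 1 ≤ (A j).card := Finset.card_pos.2 ⟨σ j, h1.2 j⟩
  congr 1
  · have : ∀ k ∈ (A j).erase (σ j), breL ((A j).erase k).card = breL ((A j).card - 1) := by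
      intro k hk
      rw [Finset.card_erase_of_mem (Finset.mem_of_mem_erase hk)]
    rw [Finset.sum_congr rfl this, Finset.sum_const, Finset.card_erase_of_mem (h1.2 j),
      nsmul_eq_mul, Nat.cast_sub hpos, Nat.cast_one]
  · have : ∀ k ∈ (A j)ᶜ, breL ((A j).erase k).card = breL (A j).card := by
      intro k hk
      rw [Finset.erase_eq_of_notMem (Finset.mem_compl.1 hk)]
    rw [Finset.sum_congr rfl this, Finset.sum_const, Finset.card_compl, nsmul_eq_mul,
      Nat.cast_sub (Finset.card_le_univ _), ← hc]

/-- the total for one column -/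
theorem col_total {A : ι → Finset κ} {σ : ι → κ} (hc : Fintype.card ι = Fintype.card κ)
    (hσ : σ ∈ sdr A) (j : ι) :
    Real.log (A j).card + ∑ i ∈ univ.erase j, breL ((A j).erase (σ i)).card =
      (Fintype.card ι : ℝ) * breL (A j).card := by
  rw [sum_ne hc hσ j]
  have h1 := mem_sdr.1 hσ
  have hpos : 1 ≤ (A j).card := Finset.card_pos.2 ⟨σ j, h1.2 j⟩
  obtain ⟨r, hr⟩ : ∃ r, (A j).card = r + 1 := ⟨(A j).card - 1, by omega⟩
  rw [hr]
  have e1 := breL_mul r
  have e2 := breL_mul (r + 1)
  have e3 : Real.log (((r + 1).factorial : ℕ) : ℝ) =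
      Real.log ((r : ℝ) + 1) + Real.log (r.factorial : ℝ) := by
    rw [Nat.factorial_succ]
    push_cast
    rw [Real.log_mul (by positivity) (by positivity)]
  rw [e3] at e2
  push_cast at e2 ⊢
  linarith

end

theorem breg_log : ∀ (n : ℕ) (ι κ : Type) [Fintype ι] [Fintype κ] [DecidableEq ι] [DecidableEq κ]
    (_ : Fintype.card ι = n) (_ : Fintype.card κ = n) (A : ι → Finset κ),
    0 < (sdr A).card → Real.log ((sdr A).card : ℝ) ≤ ∑ j, breL (A j).card := by
  intro n
  induction n with
  | zero =>
    intro ι κ _ _ _ _ hι hκ A hA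
    have : IsEmpty ι := Fintype.card_eq_zero_iff.1 hι
    have h1 : (sdr A).card ≤ 1 := by
      rw [Finset.card_le_one]
      intro a _ b _
      exact Subsingleton.elim _ _
    have h2 : (sdr A).card = 1 := by omega
    rw [h2]
    simp
  | succ n ih =>
    intro ι κ _ _ _ _ hι hκ A hA
    classical
    set P : ℝ := ((sdr A).card : ℝ) with hP
    have hPpos : 0 < P := by rw [hP]; exact_mod_cast hA
    have hc : Fintype.card ι = Fintype.card κ := by rw [hι, hκ]
    obtain ⟨σ0, hσ0⟩ := Finset.card_pos.1 hA
    have hσ0' := mem_sdr.1 hσ0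
    -- the number of selections with `σ i = k`
    let p : ι → κ → ℝ := fun i k => (((sdr A).filter fun σ => σ i = k).card : ℝ)
    have hpsum : ∀ i, ∑ k ∈ A i, p i k = P := by
      intro i
      have := Finset.card_eq_sum_card_fiberwise (s := sdr A) (t := A i) (f := fun σ => σ i)
        (fun σ hσ => (mem_sdr.1 hσ).2 i)
      simp only [p, hP]
      rw [this]
      push_cast
      rfl
    have hjen : ∀ i, P * Real.log P ≤ P * Real.log (A i).card +
        ∑ σ ∈ sdr A, Real.log (p i (σ i)) := by
      intro i
      have hri : 0 < (A i).card := Finset.card_pos.2 ⟨σ0 i, hσ0'.2 i⟩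
      have hr : (0 : ℝ) < (A i).card := by exact_mod_cast hri
      have h1 := Real.convexOn_mul_log.map_sum_le (t := A i)
        (w := fun _ => 1 / ((A i).card : ℝ)) (p := p i)
        (fun _ _ => by positivity)
        (by rw [Finset.sum_const, nsmul_eq_mul]; field_simp)
        (fun k _ => by
          simp only [Set.mem_Ici, p]
          positivity)
      simp only [smul_eq_mul] at h1
      rw [← Finset.mul_sum, ← Finset.mul_sum, hpsum i] at h1
      have h2 : ∑ k ∈ A i, p i k * Real.log (p i k) = ∑ σ ∈ sdr A, Real.log (p i (σ i)) := by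
        rw [← Finset.sum_fiberwise_of_maps_to (s := sdr A) (t := A i) (g := fun σ => σ i)
          (fun σ hσ => (mem_sdr.1 hσ).2 i)]
        refine Finset.sum_congr rfl fun k _ => ?_
        have : ∀ σ ∈ (sdr A).filter (fun σ => σ i = k), Real.log (p i (σ i)) =
            Real.log (p i k) := by
          intro σ hσ
          rw [(Finset.mem_filter.1 hσ).2]
        rw [Finset.sum_congr rfl this, Finset.sum_const, nsmul_eq_mul]
      rw [h2] at h1
      have h3 : Real.log (1 / ((A i).card : ℝ) * P) = Real.log P - Real.log (A i).card := by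
        rw [Real.log_mul (by positivity) (by positivity), Real.log_div (by norm_num)
          (by positivity), Real.log_one]
        ring
      rw [h3] at h1
      have h4 : ((A i).card : ℝ) * (1 / ((A i).card : ℝ) * P * (Real.log P -
          Real.log (A i).card)) ≤ ((A i).card : ℝ) * (1 / ((A i).card : ℝ) *
          ∑ σ ∈ sdr A, Real.log (p i (σ i))) := mul_le_mul_of_nonneg_left h1 hr.le
      have h5 : ((A i).card : ℝ) * (1 / ((A i).card : ℝ) * P * (Real.log P -
          Real.log (A i).card)) = P * (Real.log P - Real.log (A i).card) := by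
        field_simp
      have h6 : ((A i).card : ℝ) * (1 / ((A i).card : ℝ) *
          ∑ σ ∈ sdr A, Real.log (p i (σ i))) = ∑ σ ∈ sdr A, Real.log (p i (σ i)) := by
        field_simp
      rw [h5, h6] at h4
      linarith
    have hstep : ∀ σ ∈ sdr A, ∀ i, Real.log (p i (σ i)) ≤
        ∑ j ∈ univ.erase i, breL ((A j).erase (σ i)).card := by
      intro σ hσ i
      have hσ' := mem_sdr.1 hσ
      have h1 : p i (σ i) = ((sdr (minor A i (σ i))).card : ℝ) := by
        simp only [p]
        rw [card_fib (hσ'.2 i)]
      have h2 : 0 < (sdr (minor A i (σ i))).card := by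
        rw [← card_fib (hσ'.2 i)]
        refine Finset.card_pos.2 ⟨σ, ?_⟩
        rw [Finset.mem_filter]
        exact ⟨hσ, rfl⟩
      have h3 := ih {j : ι // j ≠ i} {l : κ // l ≠ σ i}
        (by rw [Fintype.card_subtype_compl, Fintype.card_subtype_eq, hι]; rfl)
        (by rw [Fintype.card_subtype_compl, Fintype.card_subtype_eq, hκ]; rfl)
        (minor A i (σ i)) h2
      rw [h1]
      refine h3.trans (le_of_eq ?_)
      have h4 : ∀ j : {j : ι // j ≠ i}, breL (minor A i (σ i) j).card =
          (fun j : ι => breL ((A j).erase (σ i)).card) j.1 := by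
        intro j
        simp only [card_minor]
      rw [Finset.sum_congr rfl fun j _ => h4 j]
      rw [← Finset.sum_subtype (univ.erase i) (p := fun j => j ≠ i) (by simp)
        (fun j : ι => breL ((A j).erase (σ i)).card)]
    have hmain : ((n + 1 : ℕ) : ℝ) * (P * Real.log P) ≤
        P * (((n + 1 : ℕ) : ℝ) * ∑ j, breL (A j).card) := by
      calc ((n + 1 : ℕ) : ℝ) * (P * Real.log P) = ∑ _i : ι, P * Real.log P := by
            rw [Finset.sum_const, Finset.card_univ, hι, nsmul_eq_mul]
        _ ≤ ∑ i : ι, (P * Real.log (A i).card + ∑ σ ∈ sdr A, Real.log (p i (σ i))) :=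
            Finset.sum_le_sum fun i _ => hjen i
        _ ≤ ∑ i : ι, (P * Real.log (A i).card + ∑ σ ∈ sdr A,
              ∑ j ∈ univ.erase i, breL ((A j).erase (σ i)).card) := by
            refine Finset.sum_le_sum fun i _ => ?_
            have := Finset.sum_le_sum fun σ hσ => hstep σ hσ i
            linarith
        _ = ∑ σ ∈ sdr A, ∑ j : ι, (Real.log (A j).card +
              ∑ i ∈ univ.erase j, breL ((A j).erase (σ i)).card) := by
            rw [Finset.sum_add_distrib]
            rw [Finset.sum_comm]
            have e1 : ∑ i : ι, P * Real.log (A i).card =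
                ∑ _σ ∈ sdr A, ∑ i : ι, Real.log (A i).card := by
              rw [Finset.sum_const, nsmul_eq_mul, ← hP, Finset.mul_sum]
            rw [e1, ← Finset.sum_add_distrib]
            refine Finset.sum_congr rfl fun σ _ => ?_
            rw [Finset.sum_add_distrib]
            congr 1
            have e2 : ∀ i : ι, ∑ j ∈ univ.erase i, breL ((A j).erase (σ i)).card =
                ∑ j : ι, if j ≠ i then breL ((A j).erase (σ i)).card else 0 := by
              intro i
              rw [← Finset.sum_filter]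
              refine Finset.sum_congr ?_ fun _ _ => rfl
              ext j; simp
            have e3 : ∀ j : ι, ∑ i ∈ univ.erase j, breL ((A j).erase (σ i)).card =
                ∑ i : ι, if j ≠ i then breL ((A j).erase (σ i)).card else 0 := by
              intro j
              rw [← Finset.sum_filter]
              refine Finset.sum_congr ?_ fun _ _ => rfl
              ext i; simp [eq_comm]
            simp only [e2, e3]
            rw [Finset.sum_comm]
        _ = ∑ _σ ∈ sdr A, ∑ j : ι, ((n + 1 : ℕ) : ℝ) * breL (A j).card := by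
            refine Finset.sum_congr rfl fun σ hσ => Finset.sum_congr rfl fun j _ => ?_
            rw [col_total hc hσ j, hι]
        _ = P * (((n + 1 : ℕ) : ℝ) * ∑ j, breL (A j).card) := by
            rw [Finset.sum_const, nsmul_eq_mul, ← hP, ← Finset.mul_sum]
    have hn : (0 : ℝ) < ((n + 1 : ℕ) : ℝ) := by positivity
    have h7 : (((n + 1 : ℕ) : ℝ) * P) * Real.log P ≤
        (((n + 1 : ℕ) : ℝ) * P) * ∑ j, breL (A j).card := by
      linarith
    exact le_of_mul_le_mul_left h7 (by positivity)

theorem bregman {ι κ : Type} [Fintype ι] [Fintype κ] [DecidableEq ι] [DecidableEq κ]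
    (hc : Fintype.card ι = Fintype.card κ) (A : ι → Finset κ) (r : ι → ℕ)
    (hr : ∀ j, (A j).card ≤ r j) : ((sdr A).card : ℝ) ≤ ∏ j, bf (r j) := by
  rcases Nat.eq_zero_or_pos (sdr A).card with h0 | h0
  · rw [h0]
    simp only [Nat.cast_zero]
    exact Finset.prod_nonneg fun j _ => (bf_pos' _).le
  · have h1 := breg_log (Fintype.card ι) ι κ rfl hc.symm A h0
    have h2 : (0 : ℝ) < ((sdr A).card : ℝ) := by exact_mod_cast h0
    calc ((sdr A).card : ℝ) = Real.exp (Real.log ((sdr A).card : ℝ)) := (Real.exp_log h2).symm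
      _ ≤ Real.exp (∑ j, breL (A j).card) := Real.exp_le_exp.2 h1
      _ = ∏ j, bf (A j).card := by
          rw [Real.exp_sum]
          exact Finset.prod_congr rfl fun j _ => (bf_eq_exp _).symm
      _ ≤ ∏ j, bf (r j) := Finset.prod_le_prod (fun j _ => (bf_pos' _).le)
          fun j _ => bf_mono (hr j)

end BESL
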