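import Pool.Agent.Lib.MP_c82047_co_LS.Defs

/-!
# MP_c82047_co, project LS, module CD: the degrees in the hypergraph of the copies
-/

set_option autoImplicit false

namespace BESL

open Finset

/-- the maps with prescribed values on `R` -/
theorem codeg_card_pi {p n : ℕ} (R : Finset (Fin p)) (a : Fin p → Fin n) :
    (Fintype.piFinset fun i => if i ∈ R then ({a i} : Finset (Fin n)) else univ).card * n ^ R.card =
      n ^ p := by
  have hR : R.card ≤ p := by simpa using R.card_le_univ
  rw [Fintype.card_piFinset]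
  have h : ∀ i : Fin p, (if i ∈ R then ({a i} : Finset (Fin n)) else univ).card =
      if i ∈ R then 1 else n := by
    intro i
    split_ifs <;> simp
  rw [Finset.prod_congr rfl fun i _ => h i, Finset.prod_ite, Finset.prod_const_one, one_mul,
    Finset.prod_const, ← pow_add]
  congr 1
  have h1 : (univ.filter fun i => i ∉ R).card = p - R.card := by
    rw [← Finset.compl_filter, Finset.card_compl, Fintype.card_fin, Finset.filter_mem_eq_inter,
      Finset.univ_inter]
  rw [h1]
  omega

theorem codeg_three_le_pts {p q s : ℕ} {G : Finset (Fin p × Fin q × Fin s)} (h : G.Nonempty) :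
    3 ≤ pts G := by
  have h1 : 1 ≤ (G.image fun t => t.1).card := Finset.card_pos.2 (h.image _)
  have h2 : 1 ≤ (G.image fun t => t.2.1).card := Finset.card_pos.2 (h.image _)
  have h3 : 1 ≤ (G.image fun t => t.2.2).card := Finset.card_pos.2 (h.image _)
  unfold pts
  omega

theorem codeg_card_le {p q s n : ℕ} {F : Finset (Fin p × Fin q × Fin s)} (hF : Sparse F)
    {σ : Finset (Tr n)} (hσ : σ.Nonempty) (φ : σ ↪ F) :
    (univ.filter fun θ : Th p q s n => ∀ t : σ, mp θ (φ t : Fin p × Fin q × Fin s) = t).card *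
      n ^ (3 + if 2 ≤ σ.card then σ.card else 0) ≤ n ^ (p + q + s) := by
  have hn : 0 < n := by
    obtain ⟨t, -⟩ := hσ
    exact lt_of_le_of_lt (Nat.zero_le _) t.1.2
  set T := univ.filter fun θ : Th p q s n => ∀ t : σ, mp θ (φ t : Fin p × Fin q × Fin s) = t
    with hT
  rcases T.eq_empty_or_nonempty with h0 | ⟨θ₀, hθ₀⟩
  · rw [h0, Finset.card_empty, zero_mul]
    exact Nat.zero_le _
  have hθ₀' : ∀ t : σ, mp θ₀ (φ t : Fin p × Fin q × Fin s) = t := (Finset.mem_filter.1 hθ₀).2
  set G : Finset (Fin p × Fin q × Fin s) := univ.image fun t : σ => (φ t : Fin p × Fin q × Fin s)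
    with hG
  have hGF : G ⊆ F := by
    intro x hx
    obtain ⟨t, -, rfl⟩ := Finset.mem_image.1 hx
    exact (φ t).2
  have hGc : G.card = σ.card := by
    have hinj : Function.Injective fun t : σ => (φ t : Fin p × Fin q × Fin s) :=
      Subtype.val_injective.comp φ.injective
    rw [hG, Finset.card_image_of_injective _ hinj, Finset.card_univ, Fintype.card_coe]
  have hGne : G.Nonempty := by
    rw [← Finset.card_pos, hGc]
    exact Finset.card_pos.2 hσ
  have hpts : 3 + (if 2 ≤ σ.card then σ.card else 0) ≤ pts G := by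
    split_ifs with h2
    · have := hF G hGF (by rw [hGc]; exact h2)
      rw [hGc] at this
      omega
    · exact codeg_three_le_pts hGne
  have hsub : T ⊆ (Fintype.piFinset fun i =>
        if i ∈ G.image (fun t => t.1) then ({θ₀.1 i} : Finset (Fin n)) else univ) ×ˢ
      (Fintype.piFinset fun i =>
        if i ∈ G.image (fun t => t.2.1) then ({θ₀.2.1 i} : Finset (Fin n)) else univ) ×ˢ
      (Fintype.piFinset fun i =>
        if i ∈ G.image (fun t => t.2.2) then ({θ₀.2.2 i} : Finset (Fin n)) else univ) := by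
    intro θ hθ
    have hθ' : ∀ t : σ, mp θ (φ t : Fin p × Fin q × Fin s) = t := (Finset.mem_filter.1 hθ).2
    have hag : ∀ t : σ, mp θ (φ t : Fin p × Fin q × Fin s) = mp θ₀ (φ t) := fun t => by
      rw [hθ' t, hθ₀' t]
    rw [Finset.mem_product, Finset.mem_product]
    refine ⟨Fintype.mem_piFinset.2 fun i => ?_, Fintype.mem_piFinset.2 fun i => ?_,
      Fintype.mem_piFinset.2 fun i => ?_⟩
    · split_ifs with hi
      · obtain ⟨x, hx, rfl⟩ := Finset.mem_image.1 hi
        obtain ⟨t, -, rfl⟩ := Finset.mem_image.1 hx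
        exact Finset.mem_singleton.2 (congrArg Prod.fst (hag t))
      · exact Finset.mem_univ _
    · split_ifs with hi
      · obtain ⟨x, hx, rfl⟩ := Finset.mem_image.1 hi
        obtain ⟨t, -, rfl⟩ := Finset.mem_image.1 hx
        exact Finset.mem_singleton.2 (congrArg (fun y => y.2.1) (hag t))
      · exact Finset.mem_univ _
    · split_ifs with hi
      · obtain ⟨x, hx, rfl⟩ := Finset.mem_image.1 hi
        obtain ⟨t, -, rfl⟩ := Finset.mem_image.1 hx
        exact Finset.mem_singleton.2 (congrArg (fun y => y.2.2) (hag t))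
      · exact Finset.mem_univ _
  have hcard := Finset.card_le_card hsub
  rw [Finset.card_product, Finset.card_product] at hcard
  have e1 := codeg_card_pi (G.image fun t => t.1) θ₀.1
  have e2 := codeg_card_pi (G.image fun t => t.2.1) θ₀.2.1
  have e3 := codeg_card_pi (G.image fun t => t.2.2) θ₀.2.2
  calc T.card * n ^ (3 + if 2 ≤ σ.card then σ.card else 0)
      ≤ T.card * n ^ pts G := Nat.mul_le_mul_left _ (Nat.pow_le_pow_right hn hpts)
    _ ≤ _ := Nat.mul_le_mul_right _ hcard
    _ = n ^ (p + q + s) := by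
        unfold pts
        rw [pow_add n (p + q) s, pow_add n p q, ← e1, ← e2, ← e3, pow_add, pow_add]
        ring

theorem codeg_deg_eq {p q s n : ℕ} (F : Finset (Fin p × Fin q × Fin s))
    (C : Finset (Tr n)) (σ : Finset (Tr n)) :
    deg (wt F C) σ = (((copies F C).filter fun θ => σ ⊆ img F θ).card : ℝ) := by
  classical
  unfold deg wt
  have h : ((copies F C).filter fun θ => σ ⊆ img F θ).card =
      ∑ E : Finset (Tr n), (((copies F C).filter fun θ => σ ⊆ img F θ).filter
        fun θ => img F θ = E).card :=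
    Finset.card_eq_sum_card_fiberwise fun θ _ => Finset.mem_coe.2 (Finset.mem_univ _)
  rw [h, Nat.cast_sum]
  refine Finset.sum_congr rfl fun E _ => ?_
  rw [Finset.filter_filter]
  split_ifs with hE
  · have hc : (copies F C).filter (fun θ => img F θ = E) =
        (copies F C).filter (fun θ => σ ⊆ img F θ ∧ img F θ = E) := by
      refine Finset.filter_congr fun θ _ => ⟨fun h => ⟨h ▸ hE, h⟩, fun h => h.2⟩
    rw [← hc]
  · have hc : (copies F C).filter (fun θ => σ ⊆ img F θ ∧ img F θ = E) = ∅ := by
      refine Finset.filter_eq_empty_iff.2 fun θ _ h => hE (h.2 ▸ h.1)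
    rw [hc, Finset.card_empty, Nat.cast_zero]

theorem codeg {p q s n : ℕ} (F : Finset (Fin p × Fin q × Fin s)) (hF : Sparse F)
    (C : Finset (Tr n)) (σ : Finset (Tr n)) (hσ : σ.Nonempty) :
    deg (wt F C) σ * (n : ℝ) ^ (3 + if 2 ≤ σ.card then σ.card else 0) ≤
      (F.card.factorial : ℝ) * (n : ℝ) ^ (p + q + s) := by
  classical
  rw [codeg_deg_eq]
  have hsub : (copies F C).filter (fun θ => σ ⊆ img F θ) ⊆
      (univ : Finset (σ ↪ F)).biUnion fun φ => univ.filter fun θ : Th p q s n =>
        ∀ t : σ, mp θ (φ t : Fin p × Fin q × Fin s) = t := by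
    intro θ hθ
    have hθ' := (Finset.mem_filter.1 hθ).2
    have hex : ∀ t : σ, ∃ f : F, mp θ (f : Fin p × Fin q × Fin s) = t := by
      intro t
      obtain ⟨f, hf, hft⟩ := Finset.mem_image.1 (hθ' t.2)
      exact ⟨⟨f, hf⟩, hft⟩
    choose f hf using hex
    refine Finset.mem_biUnion.2 ⟨⟨f, fun a b hab => ?_⟩, Finset.mem_univ _,
      Finset.mem_filter.2 ⟨Finset.mem_univ _, fun t => hf t⟩⟩
    apply Subtype.ext
    rw [← hf a, ← hf b, hab]
  have hcard : ((copies F C).filter fun θ => σ ⊆ img F θ).card *
      n ^ (3 + if 2 ≤ σ.card then σ.card else 0) ≤ F.card.factorial * n ^ (p + q + s) := by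
    calc ((copies F C).filter fun θ => σ ⊆ img F θ).card *
        n ^ (3 + if 2 ≤ σ.card then σ.card else 0)
        ≤ (∑ φ : σ ↪ F, (univ.filter fun θ : Th p q s n =>
            ∀ t : σ, mp θ (φ t : Fin p × Fin q × Fin s) = t).card) *
          n ^ (3 + if 2 ≤ σ.card then σ.card else 0) :=
          Nat.mul_le_mul_right _ ((Finset.card_le_card hsub).trans Finset.card_biUnion_le)
      _ ≤ ∑ _φ : σ ↪ F, n ^ (p + q + s) := by
          rw [Finset.sum_mul]
          exact Finset.sum_le_sum fun φ _ => codeg_card_le hF hσ φ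
      _ = (F.card.descFactorial σ.card) * n ^ (p + q + s) := by
          rw [Finset.sum_const, Finset.card_univ, Fintype.card_embedding_eq, Fintype.card_coe,
            Fintype.card_coe, smul_eq_mul]
      _ ≤ F.card.factorial * n ^ (p + q + s) := by
          refine Nat.mul_le_mul_right _ ?_
          rcases le_or_gt σ.card F.card with h | h
          · exact Nat.le_of_dvd (Nat.factorial_pos _) (by
              rw [← Nat.factorial_mul_descFactorial h]
              exact Dvd.intro_left _ rfl)
          · rw [Nat.descFactorial_of_lt h]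
            exact Nat.zero_le _
  exact_mod_cast hcard

end BESL
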