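import Pool.Agent.Lib.MP_c82047_co_LS.Step

/-!
# MP_c82047_co, project LS, module WC: the container theorem, one round
-/

set_option autoImplicit false

namespace BESL

open Finset

private theorem cont_qf_succ (r : ℕ) (hr : 1 ≤ r) (Q : ℝ) :
    qf (r + 1) Q = qf r (17 * 2 ^ r * Q ^ 2) := by
  obtain ⟨s, rfl⟩ : ∃ s, r = s + 1 := ⟨r - 1, by omega⟩
  rfl

private theorem cont_sq {r : ℕ} {Q : ℝ} (hQ : 1 ≤ Q) : Q ≤ 2 ^ r * Q ^ 2 := by
  have h1 : (1 : ℝ) ≤ 2 ^ r := one_le_pow₀ (by norm_num)
  have h2 : Q ≤ Q ^ 2 := by nlinarith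
  have h3 : 0 ≤ Q ^ 2 := sq_nonneg Q
  nlinarith

private theorem cont_qf_ge : ∀ (r : ℕ) (Q : ℝ), 1 ≤ Q → Q ≤ qf r Q
  | 0, Q, _ => le_of_eq rfl
  | 1, Q, _ => le_of_eq rfl
  | (r + 2), Q, hQ => by
    have h1 := cont_sq (r := r + 1) hQ
    have h2 : Q ≤ 17 * 2 ^ (r + 1) * Q ^ 2 := by nlinarith
    exact h2.trans (cont_qf_ge (r + 1) _ (hQ.trans h2))

private theorem cont_flatMap {α β : Type} (L : List α) (f : α → List β) (B : ℕ)
    (h : ∀ a, (f a).length ≤ B) : (L.flatMap f).length ≤ L.length * B := by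
  induction L with
  | nil => simp
  | cons a L ih =>
    rw [List.flatMap_cons, List.length_append, List.length_cons, add_mul, one_mul, add_comm]
    exact Nat.add_le_add ih (h a)

private theorem cont_base {V : Type} [Fintype V] [DecidableEq V] (w : Finset V → ℝ) (E Q N : ℝ)
    (hN : 0 < N) (hw : Unif 1 w) (hE : 0 < E) (hEt : E ≤ tot w) (hQ : 1 ≤ Q)
    (hdeg : ∀ u, deg w {u} ≤ E / N * Q) :
    N ≤ 4 * Q * ((supp w).card : ℝ) ∧ ∀ I : Finset V, Ind w I → Disjoint (supp w) I := by
  constructor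
  · have h1 := sum_deg_singleton hw
    rw [Nat.cast_one, one_mul] at h1
    have h2 : ∑ u, deg w {u} ≤ ∑ u ∈ supp w, deg w {u} := by
      rw [← Finset.sum_sdiff (Finset.subset_univ (supp w))]
      have h3 : ∑ u ∈ univ \ supp w, deg w {u} ≤ 0 := by
        refine Finset.sum_nonpos (fun u hu => ?_)
        rw [Finset.mem_sdiff, supp, Finset.mem_filter] at hu
        by_contra h4
        exact hu.2 ⟨Finset.mem_univ u, not_le.1 h4⟩
      linarith
    have h3 : ∑ u ∈ supp w, deg w {u} ≤ ((supp w).card : ℝ) * (E / N * Q) := by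
      refine (Finset.sum_le_card_nsmul _ _ _ (fun u _ => hdeg u)).trans ?_
      rw [nsmul_eq_mul]
    have h4 : E ≤ ((supp w).card : ℝ) * (E / N * Q) := by linarith
    have h5 : ((supp w).card : ℝ) * (E / N * Q) = E * (Q * ((supp w).card : ℝ)) / N := by ring
    rw [h5, le_div_iff₀ hN, mul_le_mul_iff_right₀ hE] at h4
    have h6 : 0 ≤ Q * ((supp w).card : ℝ) := by positivity
    linarith
  · intro I hI
    rw [Finset.disjoint_left]
    intro u hu huI
    rw [supp, Finset.mem_filter] at hu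
    have h1 : deg w {u} = 0 := by
      refine Finset.sum_eq_zero (fun F _ => ?_)
      split_ifs with hF
      · by_contra h2
        have h3 := hw.card F h2
        obtain ⟨v, rfl⟩ := Finset.card_eq_one.1 h3
        have h4 : u = v := by simpa using hF
        subst h4
        exact h2 (hI _ (by simpa using huI))
      · rfl
    rw [h1] at hu
    exact lt_irrefl _ hu.2

theorem cont {V : Type} [Fintype V] [DecidableEq V] : ∀ (r : ℕ), 1 ≤ r →
    ∀ (w : Finset V → ℝ) (E Q : ℝ) (b : ℕ), Unif r w → 0 < E → E ≤ tot w → 1 ≤ Q → 1 ≤ b →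
    (b : ℝ) * qf r Q ≤ (Fintype.card V : ℝ) / 8 →
    (∀ σ : Finset V, σ.Nonempty → deg w σ ≤
      E / (Fintype.card V : ℝ) * Q * ((b : ℝ) / (2 * (Fintype.card V : ℝ))) ^ (σ.card - 1)) →
    ∃ O : List (Finset V), O.length ≤ (Fintype.card V + 1) ^ (b * r) ∧
      (∀ X ∈ O, X ⊆ supp w ∧ (Fintype.card V : ℝ) ≤ 4 * qf r Q * (X.card : ℝ)) ∧
      ∀ I : Finset V, Ind w I → ∃ X ∈ O, Disjoint X I := by
  intro r hr
  induction r, hr using Nat.le_induction with
  | base =>
    intro w E Q b hw hE hEt hQ hb hqf hdeg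
    have hb' : (1 : ℝ) ≤ b := by exact_mod_cast hb
    have hN : (0 : ℝ) < (Fintype.card V : ℝ) := by
      have h1 : (1 : ℝ) ≤ b * qf 1 Q := by
        have := cont_qf_ge 1 Q hQ
        nlinarith
      linarith
    obtain ⟨h1, h2⟩ := cont_base w E Q (Fintype.card V : ℝ) hN hw hE hEt hQ (fun u => by
      have := hdeg {u} (Finset.singleton_nonempty u)
      rwa [Finset.card_singleton, Nat.sub_self, pow_zero, mul_one] at this)
    refine ⟨[supp w], ?_, ?_, ?_⟩
    · rw [List.length_singleton]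
      exact Nat.one_le_pow _ _ (by omega)
    · intro X hX
      rw [List.mem_singleton] at hX
      subst hX
      exact ⟨Finset.Subset.refl _, h1⟩
    · intro I hI
      exact ⟨supp w, by simp, h2 I hI⟩
  | succ r hr ih =>
    intro w E Q b hw hE hEt hQ hb hqf hdeg
    have hb' : (1 : ℝ) ≤ b := by exact_mod_cast hb
    have hQge : Q ≤ qf (r + 1) Q := cont_qf_ge (r + 1) Q hQ
    have hbQ : (b : ℝ) * Q ≤ (Fintype.card V : ℝ) / 8 :=
      (mul_le_mul_of_nonneg_left hQge (by positivity)).trans hqf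
    obtain ⟨N, hNdef⟩ : ∃ N : ℝ, N = (Fintype.card V : ℝ) := ⟨_, rfl⟩
    rw [← hNdef] at hqf hdeg hbQ ⊢
    have hN : 0 < N := by nlinarith
    have hQ0 : 0 < Q := by linarith
    have hb0 : (0 : ℝ) < b := by linarith
    obtain ⟨x, hx⟩ : ∃ x : ℝ, x = (b : ℝ) / (2 * N) := ⟨_, rfl⟩
    have hx0 : 0 < x := by rw [hx]; positivity
    rw [← hx] at hdeg
    obtain ⟨D, hD⟩ : ∃ D : ℕ → ℝ, D = fun j => E / N * Q * x ^ (j - 1) := ⟨_, rfl⟩
    have hD1 : D 1 = E / N * Q := by
      rw [hD]
      simp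
    have hDpos : ∀ j, 0 < D j := fun j => by
      rw [hD]
      positivity
    obtain ⟨D', hD'⟩ : ∃ D' : ℕ → ℝ, D' = fun j => 8 * 2 ^ r * D j * (b * D 1) / E := ⟨_, rfl⟩
    have hD'pos : ∀ j, 0 < D' j := fun j => by
      have h1 := hDpos j
      have h2 := hDpos 1
      rw [hD']
      positivity
    have h1 : (b : ℝ) * D 1 ≤ E / 8 := by
      have h2 : (b : ℝ) * D 1 = E * (b * Q) / N := by
        rw [hD1]
        ring
      rw [h2, div_le_iff₀ hN]
      have h3 := mul_le_mul_of_nonneg_left hbQ hE.le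
      linarith
    have h2 : ∑ j ∈ Finset.Icc 1 r, (r.choose j : ℝ) * (D j / D' j) * (b * D 1) ≤ E / 8 := by
      have h3 : ∀ j ∈ Finset.Icc 1 r, (r.choose j : ℝ) * (D j / D' j) * (b * D 1) =
          (r.choose j : ℝ) * (E / (8 * 2 ^ r)) := by
        intro j _
        have h4 := hDpos j
        have h5 := hDpos 1
        rw [hD']
        field_simp
      rw [Finset.sum_congr rfl h3, ← Finset.sum_mul]
      have h6 : ∑ j ∈ Finset.Icc 1 r, (r.choose j : ℝ) ≤ 2 ^ r := by
        have h7 : ∑ j ∈ Finset.range (r + 1), (r.choose j : ℝ) = 2 ^ r := by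
          exact_mod_cast Nat.sum_range_choose r
        rw [← h7]
        refine Finset.sum_le_sum_of_subset_of_nonneg (fun j hj => ?_) (fun _ _ _ => by positivity)
        rw [Finset.mem_Icc] at hj
        rw [Finset.mem_range]
        omega
      calc (∑ j ∈ Finset.Icc 1 r, (r.choose j : ℝ)) * (E / (8 * 2 ^ r))
          ≤ 2 ^ r * (E / (8 * 2 ^ r)) := mul_le_mul_of_nonneg_right h6 (by positivity)
        _ = E / 8 := by field_simp
    obtain ⟨O, hO1, hO2, hO3⟩ := step r w hw E hE hEt D D' (fun j => (hDpos j).le) hD'pos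
      (fun σ hσ => by
        rw [hD]
        exact hdeg σ hσ) b h1 h2
    have hcl : ∀ P : Finset V × (Finset V → ℝ), ∃ O' : List (Finset V),
        O'.length ≤ (Fintype.card V + 1) ^ (b * r) ∧ (P ∈ O →
          (∀ X ∈ O', X ⊆ supp w ∧ N ≤ 4 * qf (r + 1) Q * (X.card : ℝ)) ∧
          ∀ I : Finset V, Disjoint P.1 I → Ind P.2 I → ∃ X ∈ O', Disjoint X I) := by
      rintro ⟨X, g⟩
      by_cases hP : (X, g) ∈ O
      · obtain ⟨hXw, h3 | ⟨hg1, hg2, hg3, hg4⟩⟩ := hO2 X g hP
        · refine ⟨[X], ?_, fun _ => ⟨?_, ?_⟩⟩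
          · rw [List.length_singleton]
            exact Nat.one_le_pow _ _ (by omega)
          · intro Y hY
            rw [List.mem_singleton] at hY
            subst hY
            refine ⟨hXw, ?_⟩
            have h4 : 4 * D 1 * (Y.card : ℝ) = E * (4 * Q * (Y.card : ℝ)) / N := by
              rw [hD1]
              ring
            rw [h4, le_div_iff₀ hN, mul_le_mul_iff_right₀ hE] at h3
            refine h3.trans (mul_le_mul_of_nonneg_right ?_ (by positivity))
            linarith
          · intro I hI _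
            exact ⟨X, by simp, hI⟩
        · have hE' : 0 < (b : ℝ) * E / (2 * N) := by positivity
          have hQ' : (1 : ℝ) ≤ 17 * 2 ^ r * Q ^ 2 := by
            have h4 := cont_sq (r := r) hQ
            linarith
          have hqf' : (b : ℝ) * qf r (17 * 2 ^ r * Q ^ 2) ≤ (Fintype.card V : ℝ) / 8 := by
            rw [← cont_qf_succ r hr, ← hNdef]
            exact hqf
          obtain ⟨O', hO1', hO2', hO3'⟩ := ih g ((b : ℝ) * E / (2 * N)) (17 * 2 ^ r * Q ^ 2) b
            hg1 hE' (by rw [hNdef]; exact hg2) hQ' hb hqf' (fun σ hσ => by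
              refine (hg3 σ hσ).trans ?_
              obtain ⟨i, hi⟩ : ∃ i, σ.card = i + 1 :=
                ⟨σ.card - 1, by have := Finset.card_pos.2 hσ; omega⟩
              rw [hi, ← hNdef, ← hx, Nat.add_sub_cancel]
              have h4 : D' (i + 1) + D (i + 1 + 1) =
                  (b : ℝ) * E / (2 * N) / N * (16 * 2 ^ r * Q ^ 2 + Q) * x ^ i := by
                rw [hD']
                simp only [hD, Nat.add_sub_cancel, Nat.sub_self, pow_zero, mul_one, pow_succ]
                rw [hx]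
                field_simp
                ring
              rw [h4]
              refine mul_le_mul_of_nonneg_right (mul_le_mul_of_nonneg_left ?_ ?_) ?_
              · have h5 := cont_sq (r := r) hQ
                linarith
              · positivity
              · positivity)
          refine ⟨O', hO1', fun _ => ⟨fun Y hY => ?_, fun I _ hI => hO3' I hI⟩⟩
          obtain ⟨h5, h6⟩ := hO2' Y hY
          refine ⟨h5.trans hg4, ?_⟩
          rw [cont_qf_succ r hr, hNdef]
          exact h6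
      · exact ⟨[], by simp, fun h => absurd h hP⟩
    choose f hf1 hf2 using hcl
    refine ⟨O.flatMap f, ?_, ?_, ?_⟩
    · calc (O.flatMap f).length ≤ O.length * (Fintype.card V + 1) ^ (b * r) :=
            cont_flatMap O f _ hf1
        _ ≤ (Fintype.card V + 1) ^ b * (Fintype.card V + 1) ^ (b * r) :=
            Nat.mul_le_mul_right _ hO1
        _ = (Fintype.card V + 1) ^ (b * (r + 1)) := by
            rw [← pow_add]
            congr 1
            ring
    · intro X hX
      obtain ⟨P, hP, hX'⟩ := List.mem_flatMap.1 hX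
      exact (hf2 P hP).1 X hX'
    · intro I hI
      obtain ⟨X, g, hXg, hd, hg⟩ := hO3 I hI
      obtain ⟨Y, hY, hYd⟩ := (hf2 (X, g) hXg).2 I hd hg
      exact ⟨Y, List.mem_flatMap.2 ⟨(X, g), hXg, hY⟩, hYd⟩

end BESL
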