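import Pool.Agent.Lib.MP_c82047_co_LS.Defs

/-!
# MP_c82047_co, project LS, module CW: the hypergraph of the copies of a configuration
-/

set_option autoImplicit false

namespace BESL

open Finset

variable {p q s n : ℕ}

private theorem copies_mp_inj {θ : Th p q s n} (h : Inj θ) :
    Function.Injective (mp θ) := by
  rintro ⟨a, b, c⟩ ⟨a', b', c'⟩ hab
  simp only [mp, Prod.mk.injEq] at hab
  obtain ⟨h1, h2, h3⟩ := hab
  rw [h.1 h1, h.2.1 h2, h.2.2 h3]

private theorem copies_wt_ne {F : Finset (Fin p × Fin q × Fin s)} {C E : Finset (Tr n)}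
    (h : wt F C E ≠ 0) : ∃ θ : Th p q s n, Inj θ ∧ img F θ ⊆ C ∧ img F θ = E := by
  classical
  unfold wt at h
  have h1 : ((copies F C).filter fun θ => img F θ = E).card ≠ 0 := fun h0 => h (by
    rw [h0]; exact Nat.cast_zero)
  obtain ⟨θ, hθ⟩ := Finset.card_pos.1 (Nat.pos_of_ne_zero h1)
  rw [Finset.mem_filter, copies, Finset.mem_filter] at hθ
  exact ⟨θ, hθ.1.2.1, hθ.1.2.2, hθ.2⟩

theorem unif_wt (F : Finset (Fin p × Fin q × Fin s)) (C : Finset (Tr n)) :
    Unif F.card (wt F C) := by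
  constructor
  · intro E
    exact Nat.cast_nonneg _
  · intro E hE
    obtain ⟨θ, h1, -, h2⟩ := copies_wt_ne hE
    rw [← h2, img, Finset.card_image_of_injective F (copies_mp_inj h1)]

theorem tot_wt (F : Finset (Fin p × Fin q × Fin s)) (C : Finset (Tr n)) :
    tot (wt F C) = ((copies F C).card : ℝ) := by
  classical
  unfold tot wt
  rw [Finset.card_eq_sum_card_fiberwise (f := fun θ => img F θ) (s := copies F C)
    (t := Finset.univ) (fun _ _ => Finset.mem_coe.2 (Finset.mem_univ _)), Nat.cast_sum]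

theorem supp_wt (F : Finset (Fin p × Fin q × Fin s)) (C : Finset (Tr n)) :
    supp (wt F C) ⊆ C := by
  classical
  intro u hu
  unfold supp at hu
  rw [Finset.mem_filter] at hu
  have h1 := hu.2
  unfold deg at h1
  obtain ⟨E, -, hE⟩ := Finset.exists_ne_zero_of_sum_ne_zero h1.ne'
  have h2 : {u} ⊆ E := by
    by_contra hcon
    exact hE (if_neg hcon)
  rw [if_pos h2] at hE
  obtain ⟨θ, -, h3, h4⟩ := copies_wt_ne hE
  have h5 : u ∈ E := h2 (Finset.mem_singleton_self u)
  rw [← h4] at h5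
  exact h3 h5

theorem ind_wt (F : Finset (Fin p × Fin q × Fin s)) (C : Finset (Tr n)) {I : Finset (Tr n)}
    (h : ¬ Cop F I) : Ind (wt F C) I := by
  intro E hE
  by_contra hcon
  obtain ⟨θ, h1, -, h2⟩ := copies_wt_ne hcon
  exact h ⟨θ, h1, by rw [h2]; exact hE⟩

end BESL
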