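import Pool.Agent.Lib.MP_c82047_co_LS.Defs

/-!
# MP_c82047_co, project LS, module IT: iteration of the container theorem
-/

set_option autoImplicit false

namespace BESL

open Finset

private theorem iter_aux {V : Type} [Fintype V] [DecidableEq V] (heavy free : Finset V → Prop)
    (B β : ℕ) (hB : 1 ≤ B)
    (h : ∀ C, heavy C → ∃ O : List (Finset V), O.length ≤ B ∧
      (∀ X ∈ O, X ⊆ C ∧ β ≤ X.card) ∧ ∀ I, I ⊆ C → free I → ∃ X ∈ O, Disjoint X I) :
    ∀ (j : ℕ) (C : Finset V), C.card < β * j →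
      ∃ O : List (Finset V), O.length ≤ B ^ j ∧ (∀ D ∈ O, ¬ heavy D) ∧
        ∀ I, I ⊆ C → free I → ∃ D ∈ O, I ⊆ D := by
  intro j
  induction j with
  | zero =>
    intro C hC
    rw [mul_zero] at hC
    exact absurd hC (Nat.not_lt_zero _)
  | succ j ih =>
    intro C hC
    by_cases hh : heavy C
    · obtain ⟨O, hO1, hO2, hO3⟩ := h C hh
      have hX : ∀ X : Finset V, ∃ L : List (Finset V), X ∈ O → L.length ≤ B ^ j ∧
          (∀ D ∈ L, ¬ heavy D) ∧ ∀ I, I ⊆ C \ X → free I → ∃ D ∈ L, I ⊆ D := by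
        intro X
        by_cases hXO : X ∈ O
        · obtain ⟨hXC, hXβ⟩ := hO2 X hXO
          have h1 : (C \ X).card < β * j := by
            have h2 := card_le_card hXC
            rw [card_sdiff_of_subset hXC]
            rw [Nat.mul_succ] at hC
            omega
          obtain ⟨L, hL1, hL2, hL3⟩ := ih (C \ X) h1
          exact ⟨L, fun _ => ⟨hL1, hL2, hL3⟩⟩
        · exact ⟨[], fun h => absurd h hXO⟩
      choose f hf using hX
      refine ⟨O.flatMap f, ?_, ?_, ?_⟩
      · rw [List.length_flatMap]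
        have h1 : (O.map fun X => (f X).length).sum ≤ (O.map fun X => (f X).length).length •
            B ^ j := by
          apply List.sum_le_card_nsmul
          intro x hx
          rw [List.mem_map] at hx
          obtain ⟨X, hXO, rfl⟩ := hx
          exact (hf X hXO).1
        rw [List.length_map, smul_eq_mul] at h1
        calc _ ≤ O.length * B ^ j := h1
          _ ≤ B * B ^ j := Nat.mul_le_mul_right _ hO1
          _ = B ^ (j + 1) := by rw [pow_succ]; ring
      · intro D hD
        rw [List.mem_flatMap] at hD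
        obtain ⟨X, hXO, hD⟩ := hD
        exact (hf X hXO).2.1 D hD
      · intro I hIC hI
        obtain ⟨X, hXO, hd⟩ := hO3 I hIC hI
        obtain ⟨D, hD, hID⟩ := (hf X hXO).2.2 I (by
          intro x hx
          rw [mem_sdiff]
          exact ⟨hIC hx, fun hxX => (disjoint_left.1 hd hxX) hx⟩) hI
        exact ⟨D, List.mem_flatMap.2 ⟨X, hXO, hD⟩, hID⟩
    · refine ⟨[C], ?_, ?_, ?_⟩
      · rw [List.length_singleton]
        exact Nat.one_le_pow _ _ hB
      · intro D hD
        rw [List.mem_singleton] at hD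
        rw [hD]
        exact hh
      · intro I hIC _
        exact ⟨C, List.mem_singleton.2 rfl, hIC⟩

theorem iter {V : Type} [Fintype V] [DecidableEq V] (heavy free : Finset V → Prop) (B k β : ℕ)
    (hB : 1 ≤ B)
    (h : ∀ C, heavy C → ∃ O : List (Finset V), O.length ≤ B ∧
      (∀ X ∈ O, X ⊆ C ∧ β ≤ X.card) ∧ ∀ I, I ⊆ C → free I → ∃ X ∈ O, Disjoint X I)
    (hk : Fintype.card V < β * k) :
    ∃ O : List (Finset V), O.length ≤ B ^ k ∧ (∀ C ∈ O, ¬ heavy C) ∧
      ∀ I, free I → ∃ C ∈ O, I ⊆ C := by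
  obtain ⟨O, h1, h2, h3⟩ := iter_aux heavy free B β hB h k univ (by rwa [card_univ])
  exact ⟨O, h1, h2, fun I hI => h3 I (subset_univ I) hI⟩

end BESL
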