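import Pool.Agent.Lib.MP_c82047_co_LS.Defs

/-!
# MP_c82047_co, project LS, module SS: supersaturation (Erdos 1964)
-/

set_option autoImplicit false

namespace BESL

open Finset

/-- the power mean step -/
private theorem super_step {X Y : Type} [Fintype X] [Fintype Y] (f : X → Y → ℝ)
    (hf : ∀ x y, 0 ≤ f x y) (d : ℝ) (hd : 0 ≤ d) (k : ℕ)
    (h : d * ((Fintype.card X : ℝ) * (Fintype.card Y : ℝ)) ≤ ∑ x, ∑ y, f x y) :
    d ^ k * ((Fintype.card X : ℝ) * (Fintype.card Y : ℝ) ^ k) ≤
      ∑ x, ∑ y : Fin k → Y, ∏ i, f x (y i) := by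
  have e1 : ∀ x, ∑ y : Fin k → Y, ∏ i, f x (y i) = (∑ y, f x y) ^ k := fun x =>
    (Fintype.sum_pow (f x) k).symm
  simp only [e1]
  rcases isEmpty_or_nonempty X with hX | hX
  · simp
  · have hc : (0 : ℝ) < Fintype.card X := by
      exact_mod_cast Fintype.card_pos
    have h1 := Real.pow_arith_mean_le_arith_mean_pow (univ : Finset X)
      (fun _ => (Fintype.card X : ℝ)⁻¹) (fun x => ∑ y, f x y)
      (fun _ _ => inv_nonneg.2 hc.le) (by
        rw [sum_const, card_univ, nsmul_eq_mul, mul_inv_cancel₀ hc.ne'])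
      (fun x _ => sum_nonneg fun y _ => hf x y) k
    rw [← mul_sum, ← mul_sum] at h1
    have h2 : d * (Fintype.card Y : ℝ) ≤ (Fintype.card X : ℝ)⁻¹ * ∑ x, ∑ y, f x y := by
      rw [inv_mul_eq_div, le_div_iff₀ hc]
      calc d * (Fintype.card Y : ℝ) * (Fintype.card X : ℝ)
          = d * ((Fintype.card X : ℝ) * (Fintype.card Y : ℝ)) := by ring
        _ ≤ _ := h
    have h3 : (d * (Fintype.card Y : ℝ)) ^ k ≤
        (Fintype.card X : ℝ)⁻¹ * ∑ x, (∑ y, f x y) ^ k :=
      (pow_le_pow_left₀ (mul_nonneg hd (Nat.cast_nonneg _)) h2 k).trans h1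
    rw [inv_mul_eq_div, le_div_iff₀ hc] at h3
    calc d ^ k * ((Fintype.card X : ℝ) * (Fintype.card Y : ℝ) ^ k)
        = (d * (Fintype.card Y : ℝ)) ^ k * (Fintype.card X : ℝ) := by rw [mul_pow]; ring
      _ ≤ _ := h3

/-- two equal values -/
private theorem super_eq {p n : ℕ} {i j : Fin p} (hij : i ≠ j) :
    (univ.filter fun a : Fin p → Fin n => a i = a j).card * n ≤ n ^ p := by
  have h1 : ((univ.filter fun a : Fin p → Fin n => a i = a j) ×ˢ (univ : Finset (Fin n))).card ≤
      (univ : Finset (Fin p → Fin n)).card := by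
    apply card_le_card_of_injOn (fun x => Function.update x.1 i x.2) (fun x _ => mem_univ _)
    rintro ⟨a, v⟩ ha ⟨b, w⟩ hb hab
    simp only [coe_product, Set.mem_prod, mem_coe, mem_filter, mem_univ, true_and,
      and_true] at ha hb
    simp only at hab
    have hv : v = w := by
      have := congrFun hab i
      simpa using this
    have hk : ∀ l, l ≠ i → a l = b l := fun l hl => by
      have := congrFun hab l
      simpa [Function.update_of_ne hl] using this
    have hab' : a = b := by
      funext l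
      by_cases hl : l = i
      · rw [hl, ha, hb]
        exact hk j hij.symm
      · exact hk l hl
    rw [hab', hv]
  rw [card_product, card_univ, card_univ, Fintype.card_fin, Fintype.card_fun, Fintype.card_fin,
    Fintype.card_fin] at h1
  exact h1

open Classical in
/-- maps which are not injective -/
private theorem super_ninj (p n : ℕ) :
    (univ.filter fun a : Fin p → Fin n => ¬ Function.Injective a).card * n ≤ p ^ 2 * n ^ p := by
  have h1 : (univ.filter fun a : Fin p → Fin n => ¬ Function.Injective a) ⊆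
      (univ.filter fun t : Fin p × Fin p => t.1 ≠ t.2).biUnion fun t =>
        univ.filter fun a : Fin p → Fin n => a t.1 = a t.2 := by
    intro a ha
    simp only [mem_filter, mem_univ, true_and, Function.Injective, not_forall] at ha
    obtain ⟨i, j, h, hij⟩ := ha
    simp only [mem_biUnion, mem_filter, mem_univ, true_and]
    exact ⟨(i, j), hij, h⟩
  calc (univ.filter fun a : Fin p → Fin n => ¬ Function.Injective a).card * n
      ≤ (∑ t ∈ univ.filter fun t : Fin p × Fin p => t.1 ≠ t.2,
          (univ.filter fun a : Fin p → Fin n => a t.1 = a t.2).card) * n :=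
        Nat.mul_le_mul_right _ ((card_le_card h1).trans card_biUnion_le)
    _ = ∑ t ∈ univ.filter fun t : Fin p × Fin p => t.1 ≠ t.2,
          (univ.filter fun a : Fin p → Fin n => a t.1 = a t.2).card * n := by rw [sum_mul]
    _ ≤ ∑ _t ∈ univ.filter fun t : Fin p × Fin p => t.1 ≠ t.2, n ^ p :=
        sum_le_sum fun t ht => super_eq (mem_filter.1 ht).2
    _ = (univ.filter fun t : Fin p × Fin p => t.1 ≠ t.2).card * n ^ p := by
        rw [sum_const, smul_eq_mul]
    _ ≤ p ^ 2 * n ^ p := by
        apply Nat.mul_le_mul_right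
        refine (card_filter_le _ _).trans ?_
        rw [card_univ, Fintype.card_prod, Fintype.card_fin, sq]

open Classical in
/-- triples of maps which are not all injective -/
private theorem super_nInj (p q s n : ℕ) :
    (univ.filter fun θ : Th p q s n => ¬ Inj θ).card * n ≤
      (p ^ 2 + q ^ 2 + s ^ 2) * n ^ (p + q + s) := by
  have h1 : (univ.filter fun θ : Th p q s n => ¬ Inj θ) ⊆
      ((univ.filter fun a : Fin p → Fin n => ¬ Function.Injective a) ×ˢ
          ((univ : Finset (Fin q → Fin n)) ×ˢ (univ : Finset (Fin s → Fin n)))) ∪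
        (((univ : Finset (Fin p → Fin n)) ×ˢ
          ((univ.filter fun a : Fin q → Fin n => ¬ Function.Injective a) ×ˢ
            (univ : Finset (Fin s → Fin n)))) ∪
        ((univ : Finset (Fin p → Fin n)) ×ˢ
          ((univ : Finset (Fin q → Fin n)) ×ˢ
            (univ.filter fun a : Fin s → Fin n => ¬ Function.Injective a)))) := by
    rintro ⟨a, b, c⟩ h
    simp only [mem_filter, mem_univ, true_and, Inj] at h
    simp only [mem_union, mem_product, mem_filter, mem_univ, true_and, and_true]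
    tauto
  have h2 := (card_le_card h1).trans ((card_union_le _ _).trans
    (Nat.add_le_add_left (card_union_le _ _) _))
  simp only [card_product, card_univ, Fintype.card_fun, Fintype.card_fin] at h2
  have hp := super_ninj p n
  have hq := super_ninj q n
  have hs := super_ninj s n
  set A := (univ.filter fun a : Fin p → Fin n => ¬ Function.Injective a).card with hA
  set B := (univ.filter fun a : Fin q → Fin n => ¬ Function.Injective a).card with hB
  set D := (univ.filter fun a : Fin s → Fin n => ¬ Function.Injective a).card with hD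
  calc (univ.filter fun θ : Th p q s n => ¬ Inj θ).card * n
      ≤ (A * (n ^ q * n ^ s) + (n ^ p * (B * n ^ s) + n ^ p * (n ^ q * D))) * n :=
        Nat.mul_le_mul_right _ h2
    _ = (A * n) * (n ^ q * n ^ s) + (B * n) * (n ^ p * n ^ s) + (D * n) * (n ^ p * n ^ q) := by
        ring
    _ ≤ (p ^ 2 * n ^ p) * (n ^ q * n ^ s) + (q ^ 2 * n ^ q) * (n ^ p * n ^ s) +
          (s ^ 2 * n ^ s) * (n ^ p * n ^ q) :=
        Nat.add_le_add (Nat.add_le_add (Nat.mul_le_mul_right _ hp) (Nat.mul_le_mul_right _ hq))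
          (Nat.mul_le_mul_right _ hs)
    _ = (p ^ 2 + q ^ 2 + s ^ 2) * n ^ (p + q + s) := by
        rw [pow_add, pow_add]; ring

theorem super {p q s n : ℕ} (hn : 1 ≤ n) (F : Finset (Fin p × Fin q × Fin s))
    (C : Finset (Tr n)) (δ : ℝ) (hδ : 0 ≤ δ) (hC : δ * (n : ℝ) ^ 3 ≤ (C.card : ℝ)) :
    (δ ^ (p * q * s) - ((p ^ 2 + q ^ 2 + s ^ 2 : ℕ) : ℝ) / (n : ℝ)) * (n : ℝ) ^ (p + q + s) ≤
      ((copies F C).card : ℝ) := by
  classical
  have hn0 : (0 : ℝ) < n := by exact_mod_cast hn
  set f0 : Fin n → Fin n → Fin n → ℝ := fun x y z => if ((x, y, z) : Tr n) ∈ C then 1 else 0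
    with hf0
  have f0n : ∀ x y z, 0 ≤ f0 x y z := fun x y z => by
    simp only [hf0]
    split_ifs
    · exact zero_le_one
    · exact le_rfl
  have s0 : ∑ yz : Fin n × Fin n, ∑ x, f0 x yz.1 yz.2 = (C.card : ℝ) := by
    have h1 : ∑ t : Tr n, (if t ∈ C then (1 : ℝ) else 0) = (C.card : ℝ) := by simp
    rw [← h1, sum_comm]
    exact (Fintype.sum_prod_type (fun t : Tr n => if t ∈ C then (1 : ℝ) else 0)).symm
  have s1 := super_step (X := Fin n × Fin n) (Y := Fin n) (fun yz x => f0 x yz.1 yz.2)
    (fun _ _ => f0n _ _ _) δ hδ p (by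
      rw [s0, Fintype.card_prod, Fintype.card_fin]
      refine le_trans (le_of_eq ?_) hC
      push_cast
      ring)
  rw [Fintype.card_prod, Fintype.card_fin] at s1
  have s2 := super_step (X := (Fin p → Fin n) × Fin n) (Y := Fin n)
    (fun az y => ∏ i, f0 (az.1 i) y az.2)
    (fun _ _ => prod_nonneg fun _ _ => f0n _ _ _) (δ ^ p) (pow_nonneg hδ _) q (by
      rw [Fintype.card_prod, Fintype.card_fun, Fintype.card_fin, Fintype.card_fin]
      have h1 : ∑ az : (Fin p → Fin n) × Fin n, ∑ y, ∏ i, f0 (az.1 i) y az.2 =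
          ∑ yz : Fin n × Fin n, ∑ a : Fin p → Fin n, ∏ i, f0 (a i) yz.1 yz.2 := by
        rw [Fintype.sum_prod_type, Fintype.sum_prod_type]
        simp only
        calc ∑ a : Fin p → Fin n, ∑ z, ∑ y, ∏ i, f0 (a i) y z
            = ∑ z, ∑ a : Fin p → Fin n, ∑ y, ∏ i, f0 (a i) y z := sum_comm
          _ = ∑ z, ∑ y, ∑ a : Fin p → Fin n, ∏ i, f0 (a i) y z :=
              sum_congr rfl fun z _ => sum_comm
          _ = ∑ y, ∑ z, ∑ a : Fin p → Fin n, ∏ i, f0 (a i) y z := sum_comm
      rw [h1]
      refine le_trans (le_of_eq ?_) s1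
      push_cast
      ring)
  rw [Fintype.card_prod, Fintype.card_fun, Fintype.card_fin, Fintype.card_fin] at s2
  have s3 := super_step (X := (Fin p → Fin n) × (Fin q → Fin n)) (Y := Fin n)
    (fun ab z => ∏ j, ∏ i, f0 (ab.1 i) (ab.2 j) z)
    (fun _ _ => prod_nonneg fun _ _ => prod_nonneg fun _ _ => f0n _ _ _) ((δ ^ p) ^ q)
    (pow_nonneg (pow_nonneg hδ _) _) s (by
      rw [Fintype.card_prod, Fintype.card_fun, Fintype.card_fun, Fintype.card_fin,
        Fintype.card_fin, Fintype.card_fin]
      have h1 : ∑ ab : (Fin p → Fin n) × (Fin q → Fin n), ∑ z, ∏ j, ∏ i, f0 (ab.1 i) (ab.2 j) z =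
          ∑ az : (Fin p → Fin n) × Fin n, ∑ b : Fin q → Fin n, ∏ j, ∏ i, f0 (az.1 i) (b j) az.2 := by
        rw [Fintype.sum_prod_type, Fintype.sum_prod_type]
        simp only
        exact sum_congr rfl fun a _ => sum_comm
      rw [h1]
      refine le_trans (le_of_eq ?_) s2
      push_cast
      ring)
  rw [Fintype.card_prod, Fintype.card_fun, Fintype.card_fun, Fintype.card_fin,
    Fintype.card_fin, Fintype.card_fin] at s3
  -- the full maps
  set H : Finset (Th p q s n) := univ.filter fun θ => ∀ t, mp θ t ∈ C with hH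
  have hsum : ∑ ab : (Fin p → Fin n) × (Fin q → Fin n), ∑ c : Fin s → Fin n,
      ∏ k, ∏ j, ∏ i, f0 (ab.1 i) (ab.2 j) (c k) = (H.card : ℝ) := by
    have h1 : ∀ (a : Fin p → Fin n) (b : Fin q → Fin n) (c : Fin s → Fin n),
        ∏ k, ∏ j, ∏ i, f0 (a i) (b j) (c k) =
          if ∀ t, mp ((a, b, c) : Th p q s n) t ∈ C then (1 : ℝ) else 0 := by
      intro a b c
      simp only [hf0, prod_boole, mem_univ, forall_const]
      congr 1
      apply propext
      constructor
      · rintro h ⟨i, j, k⟩
        exact h k j i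
      · intro h k j i
        exact h (i, j, k)
    have h2 : (H.card : ℝ) =
        ∑ θ : Th p q s n, if ∀ t, mp θ t ∈ C then (1 : ℝ) else 0 := by
      rw [hH, sum_boole]
    rw [h2, Fintype.sum_prod_type, Fintype.sum_prod_type]
    refine sum_congr rfl fun a _ => ?_
    rw [Fintype.sum_prod_type]
    exact sum_congr rfl fun b _ => sum_congr rfl fun c _ => h1 a b c
  have h3 : δ ^ (p * q * s) * (n : ℝ) ^ (p + q + s) ≤ (H.card : ℝ) := by
    rw [← hsum]
    refine le_trans (le_of_eq ?_) s3
    rw [pow_mul, pow_mul, pow_add, pow_add]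
    push_cast
    ring
  -- the maps which are not injective
  have h4 : H.card ≤ (copies F C).card + (univ.filter fun θ : Th p q s n => ¬ Inj θ).card := by
    refine le_trans (card_le_card ?_) (card_union_le _ _)
    intro θ hθ
    rw [hH, mem_filter] at hθ
    rw [mem_union, copies, mem_filter, mem_filter]
    by_cases hi : Inj θ
    · left
      refine ⟨mem_univ _, hi, ?_⟩
      intro t ht
      rw [img, mem_image] at ht
      obtain ⟨u, -, rfl⟩ := ht
      exact hθ.2 u
    · right
      exact ⟨mem_univ _, hi⟩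
  have h5 := super_nInj p q s n
  have h6 : ((univ.filter fun θ : Th p q s n => ¬ Inj θ).card : ℝ) ≤
      ((p ^ 2 + q ^ 2 + s ^ 2 : ℕ) : ℝ) / (n : ℝ) * (n : ℝ) ^ (p + q + s) := by
    rw [div_mul_eq_mul_div, le_div_iff₀ hn0]
    exact_mod_cast h5
  have h7 : (H.card : ℝ) ≤ ((copies F C).card : ℝ) +
      ((univ.filter fun θ : Th p q s n => ¬ Inj θ).card : ℝ) := by exact_mod_cast h4
  rw [sub_mul]
  linarith

end BESL
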