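import Pool.Agent.Lib.MP_c82047_co_LS.Cont
import Pool.Agent.Lib.MP_c82047_co_LS.Iter
import Pool.Agent.Lib.MP_c82047_co_LS.Copies
import Pool.Agent.Lib.MP_c82047_co_LS.Codeg
import Pool.Agent.Lib.MP_c82047_co_LS.Super
import Pool.Agent.Lib.MP_c82047_co_LS.Basic

/-!
# MP_c82047_co, project LS, module CF: containers for the sets without a copy of `F`
-/

set_option autoImplicit false

namespace BESL

open Finset

/-- the constants `qf` are polynomially bounded -/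
private theorem contF_qf (r : ℕ) : ∃ c : ℝ, 1 ≤ c ∧ ∀ Q : ℝ, 1 ≤ Q →
    Q ≤ qf (r + 1) Q ∧ qf (r + 1) Q ≤ c * Q ^ (2 ^ r) := by
  induction r with
  | zero =>
    refine ⟨1, le_rfl, fun Q hQ => ?_⟩
    have h : qf (0 + 1) Q = Q := rfl
    rw [h]
    simp
  | succ r ih =>
    obtain ⟨c, hc, h⟩ := ih
    have h17 : (1 : ℝ) ≤ 17 * 2 ^ (r + 1) := by
      have : (1 : ℝ) ≤ 2 ^ (r + 1) := one_le_pow₀ (by norm_num)
      linarith
    refine ⟨c * (17 * 2 ^ (r + 1)) ^ (2 ^ r), ?_, fun Q hQ => ?_⟩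
    · have : (1 : ℝ) ≤ (17 * 2 ^ (r + 1)) ^ (2 ^ r) := one_le_pow₀ h17
      nlinarith
    · have hQ2 : Q ≤ Q ^ 2 := by nlinarith
      have hQ' : Q ≤ 17 * 2 ^ (r + 1) * Q ^ 2 := by nlinarith
      obtain ⟨h1, h2⟩ := h (17 * 2 ^ (r + 1) * Q ^ 2) (hQ.trans hQ')
      have h3 : qf (r + 1 + 1) Q = qf (r + 1) (17 * 2 ^ (r + 1) * Q ^ 2) := rfl
      rw [h3]
      refine ⟨hQ'.trans h1, h2.trans (le_of_eq ?_)⟩
      have h4 : 2 * 2 ^ r = 2 ^ (r + 1) := by ring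
      rw [mul_pow _ (Q ^ 2), ← pow_mul, h4, mul_assoc]

/-- the degree condition -/
private theorem contF_deg {p q s n : ℕ} (F : Finset (Fin p × Fin q × Fin s)) (hF : Sparse F)
    (C : Finset (Tr n)) {r : ℕ} (hr : F.card = r + 1) (hn : 1 ≤ n) {b : ℕ}
    (hb : (n : ℝ) ^ (2 - 1 / ((r : ℝ) + 1)) ≤ (b : ℝ)) (σ : Finset (Tr n)) (hσ : σ.Nonempty) :
    deg (wt F C) σ ≤ 2 ^ (r + 1) * (F.card.factorial : ℝ) * (n : ℝ) ^ (p + q + s) / (n : ℝ) ^ 3 *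
      ((b : ℝ) / (2 * (n : ℝ) ^ 3)) ^ (σ.card - 1) := by
  have hx : (1 : ℝ) ≤ n := by exact_mod_cast hn
  have hx0 : (0 : ℝ) < n := by linarith
  have hK : (0 : ℝ) ≤ (F.card.factorial : ℝ) := by positivity
  have hc := codeg F hF C σ hσ
  have hj1 : 1 ≤ σ.card := hσ.card_pos
  have h2 : (1 : ℝ) ≤ 2 ^ (r + 1) := one_le_pow₀ (by norm_num)
  by_cases hj : 2 ≤ σ.card
  · by_cases hje : F.card < σ.card
    · rw [deg_eq_zero (unif_wt F C) hje]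
      positivity
    · rw [if_pos hj] at hc
      obtain ⟨j, hjj⟩ : ∃ j, σ.card = j + 1 := ⟨σ.card - 1, by omega⟩
      rw [hjj] at hc ⊢
      rw [Nat.add_sub_cancel]
      have hjr : j ≤ r := by omega
      have hη : (j : ℝ) * (1 / ((r : ℝ) + 1)) ≤ 1 := by
        rw [mul_one_div, div_le_one (by positivity)]
        have : (j : ℝ) ≤ r := by exact_mod_cast hjr
        linarith
      -- lower bound for the power
      have hb1 : (n : ℝ) ^ (-1 - 1 / ((r : ℝ) + 1)) / 2 ≤ (b : ℝ) / (2 * (n : ℝ) ^ 3) := by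
        rw [div_le_div_iff₀ (by norm_num) (by positivity)]
        have h3 : (n : ℝ) ^ (-1 - 1 / ((r : ℝ) + 1)) * (n : ℝ) ^ 3 =
            (n : ℝ) ^ (2 - 1 / ((r : ℝ) + 1)) := by
          rw [← Real.rpow_natCast (n : ℝ) 3, ← Real.rpow_add hx0]
          congr 1
          push_cast
          ring
        calc (n : ℝ) ^ (-1 - 1 / ((r : ℝ) + 1)) * (2 * (n : ℝ) ^ 3)
            = 2 * ((n : ℝ) ^ (-1 - 1 / ((r : ℝ) + 1)) * (n : ℝ) ^ 3) := by ring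
          _ ≤ 2 * (b : ℝ) := by rw [h3]; linarith
          _ = (b : ℝ) * 2 := by ring
      have hb2 : (1 : ℝ) ≤ 2 ^ (r + 1) * (n : ℝ) ^ (j + 1) *
          ((b : ℝ) / (2 * (n : ℝ) ^ 3)) ^ j := by
        have h4 : ((n : ℝ) ^ (-1 - 1 / ((r : ℝ) + 1)) / 2) ^ j ≤
            ((b : ℝ) / (2 * (n : ℝ) ^ 3)) ^ j := pow_le_pow_left₀ (by positivity) hb1 j
        have h5 : (n : ℝ) ^ (j + 1) * (n : ℝ) ^ ((-1 - 1 / ((r : ℝ) + 1)) * (j : ℝ)) =
            (n : ℝ) ^ (1 - (j : ℝ) * (1 / ((r : ℝ) + 1))) := by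
          rw [← Real.rpow_natCast (n : ℝ) (j + 1), ← Real.rpow_add hx0]
          congr 1
          push_cast
          ring
        have h6 : (1 : ℝ) ≤ (n : ℝ) ^ (1 - (j : ℝ) * (1 / ((r : ℝ) + 1))) :=
          Real.one_le_rpow hx (by linarith)
        have h7 : (2 : ℝ) ^ j ≤ 2 ^ (r + 1) := pow_le_pow_right₀ (by norm_num) (by omega)
        have h8 : (1 : ℝ) ≤ 2 ^ (r + 1) * (n : ℝ) ^ (j + 1) *
            ((n : ℝ) ^ (-1 - 1 / ((r : ℝ) + 1)) / 2) ^ j := by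
          rw [div_pow, ← Real.rpow_natCast ((n : ℝ) ^ (-1 - 1 / ((r : ℝ) + 1))) j,
            ← Real.rpow_mul hx0.le]
          have h9 : (2 : ℝ) ^ (r + 1) * (n : ℝ) ^ (j + 1) *
              ((n : ℝ) ^ ((-1 - 1 / ((r : ℝ) + 1)) * (j : ℝ)) / 2 ^ j) =
              (2 ^ (r + 1) / 2 ^ j) * ((n : ℝ) ^ (j + 1) *
                (n : ℝ) ^ ((-1 - 1 / ((r : ℝ) + 1)) * (j : ℝ))) := by
            ring
          rw [h9, h5]
          have h10 : (1 : ℝ) ≤ 2 ^ (r + 1) / 2 ^ j := by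
            rw [one_le_div (by positivity)]
            exact h7
          nlinarith
        refine h8.trans (mul_le_mul_of_nonneg_left h4 (by positivity))
      have hpos : (0 : ℝ) < (n : ℝ) ^ (3 + (j + 1)) := by positivity
      have hc' : deg (wt F C) σ ≤
          (F.card.factorial : ℝ) * (n : ℝ) ^ (p + q + s) / (n : ℝ) ^ (3 + (j + 1)) := by
        rw [le_div_iff₀ hpos]
        exact hc
      refine hc'.trans ?_
      rw [div_le_iff₀ hpos]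
      have h11 : 2 ^ (r + 1) * (F.card.factorial : ℝ) * (n : ℝ) ^ (p + q + s) / (n : ℝ) ^ 3 *
          ((b : ℝ) / (2 * (n : ℝ) ^ 3)) ^ j * (n : ℝ) ^ (3 + (j + 1)) =
          (F.card.factorial : ℝ) * (n : ℝ) ^ (p + q + s) *
            (2 ^ (r + 1) * (n : ℝ) ^ (j + 1) * ((b : ℝ) / (2 * (n : ℝ) ^ 3)) ^ j) := by
        rw [pow_add (n : ℝ) 3 (j + 1)]
        field_simp
      rw [h11]
      have h12 : (0 : ℝ) ≤ (F.card.factorial : ℝ) * (n : ℝ) ^ (p + q + s) := by positivity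
      nlinarith
  · have hj' : σ.card = 1 := by omega
    rw [if_neg hj, add_zero] at hc
    rw [hj', Nat.sub_self, pow_zero, mul_one, le_div_iff₀ (by positivity)]
    refine hc.trans ?_
    have h12 : (0 : ℝ) ≤ (F.card.factorial : ℝ) * (n : ℝ) ^ (p + q + s) := by positivity
    nlinarith

theorem contF {p q s : ℕ} (F : Finset (Fin p × Fin q × Fin s)) (hF : Sparse F)
    (hne : F.Nonempty) :
    ∃ κ : ℝ, 0 < κ ∧ ∃ n₀ : ℕ, ∀ n : ℕ, n₀ ≤ n → ∃ O : List (Finset (Tr n)),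
      (O.length : ℝ) ≤ Real.exp ((n : ℝ) ^ (2 - κ)) ∧
      (∀ C ∈ O, (C.card : ℝ) ≤ (n : ℝ) ^ (3 - κ)) ∧
      ∀ I : Finset (Tr n), ¬ Cop F I → ∃ C ∈ O, I ⊆ C := by
  classical
  obtain ⟨t0, ht0⟩ := hne
  have hp : 1 ≤ p := Nat.one_le_iff_ne_zero.2 (fun h => by subst h; exact t0.1.elim0)
  have hq : 1 ≤ q := Nat.one_le_iff_ne_zero.2 (fun h => by subst h; exact t0.2.1.elim0)
  have hs : 1 ≤ s := Nat.one_le_iff_ne_zero.2 (fun h => by subst h; exact t0.2.2.elim0)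
  have hcard : 0 < F.card := Finset.card_pos.2 ⟨t0, ht0⟩
  obtain ⟨r, hr⟩ : ∃ r, F.card = r + 1 := ⟨F.card - 1, by omega⟩
  obtain ⟨c, hc1, hc⟩ := contF_qf r
  have hPpos : 1 ≤ p * q * s := Nat.mul_pos (Nat.mul_pos hp hq) hs
  -- the constants
  set K : ℝ := (F.card.factorial : ℝ) with hKdef
  have hK : 1 ≤ K := by
    rw [hKdef]
    exact_mod_cast Nat.one_le_iff_ne_zero.2 (Nat.factorial_ne_zero _)
  set η : ℝ := 1 / ((r : ℝ) + 1) with hηdef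
  have hr0 : (0 : ℝ) ≤ r := Nat.cast_nonneg r
  have hη0 : 0 < η := by rw [hηdef]; positivity
  have hη1 : η ≤ 1 := by
    rw [hηdef, div_le_one (by positivity)]
    linarith
  have h2r : (1 : ℝ) ≤ 2 ^ r := one_le_pow₀ (by norm_num)
  set a : ℝ := η / 4 / 2 ^ r with hadef
  have ha0 : 0 < a := by rw [hadef]; positivity
  have ha1 : a ≤ η / 4 := by
    rw [hadef]
    exact div_le_self (by positivity) h2r
  have ha2 : a * 2 ^ r = η / 4 := by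
    rw [hadef]
    field_simp
  set P : ℝ := ((p * q * s : ℕ) : ℝ) with hPdef
  have hP : 1 ≤ P := by rw [hPdef]; exact_mod_cast hPpos
  set κ : ℝ := a / (2 * P) with hκdef
  have hκ0 : 0 < κ := by rw [hκdef]; positivity
  have hκ1 : κ ≤ η / 2 := by
    have : κ ≤ a := by
      rw [hκdef]
      exact div_le_self ha0.le (by linarith)
    linarith
  set c2 : ℝ := c * (2 ^ (r + 1) * K) ^ (2 ^ r) with hc2def
  have hc2 : 1 ≤ c2 := by
    have h1 : (1 : ℝ) ≤ 2 ^ (r + 1) := one_le_pow₀ (by norm_num)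
    have h2 : (1 : ℝ) ≤ (2 ^ (r + 1) * K) ^ (2 ^ r) := one_le_pow₀ (by nlinarith)
    rw [hc2def]
    nlinarith
  set c0 : ℝ := ((p ^ 2 + q ^ 2 + s ^ 2 : ℕ) : ℝ) with hc0def
  have hc0 : 0 ≤ c0 := by rw [hc0def]; positivity
  refine ⟨κ, hκ0, ?_⟩
  -- the asymptotic facts
  have ev1 : ∀ᶠ x : ℝ in Filter.atTop, 40 * ((r : ℝ) + 1) * c2 * Real.log x ≤ x ^ (η / 4) := by
    have h1 := (isLittleO_log_rpow_atTop (show (0 : ℝ) < η / 4 by positivity)).bound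
      (show (0 : ℝ) < 1 / (40 * ((r : ℝ) + 1) * c2) by positivity)
    filter_upwards [h1, Filter.eventually_ge_atTop 1] with x hx hx1
    rw [Real.norm_of_nonneg (Real.log_nonneg hx1), Real.norm_of_nonneg (by positivity)] at hx
    have h3 : 0 < 40 * ((r : ℝ) + 1) * c2 := by positivity
    rw [one_div, inv_mul_eq_div, le_div_iff₀ h3] at hx
    linarith
  have ev2 : ∀ᶠ x : ℝ in Filter.atTop, 2 * c0 + 2 ≤ x ^ (a / 2) :=
    (tendsto_rpow_atTop (show (0 : ℝ) < a / 2 by positivity)).eventually_ge_atTop _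
  have ev := (tendsto_natCast_atTop_atTop (R := ℝ)).eventually
    ((ev1.and ev2).and (Filter.eventually_ge_atTop (16 * c2 + 2)))
  obtain ⟨n₀, hn₀⟩ := Filter.eventually_atTop.1 ev
  refine ⟨n₀, fun n hn => ?_⟩
  obtain ⟨⟨hlog, hna⟩, hn16⟩ := hn₀ n hn
  have hx2 : (2 : ℝ) ≤ n := by linarith
  have hx1 : (1 : ℝ) ≤ n := by linarith
  have hx0 : (0 : ℝ) < n := by linarith
  have hn1 : 1 ≤ n := by exact_mod_cast hx1
  have hN : (Fintype.card (Tr n) : ℝ) = (n : ℝ) ^ 3 := by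
    simp only [Tr, Fintype.card_prod, Fintype.card_fin]
    push_cast
    ring
  have hxa : 1 ≤ (n : ℝ) ^ a := Real.one_le_rpow hx1 ha0.le
  set Q : ℝ := 2 ^ (r + 1) * K * (n : ℝ) ^ a with hQdef
  have h2K : (1 : ℝ) ≤ 2 ^ (r + 1) * K := by
    have h1 : (1 : ℝ) ≤ 2 ^ (r + 1) := one_le_pow₀ (by norm_num)
    nlinarith
  have hQ1 : 1 ≤ Q := by rw [hQdef]; nlinarith
  obtain ⟨hqf1, hqf2⟩ := hc Q hQ1
  have hqf3 : qf (r + 1) Q ≤ c2 * (n : ℝ) ^ (η / 4) := by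
    refine hqf2.trans (le_of_eq ?_)
    rw [hQdef, mul_pow, hc2def, ← Real.rpow_natCast ((n : ℝ) ^ a) (2 ^ r),
      ← Real.rpow_mul hx0.le]
    push_cast
    rw [ha2]
    ring
  set qq : ℝ := qf (r + 1) Q with hqqdef
  have hqq1 : 1 ≤ qq := hQ1.trans hqf1
  set b : ℕ := ⌈(n : ℝ) ^ (2 - η)⌉₊ with hbdef
  have hxb : 1 ≤ (n : ℝ) ^ (2 - η) := Real.one_le_rpow hx1 (by linarith)
  have hb1 : (n : ℝ) ^ (2 - η) ≤ (b : ℝ) := Nat.le_ceil _
  have hb2 : (b : ℝ) ≤ 2 * (n : ℝ) ^ (2 - η) := by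
    have := Nat.ceil_lt_add_one (show 0 ≤ (n : ℝ) ^ (2 - η) by positivity)
    rw [← hbdef] at this
    linarith
  have hb3 : 1 ≤ b := by
    have : (1 : ℝ) ≤ b := hxb.trans hb1
    exact_mod_cast this
  have hE0 : 0 < (n : ℝ) ^ (p + q + s) / (n : ℝ) ^ a := by positivity
  have hbq : (b : ℝ) * qq ≤ 2 * c2 * (n : ℝ) ^ (2 - 3 * η / 4) := by
    have h1 : (n : ℝ) ^ (2 - η) * (n : ℝ) ^ (η / 4) = (n : ℝ) ^ (2 - 3 * η / 4) := by
      rw [← Real.rpow_add hx0]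
      congr 1
      ring
    calc (b : ℝ) * qq ≤ (2 * (n : ℝ) ^ (2 - η)) * (c2 * (n : ℝ) ^ (η / 4)) :=
          mul_le_mul hb2 hqf3 (by linarith) (by positivity)
      _ = 2 * c2 * ((n : ℝ) ^ (2 - η) * (n : ℝ) ^ (η / 4)) := by ring
      _ = 2 * c2 * (n : ℝ) ^ (2 - 3 * η / 4) := by rw [h1]
  have hbq2 : (b : ℝ) * qq ≤ (n : ℝ) ^ 3 / 8 := by
    have h1 : (n : ℝ) ^ (2 - 3 * η / 4) ≤ (n : ℝ) ^ (2 : ℝ) :=
      Real.rpow_le_rpow_of_exponent_le hx1 (by linarith)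
    have h2 : (n : ℝ) ^ (2 : ℝ) = (n : ℝ) ^ 2 := Real.rpow_natCast _ 2
    rw [h2] at h1
    have h3 : 2 * c2 * (n : ℝ) ^ (2 - 3 * η / 4) ≤ 2 * c2 * (n : ℝ) ^ 2 :=
      mul_le_mul_of_nonneg_left h1 (by positivity)
    have h4 : 16 * c2 * (n : ℝ) ^ 2 ≤ (n : ℝ) * (n : ℝ) ^ 2 :=
      mul_le_mul_of_nonneg_right (by linarith) (by positivity)
    have h5 : (n : ℝ) ^ 3 = (n : ℝ) * (n : ℝ) ^ 2 := by ring
    rw [h5]
    linarith
  -- heavy sets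
  have hheavy : ∀ C : Finset (Tr n),
      (n : ℝ) ^ (p + q + s) / (n : ℝ) ^ a ≤ ((copies F C).card : ℝ) →
      ∃ O : List (Finset (Tr n)), O.length ≤ (Fintype.card (Tr n) + 1) ^ (b * (r + 1)) ∧
        (∀ X ∈ O, X ⊆ C ∧ ⌈(n : ℝ) ^ 3 / (4 * qq)⌉₊ ≤ X.card) ∧
        ∀ I, I ⊆ C → ¬ Cop F I → ∃ X ∈ O, Disjoint X I := by
    intro C hC
    have hdeg : ∀ σ : Finset (Tr n), σ.Nonempty → deg (wt F C) σ ≤
        (n : ℝ) ^ (p + q + s) / (n : ℝ) ^ a / (Fintype.card (Tr n) : ℝ) * Q *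
          ((b : ℝ) / (2 * (Fintype.card (Tr n) : ℝ))) ^ (σ.card - 1) := by
      intro σ hσ
      rw [hN]
      refine (contF_deg F hF C hr hn1 hb1 σ hσ).trans (le_of_eq ?_)
      congr 1
      rw [hQdef, hKdef]
      have : (n : ℝ) ^ a ≠ 0 := by positivity
      field_simp
    obtain ⟨O, hO1, hO2, hO3⟩ := cont (V := Tr n) (r + 1) (by omega) (wt F C)
      ((n : ℝ) ^ (p + q + s) / (n : ℝ) ^ a) Q b (hr ▸ unif_wt F C) hE0 (by rw [tot_wt]; exact hC)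
      hQ1 hb3 (by rw [hN]; exact hbq2) hdeg
    refine ⟨O, hO1, fun X hX => ⟨(hO2 X hX).1.trans (supp_wt F C), ?_⟩,
      fun I _ hI => hO3 I (ind_wt F C hI)⟩
    rw [Nat.ceil_le, div_le_iff₀ (by positivity)]
    have h1 := (hO2 X hX).2
    rw [hN] at h1
    linarith
  have hBpos : 1 ≤ (Fintype.card (Tr n) + 1) ^ (b * (r + 1)) := Nat.one_le_pow _ _ (by omega)
  have hk : Fintype.card (Tr n) < ⌈(n : ℝ) ^ 3 / (4 * qq)⌉₊ * (⌊4 * qq⌋₊ + 1) := by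
    have h1 : (n : ℝ) ^ 3 / (4 * qq) ≤ (⌈(n : ℝ) ^ 3 / (4 * qq)⌉₊ : ℝ) := Nat.le_ceil _
    have h2 : 4 * qq < (⌊4 * qq⌋₊ : ℝ) + 1 := Nat.lt_floor_add_one _
    have h3 : ((n : ℝ) ^ 3 / (4 * qq)) * (4 * qq) = (n : ℝ) ^ 3 := by
      field_simp
    have h4 : 0 < (n : ℝ) ^ 3 / (4 * qq) := by positivity
    have h5 : (Fintype.card (Tr n) : ℝ) <
        (⌈(n : ℝ) ^ 3 / (4 * qq)⌉₊ : ℝ) * ((⌊4 * qq⌋₊ : ℝ) + 1) := by
      rw [hN]
      calc (n : ℝ) ^ 3 = ((n : ℝ) ^ 3 / (4 * qq)) * (4 * qq) := h3.symm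
        _ < ((n : ℝ) ^ 3 / (4 * qq)) * ((⌊4 * qq⌋₊ : ℝ) + 1) := mul_lt_mul_of_pos_left h2 h4
        _ ≤ _ := mul_le_mul_of_nonneg_right h1 (by positivity)
    exact_mod_cast h5
  obtain ⟨O, hO1, hO2, hO3⟩ := iter (V := Tr n)
    (fun C => (n : ℝ) ^ (p + q + s) / (n : ℝ) ^ a ≤ ((copies F C).card : ℝ))
    (fun I => ¬ Cop F I) ((Fintype.card (Tr n) + 1) ^ (b * (r + 1))) (⌊4 * qq⌋₊ + 1)
    ⌈(n : ℝ) ^ 3 / (4 * qq)⌉₊ hBpos hheavy hk
  refine ⟨O, ?_, ?_, hO3⟩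
  · -- the number of containers
    have h1 : (O.length : ℝ) ≤ (((Fintype.card (Tr n) : ℝ) + 1) ^ (b * (r + 1))) ^
        (⌊4 * qq⌋₊ + 1) := by exact_mod_cast hO1
    refine h1.trans ?_
    rw [hN, ← pow_mul]
    have h2 : (n : ℝ) ^ 3 + 1 ≤ (n : ℝ) ^ 4 := by
      have : 1 ≤ (n : ℝ) ^ 3 := one_le_pow₀ hx1
      have h3 : (n : ℝ) ^ 4 = (n : ℝ) * (n : ℝ) ^ 3 := by ring
      rw [h3]
      nlinarith
    have h3 : (n : ℝ) ^ 3 + 1 ≤ Real.exp (4 * Real.log n) := by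
      refine h2.trans (le_of_eq ?_)
      rw [mul_comm, Real.exp_mul, Real.exp_log hx0]
      exact (Real.rpow_natCast _ 4).symm
    have h4 : ((n : ℝ) ^ 3 + 1) ^ (b * (r + 1) * (⌊4 * qq⌋₊ + 1)) ≤
        Real.exp (((b * (r + 1) * (⌊4 * qq⌋₊ + 1) : ℕ) : ℝ) * (4 * Real.log n)) := by
      rw [Real.exp_nat_mul]
      exact pow_le_pow_left₀ (by positivity) h3 _
    refine h4.trans (Real.exp_le_exp.2 ?_)
    push_cast
    have h5 : (⌊4 * qq⌋₊ : ℝ) + 1 ≤ 5 * qq := by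
      have := Nat.floor_le (show 0 ≤ 4 * qq by linarith)
      linarith
    have hlog0 : 0 ≤ Real.log n := Real.log_nonneg hx1
    have h6 : (b : ℝ) * ((⌊4 * qq⌋₊ : ℝ) + 1) ≤ 10 * c2 * (n : ℝ) ^ (2 - 3 * η / 4) := by
      calc (b : ℝ) * ((⌊4 * qq⌋₊ : ℝ) + 1) ≤ b * (5 * qq) :=
            mul_le_mul_of_nonneg_left h5 (by positivity)
        _ = 5 * (b * qq) := by ring
        _ ≤ 5 * (2 * c2 * (n : ℝ) ^ (2 - 3 * η / 4)) := by linarith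
        _ = _ := by ring
    have h7 : (n : ℝ) ^ (2 - 3 * η / 4) * (n : ℝ) ^ (η / 4) = (n : ℝ) ^ (2 - η / 2) := by
      rw [← Real.rpow_add hx0]
      congr 1
      ring
    calc (b : ℝ) * ((r : ℝ) + 1) * ((⌊4 * qq⌋₊ : ℝ) + 1) * (4 * Real.log n)
        = (b * ((⌊4 * qq⌋₊ : ℝ) + 1)) * (((r : ℝ) + 1) * (4 * Real.log n)) := by ring
      _ ≤ (10 * c2 * (n : ℝ) ^ (2 - 3 * η / 4)) * (((r : ℝ) + 1) * (4 * Real.log n)) :=
          mul_le_mul_of_nonneg_right h6 (by positivity)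
      _ = (n : ℝ) ^ (2 - 3 * η / 4) * (40 * ((r : ℝ) + 1) * c2 * Real.log n) := by ring
      _ ≤ (n : ℝ) ^ (2 - 3 * η / 4) * (n : ℝ) ^ (η / 4) :=
          mul_le_mul_of_nonneg_left hlog (by positivity)
      _ = (n : ℝ) ^ (2 - η / 2) := h7
      _ ≤ (n : ℝ) ^ (2 - κ) := Real.rpow_le_rpow_of_exponent_le hx1 (by linarith)
  · -- the size of the containers
    intro C hC
    have hnh := hO2 C hC
    rw [not_le] at hnh
    by_contra hcon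
    push Not at hcon
    have hd1 : (n : ℝ) ^ (-κ) * (n : ℝ) ^ 3 ≤ (C.card : ℝ) := by
      have h1 : (n : ℝ) ^ (-κ) * (n : ℝ) ^ 3 = (n : ℝ) ^ (3 - κ) := by
        rw [← Real.rpow_natCast (n : ℝ) 3, ← Real.rpow_add hx0]
        congr 1
        push_cast
        ring
      rw [h1]
      exact hcon.le
    have hsup := super hn1 F C ((n : ℝ) ^ (-κ)) (by positivity) hd1
    have h2 : ((n : ℝ) ^ (-κ)) ^ (p * q * s) = (n : ℝ) ^ (-(a / 2)) := by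
      rw [← Real.rpow_natCast ((n : ℝ) ^ (-κ)) (p * q * s), ← Real.rpow_mul hx0.le]
      congr 1
      rw [← hPdef, hκdef]
      field_simp
    rw [h2] at hsup
    have h3 : ((n : ℝ) ^ (-(a / 2)) - c0 / n) * (n : ℝ) ^ (p + q + s) <
        (n : ℝ) ^ (p + q + s) / (n : ℝ) ^ a := lt_of_le_of_lt hsup hnh
    have h4 : (n : ℝ) ^ (-(a / 2)) - c0 / n < 1 / (n : ℝ) ^ a := by
      have h5 : (0 : ℝ) < (n : ℝ) ^ (p + q + s) := by positivity
      have h6 : (n : ℝ) ^ (p + q + s) / (n : ℝ) ^ a =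
          (1 / (n : ℝ) ^ a) * (n : ℝ) ^ (p + q + s) := by ring
      rw [h6] at h3
      exact lt_of_mul_lt_mul_right h3 h5.le
    -- contradiction
    have hy0 : 0 < (n : ℝ) ^ (a / 2) := by positivity
    have h7 : (n : ℝ) ^ (-(a / 2)) = 1 / (n : ℝ) ^ (a / 2) := by
      rw [Real.rpow_neg hx0.le, one_div]
    have h8 : (n : ℝ) ^ a = (n : ℝ) ^ (a / 2) * (n : ℝ) ^ (a / 2) := by
      rw [← Real.rpow_add hx0]
      congr 1
      ring
    have h9 : (n : ℝ) ^ (a / 2) * (n : ℝ) ^ (a / 2) ≤ n := by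
      rw [← h8]
      calc (n : ℝ) ^ a ≤ (n : ℝ) ^ (1 : ℝ) :=
            Real.rpow_le_rpow_of_exponent_le hx1 (by linarith)
        _ = n := Real.rpow_one _
    rw [h7, h8] at h4
    set y : ℝ := (n : ℝ) ^ (a / 2) with hydef
    have h10 : c0 / n ≤ c0 / (y * y) := div_le_div_of_nonneg_left hc0 (by positivity) h9
    have h11 : 1 / y - c0 / (y * y) < 1 / (y * y) := by linarith
    have h12 : 1 / y - c0 / (y * y) = (y - c0) / (y * y) := by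
      field_simp
    rw [h12, div_lt_div_iff_of_pos_right (by positivity)] at h11
    linarith

end BESL
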