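import Mathlib

/-!
# MP_c82047_co, project LS (Brown-Erdos-Sos in almost all Latin squares): definitions

Part 1: Latin squares, triples, configurations.  Part 2: weighted hypergraphs on a finite set `V`
(a weight is a function on the finite subsets of `V`).  Part 3: permanents.
-/

set_option autoImplicit false

namespace BESL

open Finset

/-! ## Part 1: Latin squares and configurations -/

/-- the triples (row, column, symbol) -/
abbrev Tr (n : ℕ) : Type := Fin n × Fin n × Fin n

/-- Latin squares of order `n` -/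
def IsLatin {n : ℕ} (L : Fin n → Fin n → Fin n) : Prop :=
  (∀ i, Function.Injective (L i)) ∧ ∀ j, Function.Injective fun i => L i j

open Classical in
/-- the set of all Latin squares of order `n` -/
noncomputable def LS (n : ℕ) : Finset (Fin n → Fin n → Fin n) := univ.filter IsLatin

/-- the `n ^ 2` triples of a square -/
def cells {n : ℕ} (L : Fin n → Fin n → Fin n) : Finset (Tr n) :=
  univ.filter fun t => L t.1 t.2.1 = t.2.2

/-- the number of points (rows, columns, symbols) of a set of triples -/
def pts {α β γ : Type} [DecidableEq α] [DecidableEq β] [DecidableEq γ]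
    (G : Finset (α × β × γ)) : ℕ :=
  (G.image fun t => t.1).card + (G.image fun t => t.2.1).card + (G.image fun t => t.2.2).card

/-- any `j ≥ 2` triples of `F` have at least `j + 3` points -/
def Sparse {α β γ : Type} [DecidableEq α] [DecidableEq β] [DecidableEq γ]
    (F : Finset (α × β × γ)) : Prop :=
  ∀ G, G ⊆ F → 2 ≤ G.card → G.card + 3 ≤ pts G

/-- maps of the rows, columns and symbols of a configuration -/
abbrev Th (p q s n : ℕ) : Type := (Fin p → Fin n) × (Fin q → Fin n) × (Fin s → Fin n)

/-- the image of a triple -/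
def mp {p q s n : ℕ} (θ : Th p q s n) (t : Fin p × Fin q × Fin s) : Tr n :=
  (θ.1 t.1, θ.2.1 t.2.1, θ.2.2 t.2.2)

/-- all three maps are injective -/
def Inj {p q s n : ℕ} (θ : Th p q s n) : Prop :=
  Function.Injective θ.1 ∧ Function.Injective θ.2.1 ∧ Function.Injective θ.2.2

/-- the image of the configuration `F` -/
def img {p q s n : ℕ} (F : Finset (Fin p × Fin q × Fin s)) (θ : Th p q s n) : Finset (Tr n) :=
  F.image (mp θ)

/-- `A` contains a copy of `F` -/
def Cop {p q s n : ℕ} (F : Finset (Fin p × Fin q × Fin s)) (A : Finset (Tr n)) : Prop :=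
  ∃ θ : Th p q s n, Inj θ ∧ img F θ ⊆ A

open Classical in
/-- the copies of `F` in `C` -/
noncomputable def copies {p q s n : ℕ} (F : Finset (Fin p × Fin q × Fin s))
    (C : Finset (Tr n)) : Finset (Th p q s n) :=
  univ.filter fun θ => Inj θ ∧ img F θ ⊆ C

open Classical in
/-- the weight: the number of copies of `F` in `C` with image `E` -/
noncomputable def wt {p q s n : ℕ} (F : Finset (Fin p × Fin q × Fin s)) (C : Finset (Tr n))
    (E : Finset (Tr n)) : ℝ := (((copies F C).filter fun θ => img F θ = E).card : ℝ)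

/-! ## Part 2: weighted hypergraphs -/

section W

variable {V : Type} [Fintype V] [DecidableEq V]

/-- total weight -/
def tot (w : Finset V → ℝ) : ℝ := ∑ E, w E

/-- degree of a set -/
def deg (w : Finset V → ℝ) (σ : Finset V) : ℝ := ∑ E, if σ ⊆ E then w E else 0

/-- `w` is nonnegative and `r`-uniform -/
structure Unif (r : ℕ) (w : Finset V → ℝ) : Prop where
  nonneg : ∀ E, 0 ≤ w E
  card : ∀ E, w E ≠ 0 → E.card = r

/-- independent sets -/
def Ind (w : Finset V → ℝ) (I : Finset V) : Prop := ∀ E, E ⊆ I → w E = 0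

open Classical in
/-- the vertices of positive degree -/
noncomputable def supp (w : Finset V → ℝ) : Finset V := univ.filter fun u => 0 < deg w {u}

/-- the link of `u`: the sets `E` with `u ∉ E`, with the weight of `E ∪ {u}` -/
def lnk (w : Finset V → ℝ) (u : V) : Finset V → ℝ := fun E => if u ∈ E then 0 else w (insert u E)

open Classical in
/-- delete the edges with the property `P` -/
noncomputable def dl (w : Finset V → ℝ) (P : Finset V → Prop) : Finset V → ℝ :=
  fun E => if P E then 0 else w E

/-- the constants of the container theorem -/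
noncomputable def qf : ℕ → ℝ → ℝ
  | 0, Q => Q
  | 1, Q => Q
  | (r + 2), Q => qf (r + 1) (17 * 2 ^ (r + 1) * Q ^ 2)

end W

/-! ## Part 3: permanents -/

open Classical in
/-- the injective selections from `A j`, `j : ι` -/
noncomputable def sdr {ι κ : Type} [Fintype ι] [Fintype κ] [DecidableEq ι] [DecidableEq κ]
    (A : ι → Finset κ) : Finset (ι → κ) :=
  univ.filter fun σ => Function.Injective σ ∧ ∀ j, σ j ∈ A j

/-- `(r!)^(1/r)` -/
noncomputable def bf (r : ℕ) : ℝ := (r.factorial : ℝ) ^ (1 / (r : ℝ))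

section P

variable {n : ℕ}

/-- the linear forms -/
def lf (a : Fin n → Fin n → ℝ) (i : Fin n) (x : Fin n → ℂ) : ℂ := ∑ j, (a i j : ℂ) * x j

/-- `∑_T c_T ∏_{i ∉ T} ℓ_i(x)` -/
def FF (a : Fin n → Fin n → ℝ) (c : Finset (Fin n) → ℝ) (x : Fin n → ℂ) : ℂ :=
  ∑ T, (c T : ℂ) * ∏ i ∈ Tᶜ, lf a i x

/-- the real version of `FF` -/
def FR (a : Fin n → Fin n → ℝ) (c : Finset (Fin n) → ℝ) (x : Fin n → ℝ) : ℝ :=
  ∑ T, c T * ∏ i ∈ Tᶜ, ∑ j, a i j * x j

/-- the coefficients of the derivative with respect to `x_j` -/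
def dc (a : Fin n → Fin n → ℝ) (j : Fin n) (c : Finset (Fin n) → ℝ) (T : Finset (Fin n)) : ℝ :=
  ∑ i ∈ T, a i j * c (T.erase i)

/-- coefficients which live on the sets of size `m`, are nonnegative and do not all vanish -/
structure Co (m : ℕ) (c : Finset (Fin n) → ℝ) : Prop where
  nonneg : ∀ T, 0 ≤ c T
  card : ∀ T, c T ≠ 0 → T.card = m
  ne : ∃ T, c T ≠ 0

/-- `FF a c` has no zero in the upper half plane -/
def Stab (a : Fin n → Fin n → ℝ) (c : Finset (Fin n) → ℝ) : Prop :=
  ∀ x : Fin n → ℂ, (∀ j, 0 < (x j).im) → FF a c x ≠ 0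

/-- the polynomial in `x_j` -/
noncomputable def PP (a : Fin n → Fin n → ℝ) (c : Finset (Fin n) → ℝ) (j : Fin n)
    (x : Fin n → ℂ) : Polynomial ℂ :=
  ∑ T, Polynomial.C (c T : ℂ) * ∏ i ∈ Tᶜ,
    (Polynomial.C (lf a i (Function.update x j 0)) + Polynomial.C (a i j : ℂ) * Polynomial.X)

/-- the coefficients after `m` derivatives (columns `0, …, m - 1`) -/
def cc (a : Fin n → Fin n → ℝ) : ℕ → Finset (Fin n) → ℝ
  | 0, T => if T = ∅ then 1 else 0
  | m + 1, T => if h : m < n then dc a ⟨m, h⟩ (cc a m) T else 0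

end P

end BESL
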