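import Pool.Agent.Lib.MP_c82047_co_LS.Defs

/-!
# MP_c82047_co, project LS, module PC: the paths
-/

set_option autoImplicit false

namespace BESL

open Finset

namespace PathAux

/-- the counting of the rows, columns and symbols of a set of edges of the path -/
theorem count (J : Finset ℕ) (hJ : 2 ≤ J.card) :
    J.card + 3 ≤ (J.image fun i => (i + 1) / 2).card + (J.image fun i => i / 2).card +
      (J.image fun i => i % 2).card := by
  have hV : (J ∪ J.image (fun i => i + 1)).card ≤
      (J.image fun i => (i + 1) / 2).card + (J.image fun i => i / 2).card := by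
    have hsub : J ∪ J.image (fun i => i + 1) ⊆
        ((J.image fun i => (i + 1) / 2).image fun a => 2 * a) ∪
          ((J.image fun i => i / 2).image fun a => 2 * a + 1) := by
      intro v hv
      rw [mem_union] at hv
      rw [mem_union, mem_image, mem_image]
      rcases hv with hv | hv
      · rcases Nat.even_or_odd' v with ⟨c, hc | hc⟩
        · left
          exact ⟨(v + 1) / 2, mem_image_of_mem _ hv, by omega⟩
        · right
          exact ⟨v / 2, mem_image_of_mem (fun i => i / 2) hv, by omega⟩
      · obtain ⟨i, hi, rfl⟩ := mem_image.1 hv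
        rcases Nat.even_or_odd' i with ⟨c, hc | hc⟩
        · right
          exact ⟨i / 2, mem_image_of_mem (fun i => i / 2) hi, by omega⟩
        · left
          exact ⟨(i + 1) / 2, mem_image_of_mem _ hi, by omega⟩
    refine (card_le_card hsub).trans ((card_union_le _ _).trans ?_)
    exact add_le_add card_image_le card_image_le
  have hsucc : (J.image (fun i => i + 1)).card = J.card :=
    card_image_of_injective _ (add_left_injective 1)
  have hne : J.Nonempty := card_pos.1 (by omega)
  by_cases h : ∃ i ∈ J, i + 1 ∈ J
  · obtain ⟨i, hi, hi'⟩ := h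
    have h2 : 2 ≤ (J.image fun i => i % 2).card := by
      have : 1 < (J.image fun i => i % 2).card := by
        rw [one_lt_card]
        exact ⟨i % 2, mem_image_of_mem (fun i => i % 2) hi, (i + 1) % 2,
          mem_image_of_mem (fun i => i % 2) hi', by omega⟩
      exact this
    have h1 : J.card + 1 ≤ (J ∪ J.image (fun i => i + 1)).card := by
      have hnot : J.min' hne ∉ J.image (fun i => i + 1) := by
        intro hm
        obtain ⟨j, hj, hj'⟩ := mem_image.1 hm
        have := J.min'_le j hj
        omega
      have hsub : insert (J.min' hne) (J.image (fun i => i + 1)) ⊆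
          J ∪ J.image (fun i => i + 1) := by
        intro v hv
        rw [mem_insert] at hv
        rw [mem_union]
        rcases hv with rfl | hv
        · exact Or.inl (J.min'_mem hne)
        · exact Or.inr hv
      have := card_le_card hsub
      rw [card_insert_of_notMem hnot, hsucc] at this
      exact this
    omega
  · have hdisj : Disjoint J (J.image (fun i => i + 1)) := by
      rw [disjoint_left]
      intro v hv hv'
      obtain ⟨i, hi, rfl⟩ := mem_image.1 hv'
      exact h ⟨i, hi, hv⟩
    rw [card_union_of_disjoint hdisj, hsucc] at hV
    have h1 : 1 ≤ (J.image fun i => i % 2).card := card_pos.2 (hne.image _)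
    omega

end PathAux

/-- for every `k ≥ 4` there is a sparse configuration with `k - 3` triples and `k` points -/
theorem path (k : ℕ) (hk : 4 ≤ k) :
    ∃ (p q s : ℕ) (F : Finset (Fin p × Fin q × Fin s)), Sparse F ∧ F.card = k - 3 ∧
      pts F ≤ k := by
  obtain ⟨e, rfl⟩ : ∃ e, k = e + 3 := ⟨k - 3, by omega⟩
  have he : e + 3 - 3 = e := by omega
  rw [he]
  let T : Fin e → Fin (e / 2 + 1) × Fin ((e + 1) / 2) × Fin 2 := fun i =>
    (⟨(i.1 + 1) / 2, by have := i.2; omega⟩, ⟨i.1 / 2, by have := i.2; omega⟩,
      ⟨i.1 % 2, by omega⟩)
  have hT : Function.Injective T := by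
    intro i j hij
    have h1 : (i.1 + 1) / 2 = (j.1 + 1) / 2 := congrArg (fun t => (t.1 : ℕ)) hij
    have h2 : i.1 / 2 = j.1 / 2 := congrArg (fun t => (t.2.1 : ℕ)) hij
    have h3 : i.1 % 2 = j.1 % 2 := congrArg (fun t => (t.2.2 : ℕ)) hij
    exact Fin.ext (by omega)
  refine ⟨e / 2 + 1, (e + 1) / 2, 2, univ.image T, ?_, ?_, ?_⟩
  · intro G hG h2
    let J : Finset (Fin e) := univ.filter fun i => T i ∈ G
    have hGJ : G = J.image T := by
      ext t
      constructor
      · intro ht
        obtain ⟨i, _, rfl⟩ := mem_image.1 (hG ht)
        exact mem_image_of_mem _ (by simp [J, ht])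
      · intro ht
        obtain ⟨i, hi, rfl⟩ := mem_image.1 ht
        exact (mem_filter.1 hi).2
    have hcard : G.card = (J.image Fin.val).card := by
      rw [hGJ, card_image_of_injective _ hT, card_image_of_injective _ Fin.val_injective]
    have hc := PathAux.count (J.image Fin.val) (by rw [← hcard]; exact h2)
    rw [← hcard] at hc
    refine hc.trans (le_of_eq ?_)
    unfold pts
    have e1 : ((J.image Fin.val).image fun i => (i + 1) / 2) =
        (G.image fun t => t.1).image Fin.val := by
      rw [hGJ, image_image, image_image, image_image]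
      rfl
    have e2 : ((J.image Fin.val).image fun i => i / 2) =
        (G.image fun t => t.2.1).image Fin.val := by
      rw [hGJ, image_image, image_image, image_image]
      rfl
    have e3 : ((J.image Fin.val).image fun i => i % 2) =
        (G.image fun t => t.2.2).image Fin.val := by
      rw [hGJ, image_image, image_image, image_image]
      rfl
    rw [e1, e2, e3, card_image_of_injective _ Fin.val_injective,
      card_image_of_injective _ Fin.val_injective, card_image_of_injective _ Fin.val_injective]
  · rw [card_image_of_injective _ hT, card_univ, Fintype.card_fin]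
  · unfold pts
    have h1 := card_le_univ ((univ.image T).image fun t => t.1)
    have h2 := card_le_univ ((univ.image T).image fun t => t.2.1)
    have h3 := card_le_univ ((univ.image T).image fun t => t.2.2)
    rw [Fintype.card_fin] at h1 h2 h3
    omega

/-- a copy has as many triples as the configuration, and at most as many points -/
theorem copy_card {p q s n : ℕ} (F : Finset (Fin p × Fin q × Fin s)) (θ : Th p q s n)
    (hθ : Inj θ) : (img F θ).card = F.card ∧ pts (img F θ) ≤ pts F := by
  have hinj : Function.Injective (mp θ) := by
    intro a b hab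
    have h1 : θ.1 a.1 = θ.1 b.1 := congrArg (fun t => t.1) hab
    have h2 : θ.2.1 a.2.1 = θ.2.1 b.2.1 := congrArg (fun t => t.2.1) hab
    have h3 : θ.2.2 a.2.2 = θ.2.2 b.2.2 := congrArg (fun t => t.2.2) hab
    exact Prod.ext (hθ.1 h1) (Prod.ext (hθ.2.1 h2) (hθ.2.2 h3))
  refine ⟨card_image_of_injective _ hinj, ?_⟩
  unfold pts img
  have e1 : ((F.image (mp θ)).image fun t => t.1) = (F.image fun t => t.1).image θ.1 := by
    rw [image_image, image_image]
    rfl
  have e2 : ((F.image (mp θ)).image fun t => t.2.1) = (F.image fun t => t.2.1).image θ.2.1 := by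
    rw [image_image, image_image]
    rfl
  have e3 : ((F.image (mp θ)).image fun t => t.2.2) = (F.image fun t => t.2.2).image θ.2.2 := by
    rw [image_image, image_image]
    rfl
  rw [e1, e2, e3]
  exact add_le_add (add_le_add card_image_le card_image_le) card_image_le

end BESL
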