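import Pool.Agent.Lib.MP_c82047_co_LS.Union
import Pool.Agent.Lib.MP_c82047_co_LS.ContF
import Pool.Agent.Lib.MP_c82047_co_LS.Path

/-!
# MP_c82047_co, project LS, module FIN: final assembly
-/

set_option autoImplicit false

namespace BESL

open Finset Filter

/-- `n (1 + log n)² ≤ n ^ (3/2)` for large `n` -/
theorem ev_log : ∀ᶠ n : ℕ in atTop, (n : ℝ) * (1 + Real.log n) ^ 2 ≤ (n : ℝ) ^ (3 / 2 : ℝ) := by
  have h1 := (isLittleO_log_rpow_atTop (r := 1 / 8) (by norm_num)).bound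
    (c := 1) (by norm_num)
  have h2 := (tendsto_rpow_atTop (y := 1 / 8) (by norm_num)).eventually_ge_atTop 1
  have h3 : ∀ᶠ x : ℝ in atTop, x * (1 + Real.log x) ^ 2 ≤ x ^ (3 / 2 : ℝ) := by
    have h4 := (tendsto_rpow_atTop (y := 1 / 4) (by norm_num)).eventually_ge_atTop 4
    filter_upwards [h1, h2, h4, eventually_ge_atTop 1] with x h1 h2 h4 hx
    have hx0 : 0 < x := by linarith
    have hl : 0 ≤ Real.log x := Real.log_nonneg hx
    rw [Real.norm_of_nonneg hl, Real.norm_of_nonneg (Real.rpow_nonneg hx0.le _), one_mul] at h1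
    have h5 : 1 + Real.log x ≤ 2 * x ^ (1 / 8 : ℝ) := by linarith
    have h6 : (1 + Real.log x) ^ 2 ≤ (2 * x ^ (1 / 8 : ℝ)) ^ 2 :=
      pow_le_pow_left₀ (by linarith) h5 2
    have h7 : (x ^ (1 / 8 : ℝ)) ^ 2 = x ^ (1 / 4 : ℝ) := by
      rw [← Real.rpow_natCast, ← Real.rpow_mul hx0.le]
      norm_num
    have h8 : x ^ (3 / 2 : ℝ) = x * (x ^ (1 / 4 : ℝ) * x ^ (1 / 4 : ℝ)) := by
      rw [← Real.rpow_add hx0]
      nth_rewrite 2 [← Real.rpow_one x]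
      rw [← Real.rpow_add hx0]
      norm_num
    rw [h8]
    refine mul_le_mul_of_nonneg_left ?_ hx0.le
    rw [mul_pow, h7] at h6
    have h9 : 0 ≤ x ^ (1 / 4 : ℝ) := Real.rpow_nonneg hx0.le _
    nlinarith
  exact tendsto_natCast_atTop_atTop.eventually h3

/-- the numerical part -/
theorem num_bound {n m : ℕ} {κ c : ℝ} (hnR : (1 : ℝ) ≤ n) (hc0 : 0 < c) (hc1 : c ≤ κ / 3)
    (hc2 : c ≤ 1 / 2) (hm : (n : ℝ) ^ (2 - c) ≤ (m : ℝ))
    (hlog : (n : ℝ) * (1 + Real.log n) ^ 2 ≤ (n : ℝ) ^ (3 / 2 : ℝ))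
    (hexp : Real.exp 5 ≤ (n : ℝ) ^ (κ / 3)) (l : ℝ)
    (hO1 : l ≤ Real.exp ((n : ℝ) ^ (2 - κ))) (M : ℕ) (hMle : (M : ℝ) ≤ (n : ℝ) ^ (3 - κ)) :
    l * (M.choose m : ℝ) * ((Real.exp 2 / (n : ℝ)) ^ m *
      Real.exp ((n : ℝ) * (1 + Real.log n) ^ 2)) ≤ (n : ℝ) ^ (-(c * m)) := by
  have hnR0 : (0 : ℝ) < n := by linarith
  have hm0 : (0 : ℝ) < m := lt_of_lt_of_le (Real.rpow_pos_of_pos hnR0 _) hm
  have e1 : l ≤ Real.exp m := by
    refine hO1.trans (Real.exp_le_exp.2 (le_trans ?_ hm))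
    exact Real.rpow_le_rpow_of_exponent_le hnR (by linarith)
  have e2 : Real.exp ((n : ℝ) * (1 + Real.log n) ^ 2) ≤ Real.exp m := by
    refine Real.exp_le_exp.2 (le_trans hlog (le_trans ?_ hm))
    exact Real.rpow_le_rpow_of_exponent_le hnR (by linarith)
  have e3 : (M.choose m : ℝ) ≤ ((n : ℝ) ^ (3 - κ)) ^ m * (Real.exp m / (m : ℝ) ^ m) := by
    have h4 : (M.choose m : ℝ) ≤ (M : ℝ) ^ m / (m.factorial : ℝ) := Nat.choose_le_pow_div m M
    have h5 : (m : ℝ) ^ m / (m.factorial : ℝ) ≤ Real.exp m :=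
      Real.pow_div_factorial_le_exp (m : ℝ) hm0.le m
    have hf : (0 : ℝ) < (m.factorial : ℝ) := by exact_mod_cast Nat.factorial_pos m
    have hmm : (0 : ℝ) < (m : ℝ) ^ m := pow_pos hm0 m
    have h6 : 1 / (m.factorial : ℝ) ≤ Real.exp m / (m : ℝ) ^ m := by
      rw [div_le_div_iff₀ hf hmm]
      rw [div_le_iff₀ hf] at h5
      linarith
    refine h4.trans ?_
    rw [div_eq_mul_one_div]
    exact mul_le_mul (pow_le_pow_left₀ (Nat.cast_nonneg _) hMle m) h6 (by positivity)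
      (by positivity)
  have e4 : (Real.exp m) * (((n : ℝ) ^ (3 - κ)) ^ m * (Real.exp m / (m : ℝ) ^ m)) *
      ((Real.exp 2 / (n : ℝ)) ^ m * Real.exp m) =
      (Real.exp 5 * ((n : ℝ) ^ (3 - κ) / n / m)) ^ m := by
    have h7 : Real.exp m = Real.exp 1 ^ m := by
      rw [← Real.exp_nat_mul, mul_one]
    have h8 : Real.exp 5 = Real.exp 1 * Real.exp 1 * Real.exp 1 * Real.exp 2 := by
      rw [← Real.exp_add, ← Real.exp_add, ← Real.exp_add]
      norm_num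
    rw [h7, h8]
    generalize (n : ℝ) ^ (3 - κ) = y
    generalize Real.exp 1 = u
    generalize Real.exp 2 = v
    simp only [div_pow, mul_pow]
    ring
  calc l * (M.choose m : ℝ) * ((Real.exp 2 / (n : ℝ)) ^ m *
      Real.exp ((n : ℝ) * (1 + Real.log n) ^ 2))
      ≤ (Real.exp m) * (((n : ℝ) ^ (3 - κ)) ^ m * (Real.exp m / (m : ℝ) ^ m)) *
      ((Real.exp 2 / (n : ℝ)) ^ m * Real.exp m) := by
        refine mul_le_mul (mul_le_mul e1 e3 (Nat.cast_nonneg _) (Real.exp_pos _).le)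
          (mul_le_mul_of_nonneg_left e2 (by positivity)) (by positivity) (by positivity)
    _ = (Real.exp 5 * ((n : ℝ) ^ (3 - κ) / n / m)) ^ m := e4
    _ ≤ ((n : ℝ) ^ (-c)) ^ m := by
        refine pow_le_pow_left₀ (by positivity) ?_ m
        have h9 : (n : ℝ) ^ (3 - κ) / n / m ≤ (n : ℝ) ^ (c - κ) := by
          have h10 : (n : ℝ) ^ (3 - κ) / n = (n : ℝ) ^ (2 - κ) := by
            rw [← Real.rpow_sub_one hnR0.ne']
            congr 1
            ring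
          rw [h10, div_le_iff₀ hm0]
          calc (n : ℝ) ^ (2 - κ) = (n : ℝ) ^ (c - κ) * (n : ℝ) ^ (2 - c) := by
                rw [← Real.rpow_add hnR0]
                congr 1
                ring
            _ ≤ (n : ℝ) ^ (c - κ) * m :=
                mul_le_mul_of_nonneg_left hm (Real.rpow_nonneg hnR0.le _)
        calc Real.exp 5 * ((n : ℝ) ^ (3 - κ) / n / m)
            ≤ (n : ℝ) ^ (κ / 3) * (n : ℝ) ^ (c - κ) :=
              mul_le_mul hexp h9 (by positivity) (by positivity)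
          _ = (n : ℝ) ^ (κ / 3 + (c - κ)) := by rw [← Real.rpow_add hnR0]
          _ ≤ (n : ℝ) ^ (-c) := Real.rpow_le_rpow_of_exponent_le hnR (by linarith)
    _ = (n : ℝ) ^ (-(c * m)) := by
        rw [← Real.rpow_natCast, ← Real.rpow_mul hnR0.le]
        congr 1
        ring

theorem main_empty {p q s : ℕ} (n : ℕ) (hn : max p (max q s) ≤ n) (A : Finset (Tr n)) :
    Cop (∅ : Finset (Fin p × Fin q × Fin s)) A := by
  have hp1 : p ≤ n := le_trans (le_max_left _ _) hn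
  have hq1 : q ≤ n := le_trans (le_trans (le_max_left _ _) (le_max_right _ _)) hn
  have hs1 : s ≤ n := le_trans (le_trans (le_max_right _ _) (le_max_right _ _)) hn
  refine ⟨(Fin.castLE hp1, Fin.castLE hq1, Fin.castLE hs1), ⟨?_, ?_, ?_⟩, ?_⟩
  · exact Fin.castLE_injective hp1
  · exact Fin.castLE_injective hq1
  · exact Fin.castLE_injective hs1
  · simp [img]

theorem main_cop {p q s : ℕ} (F : Finset (Fin p × Fin q × Fin s)) (hF : Sparse F) :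
    ∃ c : ℝ, 0 < c ∧ ∃ n₀ : ℕ, ∀ n : ℕ, n₀ ≤ n → ∀ m : ℕ, (n : ℝ) ^ (2 - c) ≤ (m : ℝ) →
      (Set.ncard {L : Fin n → Fin n → Fin n | IsLatin L ∧
        ∃ A, A ⊆ cells L ∧ A.card = m ∧ ¬ Cop F A} : ℝ) ≤
        (n : ℝ) ^ (-(c * m)) * (Set.ncard {L : Fin n → Fin n → Fin n | IsLatin L} : ℝ) := by
  rcases F.eq_empty_or_nonempty with rfl | hne
  · -- every set contains a copy of the empty configuration
    refine ⟨1, one_pos, max p (max q s), fun n hn m _ => ?_⟩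
    have h1 : {L : Fin n → Fin n → Fin n | IsLatin L ∧
        ∃ A, A ⊆ cells L ∧ A.card = m ∧
          ¬ Cop (∅ : Finset (Fin p × Fin q × Fin s)) A} = ∅ := by
      refine Set.eq_empty_iff_forall_notMem.2 fun L hL => ?_
      obtain ⟨_, A, _, _, hA⟩ := hL
      exact hA (main_empty n hn A)
    rw [h1]
    simp only [Set.ncard_empty, Nat.cast_zero]
    positivity
  obtain ⟨κ, hκ, n₁, h1⟩ := contF F hF hne
  -- constants
  obtain ⟨c, hc0, hc1, hc2⟩ : ∃ c : ℝ, 0 < c ∧ c ≤ κ / 3 ∧ c ≤ 1 / 2 :=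
    ⟨min (κ / 3) (1 / 2), lt_min (by linarith) (by norm_num), min_le_left _ _, min_le_right _ _⟩
  have hev : ∀ᶠ n : ℕ in atTop, (1 ≤ n ∧ n₁ ≤ n) ∧
      (n : ℝ) * (1 + Real.log n) ^ 2 ≤ (n : ℝ) ^ (3 / 2 : ℝ) ∧
      Real.exp 5 ≤ (n : ℝ) ^ (κ / 3) := by
    have h2 : ∀ᶠ n : ℕ in atTop, Real.exp 5 ≤ (n : ℝ) ^ (κ / 3) :=
      ((tendsto_rpow_atTop (by linarith)).comp tendsto_natCast_atTop_atTop).eventually_ge_atTop _
    exact ((eventually_ge_atTop 1).and (eventually_ge_atTop n₁)).and (ev_log.and h2)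
  obtain ⟨n₀, hn₀⟩ := eventually_atTop.1 hev
  refine ⟨c, hc0, n₀, fun n hn m hm => ?_⟩
  obtain ⟨⟨hn1, hn2⟩, hlog, hexp⟩ := hn₀ n hn
  obtain ⟨O, hO1, hO2, hO3⟩ := h1 n hn2
  have hnR : (1 : ℝ) ≤ n := by exact_mod_cast hn1
  have hnR0 : (0 : ℝ) < n := by linarith
  obtain ⟨M, hM⟩ : ∃ M : ℕ, M = ⌊(n : ℝ) ^ (3 - κ)⌋₊ := ⟨_, rfl⟩
  have hMle : (M : ℝ) ≤ (n : ℝ) ^ (3 - κ) := by
    rw [hM]
    exact Nat.floor_le (Real.rpow_nonneg hnR0.le _)
  have hun := union_LS hn1 (fun A => ¬ Cop F A) O M m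
    (fun C hC => by rw [hM]; exact Nat.le_floor (hO2 C hC)) hO3
  have hcard : (Set.ncard {L : Fin n → Fin n → Fin n | IsLatin L} : ℝ) = ((LS n).card : ℝ) := by
    rw [← Set.ncard_coe_finset]
    congr 2
    ext L
    simp [LS]
  rw [hcard]
  refine le_trans (le_of_eq ?_) (hun.trans ?_)
  · rw [← Set.ncard_coe_finset]
    congr 2
    ext L
    simp [LS]
  have hLS : (0 : ℝ) ≤ ((LS n).card : ℝ) := Nat.cast_nonneg _
  rw [show (O.length : ℝ) * (M.choose m : ℝ) * ((Real.exp 2 / (n : ℝ)) ^ m *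
    Real.exp ((n : ℝ) * (1 + Real.log n) ^ 2) * ((LS n).card : ℝ)) =
    ((O.length : ℝ) * (M.choose m : ℝ) * ((Real.exp 2 / (n : ℝ)) ^ m *
    Real.exp ((n : ℝ) * (1 + Real.log n) ^ 2))) * ((LS n).card : ℝ) by ring]
  refine mul_le_mul_of_nonneg_right ?_ hLS
  exact num_bound hnR hc0 hc1 hc2 hm hlog hexp (O.length : ℝ) hO1 M hMle

theorem main_k (k : ℕ) (hk : 4 ≤ k) :
    ∃ c : ℝ, 0 < c ∧ ∃ n₀ : ℕ, ∀ n : ℕ, n₀ ≤ n → ∀ m : ℕ, (n : ℝ) ^ (2 - c) ≤ (m : ℝ) →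
      (Set.ncard {L : Fin n → Fin n → Fin n | IsLatin L ∧
        ∃ A, A ⊆ cells L ∧ m ≤ A.card ∧ ∀ B, B ⊆ A → B.card = k - 3 → k < pts B} : ℝ) ≤
        (n : ℝ) ^ (-(c * m)) * (Set.ncard {L : Fin n → Fin n → Fin n | IsLatin L} : ℝ) := by
  obtain ⟨p, q, s, F, hF, hF1, hF2⟩ := path k hk
  obtain ⟨c, hc, n₀, h⟩ := main_cop F hF
  refine ⟨c, hc, n₀, fun n hn m hm => le_trans ?_ (h n hn m hm)⟩
  refine Nat.cast_le.2 (Set.ncard_le_ncard ?_ (Set.toFinite _))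
  rintro L ⟨hL1, A, hA1, hA2, hA3⟩
  obtain ⟨A', hA', hm'⟩ := Finset.exists_subset_card_eq hA2
  refine ⟨hL1, A', hA'.trans hA1, hm', ?_⟩
  rintro ⟨θ, hθ, hθ2⟩
  obtain ⟨h2, h3⟩ := copy_card F θ hθ
  have h4 := hA3 (img F θ) (hθ2.trans hA') (h2.trans hF1)
  omega

end BESL
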