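import Pool.Agent.Lib.MP_c82047_co_LS.Reg

/-!
# MP_c82047_co, project LS, module LA: the number of Latin squares, lower bound
-/

set_option autoImplicit false

namespace BESL

open Finset

open Classical in
/-- Latin rectangles with `k` rows -/
noncomputable def lower_RR (n k : ℕ) : Finset (Fin k → Fin n → Fin n) :=
  univ.filter fun R => (∀ i, Function.Injective (R i)) ∧ ∀ j, Function.Injective fun i => R i j

open Classical in
/-- the symbols that do not occur in the column `j` -/
noncomputable def lower_A {n k : ℕ} (R : Fin k → Fin n → Fin n) (j : Fin n) : Finset (Fin n) :=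
  (univ.image fun i => R i j)ᶜ

theorem lower_A_card {n k : ℕ} (R : Fin k → Fin n → Fin n)
    (h2 : ∀ j, Function.Injective fun i => R i j) (j : Fin n) :
    (lower_A R j).card = n - k := by
  classical
  unfold lower_A
  rw [card_compl, card_image_of_injective _ (h2 j), card_univ, Fintype.card_fin, Fintype.card_fin]

theorem lower_A_deg {n k : ℕ} (R : Fin k → Fin n → Fin n)
    (h1 : ∀ i, Function.Injective (R i))
    (h2 : ∀ j, Function.Injective fun i => R i j) (s : Fin n) :
    (univ.filter fun j => s ∈ lower_A R j).card = n - k := by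
  classical
  have hb : ∀ i, Function.Bijective (R i) := fun i =>
    Finite.injective_iff_bijective.1 (h1 i)
  choose c hc using fun i => (hb i).2 s
  have hcinj : Function.Injective c := by
    intro i i' h
    apply h2 (c i)
    show R i (c i) = R i' (c i)
    rw [hc i, h, hc i']
  have e : (univ.filter fun j => s ∈ lower_A R j) = (univ.image c)ᶜ := by
    ext j
    simp only [mem_filter, mem_univ, true_and, lower_A, mem_compl, mem_image, not_exists]
    constructor
    · intro h i hi
      exact h i (by rw [← hi, hc i])
    · intro h i hi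
      apply h i
      apply h1 i
      rw [hc i, hi]
  rw [e, card_compl, card_image_of_injective _ hcinj, card_univ, Fintype.card_fin,
    Fintype.card_fin]

theorem lower_step {n k : ℕ} (hk : k < n) :
    (((n - k : ℕ) : ℝ) / Real.exp 1) ^ n * ((lower_RR n k).card : ℝ) ≤
      ((lower_RR n (k + 1)).card : ℝ) := by
  classical
  have h1 : ((lower_RR n k).sigma fun R => sdr (lower_A R)).card ≤
      (lower_RR n (k + 1)).card := by
    refine card_le_card_of_injOn
      (fun x => (Fin.snoc (α := fun _ => Fin n → Fin n) x.1 x.2 :
        Fin (k + 1) → Fin n → Fin n)) ?_ ?_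
    · rintro ⟨R, σ⟩ hx
      simp only [coe_sigma, Set.mem_sigma_iff, mem_coe] at hx
      obtain ⟨hR, hσ⟩ := hx
      simp only [lower_RR, mem_filter, mem_univ, true_and] at hR
      simp only [sdr, mem_filter, mem_univ, true_and] at hσ
      obtain ⟨hR1, hR2⟩ := hR
      obtain ⟨hσ1, hσ2⟩ := hσ
      simp only [lower_RR, coe_filter, mem_univ, true_and, Set.mem_ofPred_eq]
      constructor
      · intro i
        refine Fin.lastCases ?_ (fun i => ?_) i
        · rw [Fin.snoc_last]
          exact hσ1
        · rw [Fin.snoc_castSucc]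
          exact hR1 i
      · intro j
        have hne : ∀ i : Fin k, R i j ≠ σ j := by
          intro i h
          have h3 := hσ2 j
          simp only [lower_A, mem_compl, mem_image, mem_univ, true_and, not_exists] at h3
          exact h3 i h
        intro i i'
        refine Fin.lastCases ?_ (fun i => ?_) i
        · refine Fin.lastCases ?_ (fun i' => ?_) i'
          · intro _
            rfl
          · intro h
            simp only [Fin.snoc_last, Fin.snoc_castSucc] at h
            exact absurd h.symm (hne i')
        · refine Fin.lastCases ?_ (fun i' => ?_) i'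
          · intro h
            simp only [Fin.snoc_last, Fin.snoc_castSucc] at h
            exact absurd h (hne i)
          · intro h
            simp only [Fin.snoc_castSucc] at h
            rw [hR2 j h]
    · rintro ⟨R, σ⟩ _ ⟨R', σ'⟩ _ h
      obtain ⟨e1, e2⟩ := Fin.snoc_injective2 h
      subst e1
      subst e2
      rfl
  rw [card_sigma] at h1
  have h2 : ∀ R ∈ lower_RR n k,
      (((n - k : ℕ) : ℝ) / Real.exp 1) ^ n ≤ ((sdr (lower_A R)).card : ℝ) := by
    intro R hR
    simp only [lower_RR, mem_filter, mem_univ, true_and] at hR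
    refine reg_sdr (by omega) (lower_A R) (lower_A_card R hR.2) (lower_A_deg R hR.1 hR.2)
  calc (((n - k : ℕ) : ℝ) / Real.exp 1) ^ n * ((lower_RR n k).card : ℝ)
      = ∑ R ∈ lower_RR n k, (((n - k : ℕ) : ℝ) / Real.exp 1) ^ n := by
        rw [sum_const, nsmul_eq_mul, mul_comm]
    _ ≤ ∑ R ∈ lower_RR n k, ((sdr (lower_A R)).card : ℝ) := sum_le_sum h2
    _ = ((∑ R ∈ lower_RR n k, (sdr (lower_A R)).card : ℕ) : ℝ) := by push_cast; rfl
    _ ≤ ((lower_RR n (k + 1)).card : ℝ) := by exact_mod_cast h1

theorem lower_ind (n k : ℕ) (hk : k ≤ n) :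
    ((n.descFactorial k : ℕ) : ℝ) ^ n * Real.exp (-((n : ℝ) * k)) ≤
      ((lower_RR n k).card : ℝ) := by
  classical
  induction k with
  | zero =>
    have h : 0 < (lower_RR n 0).card := by
      rw [card_pos]
      refine ⟨fun i => i.elim0, ?_⟩
      simp only [lower_RR, mem_filter, mem_univ, true_and]
      exact ⟨fun i => i.elim0, fun j i => i.elim0⟩
    have h1 : (1 : ℝ) ≤ ((lower_RR n 0).card : ℝ) := by exact_mod_cast h
    simpa using h1
  | succ k ih =>
    have h1 := ih (by omega)
    have h2 := lower_step (n := n) (k := k) (by omega)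
    refine le_trans ?_ h2
    have h3 : ((n.descFactorial (k + 1) : ℕ) : ℝ) ^ n * Real.exp (-((n : ℝ) * (k + 1 : ℕ))) =
        (((n - k : ℕ) : ℝ) / Real.exp 1) ^ n *
          (((n.descFactorial k : ℕ) : ℝ) ^ n * Real.exp (-((n : ℝ) * k))) := by
      rw [Nat.descFactorial_succ, Nat.cast_mul, mul_pow, div_pow, ← Real.exp_nat_mul, mul_one]
      have h4 : Real.exp (-((n : ℝ) * (k + 1 : ℕ))) =
          Real.exp (-((n : ℝ) * k)) / Real.exp (n : ℝ) := by
        rw [← Real.exp_sub]
        congr 1
        push_cast
        ring
      rw [h4]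
      ring
    rw [h3]
    exact mul_le_mul_of_nonneg_left h1 (by positivity)

theorem lower_LS (n : ℕ) :
    (n.factorial : ℝ) ^ n * Real.exp (-((n : ℝ) ^ 2)) ≤ ((LS n).card : ℝ) := by
  classical
  have h := lower_ind n n le_rfl
  have e : lower_RR n n = LS n := by
    ext R
    simp only [lower_RR, LS, IsLatin, mem_filter, mem_univ, true_and]
  rw [Nat.descFactorial_self, e] at h
  rwa [pow_two]

end BESL
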