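import Pool.Agent.Lib.MP_c82047_co_LS.Upper
import Pool.Agent.Lib.MP_c82047_co_LS.Lower

/-!
# MP_c82047_co, project LS, module LN: the probability that a random Latin square contains `S`
-/

set_option autoImplicit false

namespace BESL

open Finset

/-- one step of Stirling's upper bound -/
theorem num_step1 (u : ℕ) (hu : 1 ≤ u) :
    Real.exp 1 * ((u : ℝ) / Real.exp 1) ^ u * (u : ℝ) ≤
      Real.exp 1 * ((u + 1 : ℝ) / Real.exp 1) ^ (u + 1) := by
  have hu0 : (0 : ℝ) < u := by exact_mod_cast hu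
  have h1 : 1 ≤ ((u : ℝ) + 1) * Real.log (1 + 1 / (u : ℝ)) := by
    have h2 : 1 - (1 + 1 / (u : ℝ))⁻¹ ≤ Real.log (1 + 1 / (u : ℝ)) :=
      Real.one_sub_inv_le_log_of_pos (by positivity)
    have h3 : 1 - (1 + 1 / (u : ℝ))⁻¹ = 1 / ((u : ℝ) + 1) := by
      field_simp
      ring
    rw [h3] at h2
    have h4 := mul_le_mul_of_nonneg_left h2 (show (0 : ℝ) ≤ (u : ℝ) + 1 by positivity)
    have h5 : ((u : ℝ) + 1) * (1 / ((u : ℝ) + 1)) = 1 := by field_simp
    rw [h5] at h4
    exact h4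
  have h6 : Real.exp 1 ≤ (1 + 1 / (u : ℝ)) ^ (u + 1) := by
    have h7 : (1 + 1 / (u : ℝ)) ^ (u + 1) =
        Real.exp (((u : ℝ) + 1) * Real.log (1 + 1 / (u : ℝ))) := by
      have h8 : ((u : ℝ) + 1) = ((u + 1 : ℕ) : ℝ) := by push_cast; ring
      rw [h8, ← Real.log_pow, Real.exp_log (by positivity)]
    rw [h7]
    exact Real.exp_le_exp.2 h1
  have h9 : ((u : ℝ) + 1) ^ (u + 1) = (1 + 1 / (u : ℝ)) ^ (u + 1) * (u : ℝ) ^ (u + 1) := by
    rw [← mul_pow]
    congr 1
    field_simp
  rw [div_pow, div_pow, h9, pow_succ (u : ℝ) u, pow_succ (Real.exp 1) u]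
  have he : (0 : ℝ) < Real.exp 1 := Real.exp_pos 1
  have h10 : Real.exp 1 * ((u : ℝ) ^ u / Real.exp 1 ^ u) * (u : ℝ) =
      Real.exp 1 * (Real.exp 1 * ((u : ℝ) ^ u * u) / (Real.exp 1 ^ u * Real.exp 1)) := by
    field_simp
  rw [h10]
  refine mul_le_mul_of_nonneg_left ?_ he.le
  refine div_le_div_of_nonneg_right ?_ (by positivity)
  exact mul_le_mul_of_nonneg_right h6 (by positivity)

/-- Stirling's upper bound -/
theorem num_fact (u : ℕ) (hu : 1 ≤ u) :
    ((u.factorial : ℕ) : ℝ) ≤ Real.exp 1 * (u : ℝ) * ((u : ℝ) / Real.exp 1) ^ u := by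
  induction u, hu using Nat.le_induction with
  | base =>
    have he : (0 : ℝ) < Real.exp 1 := Real.exp_pos 1
    simp
  | succ u hu ih =>
    have h1 := num_step1 u hu
    have hu0 : (0 : ℝ) < u := by exact_mod_cast hu
    rw [Nat.factorial_succ]
    push_cast
    calc ((u : ℝ) + 1) * (u.factorial : ℝ)
        ≤ ((u : ℝ) + 1) * (Real.exp 1 * (u : ℝ) * ((u : ℝ) / Real.exp 1) ^ u) :=
          mul_le_mul_of_nonneg_left ih (by positivity)
      _ = ((u : ℝ) + 1) * (Real.exp 1 * ((u : ℝ) / Real.exp 1) ^ u * (u : ℝ)) := by ring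
      _ ≤ ((u : ℝ) + 1) * (Real.exp 1 * (((u : ℝ) + 1) / Real.exp 1) ^ (u + 1)) :=
          mul_le_mul_of_nonneg_left h1 (by positivity)
      _ = _ := by ring

/-- the Bregman factor -/
theorem num_bf (u : ℕ) (hu : 1 ≤ u) :
    bf u ≤ ((u : ℝ) / Real.exp 1) * Real.exp ((1 + Real.log u) / (u : ℝ)) := by
  have hu0 : (0 : ℝ) < u := by exact_mod_cast hu
  have he : (0 : ℝ) < Real.exp 1 := Real.exp_pos 1
  unfold bf
  have h1 := num_fact u hu
  have h2 : ((u.factorial : ℕ) : ℝ) ^ (1 / (u : ℝ)) ≤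
      (Real.exp 1 * (u : ℝ) * ((u : ℝ) / Real.exp 1) ^ u) ^ (1 / (u : ℝ)) :=
    Real.rpow_le_rpow (by positivity) h1 (by positivity)
  refine h2.trans (le_of_eq ?_)
  rw [Real.mul_rpow (by positivity) (by positivity)]
  rw [← Real.rpow_natCast, ← Real.rpow_mul (by positivity)]
  have h3 : (u : ℝ) * (1 / (u : ℝ)) = 1 := by field_simp
  rw [h3, Real.rpow_one, mul_comm]
  congr 1
  rw [Real.rpow_def_of_pos (by positivity), Real.log_mul (by positivity) (by positivity),
    Real.log_exp]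
  congr 1
  ring

/-- the sum of the error terms -/
theorem num_sum (m n : ℕ) (hn : 1 ≤ n) (hm : m ≤ n) :
    ∑ u ∈ range m, (1 + Real.log ((u + 1 : ℕ) : ℝ)) / ((u + 1 : ℕ) : ℝ) ≤
      (1 + Real.log n) ^ 2 := by
  have hn0 : (0 : ℝ) < n := by exact_mod_cast hn
  have hl : 0 ≤ Real.log n := Real.log_natCast_nonneg n
  have h1 : ∑ u ∈ range m, (1 + Real.log ((u + 1 : ℕ) : ℝ)) / ((u + 1 : ℕ) : ℝ) ≤
      ∑ u ∈ range n, (1 + Real.log n) * (1 / ((u + 1 : ℕ) : ℝ)) := by
    refine (sum_le_sum_of_subset_of_nonneg (range_subset_range.2 hm) ?_).trans ?_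
    · intro u _ _
      have := Real.log_natCast_nonneg (u + 1)
      positivity
    · refine sum_le_sum fun u hu => ?_
      rw [mem_range] at hu
      have h2 : Real.log ((u + 1 : ℕ) : ℝ) ≤ Real.log n := by
        refine Real.log_le_log (by positivity) ?_
        exact_mod_cast hu
      rw [← mul_one_div]
      refine mul_le_mul_of_nonneg_right ?_ (by positivity)
      linarith
  refine h1.trans ?_
  rw [← mul_sum, pow_two]
  refine mul_le_mul_of_nonneg_left ?_ (by linarith)
  have h3 := harmonic_le_one_add_log n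
  refine le_trans (le_of_eq ?_) h3
  unfold harmonic
  push_cast
  refine sum_congr rfl fun u _ => ?_
  rw [one_div]

/-- the product of the Bregman factors -/
theorem num_prod (m n : ℕ) (hn : 1 ≤ n) (hm : m ≤ n) :
    ∏ u ∈ range m, bf (u + 1) ≤
      ((m.factorial : ℕ) : ℝ) * Real.exp (-(m : ℝ)) * Real.exp ((1 + Real.log n) ^ 2) := by
  have h1 : ∏ u ∈ range m, bf (u + 1) ≤ ∏ u ∈ range m,
      ((((u + 1 : ℕ) : ℝ) * Real.exp (-1)) *
        Real.exp ((1 + Real.log ((u + 1 : ℕ) : ℝ)) / ((u + 1 : ℕ) : ℝ))) := by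
    refine prod_le_prod (fun u _ => ?_) (fun u _ => ?_)
    · unfold bf
      positivity
    · have h2 := num_bf (u + 1) (by omega)
      rw [div_eq_mul_inv, ← Real.exp_neg] at h2
      exact h2
  refine h1.trans ?_
  rw [prod_mul_distrib, prod_mul_distrib, prod_const, card_range, ← Real.exp_sum]
  have h3 : ∏ u ∈ range m, ((u + 1 : ℕ) : ℝ) = ((m.factorial : ℕ) : ℝ) := by
    rw [← Nat.cast_prod, prod_range_add_one_eq_factorial]
  have h4 : Real.exp (-1) ^ m = Real.exp (-(m : ℝ)) := by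
    rw [← Real.exp_nat_mul]
    congr 1
    ring
  rw [h3, h4]
  exact mul_le_mul_of_nonneg_left (Real.exp_le_exp.2 (num_sum m n hn hm)) (by positivity)

/-- the quotient of two factorials -/
theorem num_quot (m n : ℕ) (hn : 1 ≤ n) (hm : m ≤ n) :
    ((m.factorial : ℕ) : ℝ) ≤ ((n.factorial : ℕ) : ℝ) * (Real.exp 1 / (n : ℝ)) ^ (n - m) := by
  have he : (0 : ℝ) < Real.exp 1 := Real.exp_pos 1
  have hn0 : (0 : ℝ) < n := by exact_mod_cast hn
  have key : ∀ k : ℕ, m ≤ k → (k = 0 ∨ ((m.factorial : ℕ) : ℝ) * ((k : ℝ) / Real.exp 1) ^ (k - m) ≤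
      ((k.factorial : ℕ) : ℝ)) := by
    intro k hk
    induction k, hk using Nat.le_induction with
    | base => right; simp
    | succ k hk ih =>
      right
      rcases Nat.eq_zero_or_pos k with hk0 | hk0
      · subst hk0
        have hm0 : m = 0 := by omega
        subst hm0
        simp only [Nat.factorial, Nat.cast_one, one_mul, zero_add, Nat.sub_zero, pow_one,
          Nat.mul_one]
        rw [div_le_one he]
        exact Real.one_le_exp zero_le_one
      rcases ih with ih | ih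
      · omega
      have hk1 : (0 : ℝ) < k := by exact_mod_cast hk0
      have h1 : (((k + 1 : ℕ) : ℝ) / Real.exp 1) ^ (k + 1 - m) ≤
          ((k : ℝ) / Real.exp 1) ^ (k - m) * ((k + 1 : ℕ) : ℝ) := by
        have h2 : k + 1 - m = (k - m) + 1 := by omega
        have h3 : ((k + 1 : ℕ) : ℝ) / Real.exp 1 =
            ((k : ℝ) / Real.exp 1) * (1 + 1 / (k : ℝ)) := by
          push_cast
          field_simp
        have h4 : (1 + 1 / (k : ℝ)) ^ (k - m) ≤ Real.exp 1 := by
          have h5 : (1 + 1 / (k : ℝ)) ^ (k - m) ≤ (1 + 1 / (k : ℝ)) ^ k :=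
            pow_le_pow_right₀ (by
              have : (0 : ℝ) < 1 / (k : ℝ) := by positivity
              linarith) (by omega)
          refine h5.trans ?_
          have h6 : 1 + 1 / (k : ℝ) ≤ Real.exp (1 / (k : ℝ)) := by
            have := Real.add_one_le_exp (1 / (k : ℝ))
            linarith
          refine (pow_le_pow_left₀ (by positivity) h6 k).trans (le_of_eq ?_)
          rw [← Real.exp_nat_mul]
          congr 1
          field_simp
        rw [h2, pow_succ]
        have h7 : (((k + 1 : ℕ) : ℝ) / Real.exp 1) ^ (k - m) =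
            ((k : ℝ) / Real.exp 1) ^ (k - m) * (1 + 1 / (k : ℝ)) ^ (k - m) := by
          rw [h3, mul_pow]
        rw [h7]
        have h8 : (((k : ℝ) / Real.exp 1) ^ (k - m) * (1 + 1 / (k : ℝ)) ^ (k - m)) *
            (((k + 1 : ℕ) : ℝ) / Real.exp 1) ≤
            (((k : ℝ) / Real.exp 1) ^ (k - m) * Real.exp 1) *
            (((k + 1 : ℕ) : ℝ) / Real.exp 1) := by
          refine mul_le_mul_of_nonneg_right ?_ (by positivity)
          exact mul_le_mul_of_nonneg_left h4 (by positivity)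
        refine h8.trans (le_of_eq ?_)
        field_simp
      rw [Nat.factorial_succ]
      have h9 := mul_le_mul_of_nonneg_left h1
        (show (0 : ℝ) ≤ ((m.factorial : ℕ) : ℝ) by positivity)
      refine h9.trans ?_
      have h10 := mul_le_mul_of_nonneg_left ih (show (0 : ℝ) ≤ ((k + 1 : ℕ) : ℝ) by positivity)
      rw [Nat.cast_mul]
      refine le_trans (le_of_eq ?_) h10
      ring
  rcases key n hm with h | h
  · omega
  have h1 := mul_le_mul_of_nonneg_right h
    (show (0 : ℝ) ≤ (Real.exp 1 / (n : ℝ)) ^ (n - m) by positivity)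
  refine le_trans (le_of_eq ?_) h1
  rw [mul_assoc, ← mul_pow]
  have h2 : (n : ℝ) / Real.exp 1 * (Real.exp 1 / (n : ℝ)) = 1 := by field_simp
  rw [h2, one_pow, mul_one]

/-- the sum of the column counts -/
theorem num_hh {n : ℕ} (S : Finset (Tr n)) : ∑ j, hh S j = S.card := by
  unfold hh
  exact (card_eq_sum_card_fiberwise (f := fun t : Tr n => t.2.1) (s := S) (t := univ)
    (fun _ _ => mem_coe.2 (mem_univ _))).symm

/-- if some Latin square contains `S`, then the column counts are at most `n` -/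
theorem num_hh_le {n : ℕ} (S : Finset (Tr n)) (L : Fin n → Fin n → Fin n)
    (hS : S ⊆ cells L) (j : Fin n) : hh S j ≤ n := by
  unfold hh
  have h1 : (S.filter fun t => t.2.1 = j).card =
      ((S.filter fun t => t.2.1 = j).image fun t => t.1).card := by
    refine (card_image_of_injOn ?_).symm
    intro t ht t' ht' htt
    rw [mem_coe, mem_filter] at ht ht'
    obtain ⟨i, j1, s⟩ := t
    obtain ⟨i', j2, s'⟩ := t'
    simp only at ht ht' htt
    obtain ⟨h7, rfl⟩ := ht
    obtain ⟨h8, rfl⟩ := ht'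
    subst htt
    have h9 := hS h7
    have h10 := hS h8
    unfold cells at h9 h10
    rw [mem_filter] at h9 h10
    have h11 := h9.2
    have h12 := h10.2
    simp only at h11 h12
    rw [← h11, ← h12]
  rw [h1]
  refine (card_le_univ _).trans (le_of_eq ?_)
  rw [Fintype.card_fin]

theorem prob_LS {n : ℕ} (hn : 1 ≤ n) (S : Finset (Tr n)) :
    (((LS n).filter fun L => S ⊆ cells L).card : ℝ) ≤
      (Real.exp 2 / (n : ℝ)) ^ S.card * Real.exp ((n : ℝ) * (1 + Real.log n) ^ 2) *
        ((LS n).card : ℝ) := by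
  have hn0 : (0 : ℝ) < n := by exact_mod_cast hn
  rcases ((LS n).filter fun L => S ⊆ cells L).eq_empty_or_nonempty with he | ⟨L, hL⟩
  · rw [he, card_empty, Nat.cast_zero]
    positivity
  rw [mem_filter] at hL
  have hh0 : ∀ j, hh S j ≤ n := num_hh_le S L hL.2
  refine (upper_LS S).trans ?_
  have h1 : ∀ j : Fin n, ∏ u ∈ Finset.Icc 1 (n - hh S j), bf u ≤
      ((n.factorial : ℕ) : ℝ) * Real.exp (-(n : ℝ)) * (Real.exp 2 / (n : ℝ)) ^ (hh S j) *
        Real.exp ((1 + Real.log n) ^ 2) := by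
    intro j
    have h2 : ∏ u ∈ Finset.Icc 1 (n - hh S j), bf u = ∏ u ∈ range (n - hh S j), bf (u + 1) := by
      rw [range_eq_Ico, prod_Ico_add' bf 0 (n - hh S j) 1]
      rfl
    rw [h2]
    refine (num_prod (n - hh S j) n hn (Nat.sub_le _ _)).trans ?_
    refine mul_le_mul_of_nonneg_right ?_ (Real.exp_pos _).le
    have h3 := num_quot (n - hh S j) n hn (Nat.sub_le _ _)
    have h4 : n - (n - hh S j) = hh S j := by have := hh0 j; omega
    rw [h4] at h3
    have h5 := mul_le_mul_of_nonneg_right h3 (Real.exp_pos (-((n - hh S j : ℕ) : ℝ))).le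
    refine h5.trans (le_of_eq ?_)
    have h6 : Real.exp (-((n - hh S j : ℕ) : ℝ)) =
        Real.exp (-(n : ℝ)) * Real.exp 1 ^ (hh S j) := by
      rw [← Real.exp_nat_mul, ← Real.exp_add, Nat.cast_sub (hh0 j)]
      congr 1
      ring
    have h7 : Real.exp 2 = Real.exp 1 * Real.exp 1 := by
      rw [← Real.exp_add]
      norm_num
    rw [h6, h7, div_pow, div_pow, mul_pow]
    ring
  have h8 : ∏ j, ∏ u ∈ Finset.Icc 1 (n - hh S j), bf u ≤ ∏ j : Fin n,
      (((n.factorial : ℕ) : ℝ) * Real.exp (-(n : ℝ)) * (Real.exp 2 / (n : ℝ)) ^ (hh S j) *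
        Real.exp ((1 + Real.log n) ^ 2)) := by
    refine prod_le_prod (fun j _ => prod_nonneg fun u _ => ?_) (fun j _ => h1 j)
    unfold bf
    positivity
  refine h8.trans ?_
  rw [prod_mul_distrib, prod_mul_distrib, prod_const, prod_const, prod_pow_eq_pow_sum,
    num_hh, card_univ, Fintype.card_fin]
  have h9 := lower_LS n
  have h10 : (((n.factorial : ℕ) : ℝ) * Real.exp (-(n : ℝ))) ^ n =
      (n.factorial : ℝ) ^ n * Real.exp (-((n : ℝ) ^ 2)) := by
    rw [mul_pow, ← Real.exp_nat_mul]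
    congr 2
    ring
  have h11 : Real.exp ((1 + Real.log n) ^ 2) ^ n = Real.exp ((n : ℝ) * (1 + Real.log n) ^ 2) := by
    rw [← Real.exp_nat_mul]
  rw [h10, h11]
  have h12 := mul_le_mul_of_nonneg_right h9
    (show (0 : ℝ) ≤ (Real.exp 2 / (n : ℝ)) ^ S.card *
      Real.exp ((n : ℝ) * (1 + Real.log n) ^ 2) by positivity)
  refine le_trans (le_of_eq ?_) (h12.trans (le_of_eq ?_))
  · ring
  · ring

end BESL
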