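import Mathlib

/-!
# Lower bound for the permanent

If `A` is a real positive `n × n` matrix with all row and column sums `1` then its permanent is
at least `exp (-n)`.  (Proof of Gurvits, with a class of polynomials that is closed under the
operation `z ↦ ∂/∂t p(z, t)` at `t = 0` without a limit argument.)  Then the same for doubly
stochastic matrices, and for the number of permutations inside a regular bipartite graph.
-/

set_option autoImplicit false

open Finset Polynomial

namespace BESL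

namespace VdW

section general

variable {ι : Type*} [Fintype ι] [DecidableEq ι] {K : Type*} [CommRing K]

/-- Weights: the sum over all ways to give the columns `0, …, r-1` to the rows outside `T`,
all of them. -/
def W (A : ι → ℕ → K) : ℕ → Finset ι → K
  | 0, T => if T = univ then 1 else 0
  | r + 1, T => ∑ i ∈ Tᶜ, A i r * W A r (insert i T)

/-- the linear form of the row `i` in the variables `r, …, n-1`. -/
def L (A : ι → ℕ → K) (n r : ℕ) (i : ι) (z : ℕ → K) : K := ∑ j ∈ Ico r n, A i j * z j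

/-- the product of the linear forms differentiated once in each of the variables
`0, …, r-1`, these being put equal to zero. -/
def Q (A : ι → ℕ → K) (n r : ℕ) (z : ℕ → K) : K :=
  ∑ T : Finset ι, W A r T * ∏ i ∈ T, L A n r i z

/-- the same as a polynomial in the variable `r`. -/
noncomputable def Rp (A : ι → ℕ → K) (n r : ℕ) (z : ℕ → K) : K[X] :=
  ∑ T : Finset ι, C (W A r T) * ∏ i ∈ T, (C (L A n (r + 1) i z) + C (A i r) * X)

lemma card_of_W_ne (A : ι → ℕ → K) (r : ℕ) : ∀ T : Finset ι, W A r T ≠ 0 →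
    T.card + r = Fintype.card ι := by
  induction r with
  | zero =>
    intro T h
    by_cases hT : T = univ
    · simp [hT]
    · simp [W, hT] at h
  | succ r ih =>
    intro T h
    rw [W] at h
    obtain ⟨i, hi, hne⟩ := exists_ne_zero_of_sum_ne_zero h
    have h2 := ih (insert i T) (right_ne_zero_of_mul hne)
    rw [mem_compl] at hi
    rw [card_insert_of_notMem hi] at h2
    omega

omit [Fintype ι] [DecidableEq ι] in
lemma L_update (A : ι → ℕ → K) {n r : ℕ} (h : r < n) (i : ι) (z : ℕ → K) (t : K) :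
    L A n r i (Function.update z r t) = L A n (r + 1) i z + A i r * t := by
  unfold L
  rw [sum_eq_sum_Ico_succ_bot h, Function.update_self, add_comm]
  congr 1
  refine sum_congr rfl fun j hj => ?_
  rw [mem_Ico] at hj
  rw [Function.update_of_ne (by omega)]

lemma eval_Rp (A : ι → ℕ → K) {n r : ℕ} (h : r < n) (z : ℕ → K) (t : K) :
    (Rp A n r z).eval t = Q A n r (Function.update z r t) := by
  unfold Rp Q
  rw [eval_finsetSum]
  refine sum_congr rfl fun T _ => ?_
  rw [eval_mul, eval_C, eval_prod]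
  congr 1
  refine prod_congr rfl fun i _ => ?_
  rw [L_update A h]
  simp

lemma eval_derivative_Rp (A : ι → ℕ → K) {n r : ℕ} (z : ℕ → K) :
    (derivative (Rp A n r z)).eval 0 = Q A n (r + 1) z := by
  unfold Rp Q
  have h1 : (derivative (∑ T : Finset ι, C (W A r T) *
      ∏ i ∈ T, (C (L A n (r + 1) i z) + C (A i r) * X))).eval 0
      = ∑ T : Finset ι, ∑ i ∈ T, W A r T * (A i r * ∏ j ∈ T.erase i, L A n (r + 1) j z) := by
    rw [derivative_sum, eval_finsetSum]
    refine sum_congr rfl fun T _ => ?_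
    rw [derivative_mul, derivative_C, zero_mul, zero_add, eval_mul, eval_C,
      derivative_prod_finset, eval_finsetSum, mul_sum]
    refine sum_congr rfl fun i _ => ?_
    rw [eval_mul, eval_prod]
    simp
    ring
  have h2 : ∑ T : Finset ι, W A (r + 1) T * ∏ i ∈ T, L A n (r + 1) i z
      = ∑ T : Finset ι, ∑ i ∈ Tᶜ, W A r (insert i T) * (A i r * ∏ j ∈ T, L A n (r + 1) j z) := by
    refine sum_congr rfl fun T _ => ?_
    rw [W, sum_mul]
    refine sum_congr rfl fun i _ => ?_
    ring
  rw [h1, h2, sum_sigma', sum_sigma']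
  refine sum_bij' (fun p _ => (⟨p.1.erase p.2, p.2⟩ : Σ _ : Finset ι, ι))
    (fun p _ => (⟨insert p.2 p.1, p.2⟩ : Σ _ : Finset ι, ι)) ?_ ?_ ?_ ?_ ?_
  · rintro ⟨T, i⟩ h
    simp
  · rintro ⟨T, i⟩ h
    simp
  · rintro ⟨T, i⟩ h
    have hi : i ∈ T := by simpa using h
    simp [insert_erase hi]
  · rintro ⟨T, i⟩ h
    have hi : i ∉ T := by simpa using h
    simp [erase_insert hi]
  · rintro ⟨T, i⟩ h
    have hi : i ∈ T := by simpa using h
    simp [insert_erase hi]

lemma coeff_Rp (A : ι → ℕ → K) {n r : ℕ} (z : ℕ → K) {m : ℕ} (hm : m + r = Fintype.card ι) :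
    (Rp A n r z).coeff m = ∑ T : Finset ι, W A r T * ∏ i ∈ T, A i r := by
  unfold Rp
  rw [finsetSum_coeff]
  refine sum_congr rfl fun T _ => ?_
  rw [coeff_C_mul]
  by_cases hW : W A r T = 0
  · simp [hW]
  · have hc := card_of_W_ne A r T hW
    have hm' : m = T.card * 1 := by omega
    rw [hm', coeff_prod_of_natDegree_le]
    · congr 1
      refine prod_congr rfl fun i _ => ?_
      simp
    · intro i _
      refine (natDegree_add_le _ _).trans ?_
      rw [max_le_iff]
      constructor
      · simp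
      · exact (natDegree_C_mul_le _ _).trans natDegree_X_le

lemma Q_smul (A : ι → ℕ → K) {n r m : ℕ} (hm : m + r = Fintype.card ι) (z : ℕ → K) (c : K) :
    Q A n r (fun j => c * z j) = c ^ m * Q A n r z := by
  unfold Q
  rw [mul_sum]
  refine sum_congr rfl fun T _ => ?_
  by_cases hW : W A r T = 0
  · simp [hW]
  · have hc := card_of_W_ne A r T hW
    have hm' : m = T.card := by omega
    have hL : ∀ i, L A n r i (fun j => c * z j) = c * L A n r i z := by
      intro i
      unfold L
      rw [mul_sum]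
      refine sum_congr rfl fun j _ => ?_
      ring
    simp only [hL]
    rw [prod_mul_distrib, prod_const, hm']
    ring

/-- The last weight in terms of bijections. -/
lemma W_eq (A : ι → ℕ → K) (r : ℕ) : ∀ T : Finset ι,
    W A r T = ∑ f : Fin r → ι,
      if (Function.Injective f ∧ ∀ i, (∃ j, f j = i) ↔ i ∉ T) then ∏ j, A (f j) j else 0 := by
  induction r with
  | zero =>
    intro T
    simp only [Fintype.sum_unique, W]
    by_cases hT : T = univ
    · rw [if_pos hT, if_pos]
      · simp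
      · refine ⟨fun a => a.elim0, fun i => ?_⟩
        simp [hT]
    · rw [if_neg hT, if_neg]
      rintro ⟨-, h⟩
      apply hT
      ext i
      have := h i
      simp only [mem_univ, iff_true]
      by_contra hi
      obtain ⟨j, -⟩ := this.2 hi
      exact j.elim0
  | succ r ih =>
    intro T
    rw [W, ← (Fin.snocEquiv (fun _ => ι)).sum_comp, Fintype.sum_prod_type]
    have h1 : ∀ i : ι, (∑ g : Fin r → ι, if (Function.Injective (Fin.snocEquiv (fun _ => ι) (i, g)) ∧
        ∀ k, (∃ j, Fin.snocEquiv (fun _ => ι) (i, g) j = k) ↔ k ∉ T)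
        then ∏ j : Fin (r + 1), A (Fin.snocEquiv (fun _ => ι) (i, g) j) j else 0)
        = if i ∈ Tᶜ then A i r * W A r (insert i T) else 0 := by
      intro i
      split_ifs with hi
      · rw [ih, mul_sum]
        refine sum_congr rfl fun g _ => ?_
        rw [mem_compl] at hi
        have hiff : (Function.Injective (Fin.snocEquiv (fun _ => ι) (i, g)) ∧
            ∀ k, (∃ j, Fin.snocEquiv (fun _ => ι) (i, g) j = k) ↔ k ∉ T) ↔
            (Function.Injective g ∧ ∀ k, (∃ j, g j = k) ↔ k ∉ insert i T) := by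
          have e1 : (Fin.snocEquiv (fun _ => ι) (i, g)) = (Fin.snoc g i : Fin (r + 1) → ι) := rfl
          have e2 : ∀ k, (∃ j, (Fin.snoc g i : Fin (r + 1) → ι) j = k) ↔
              ((∃ j, g j = k) ∨ i = k) := by
            intro k
            rw [Fin.exists_fin_succ']
            simp
          rw [e1, Fin.snoc_injective_iff]
          simp only [e2, Set.mem_range, mem_insert, not_or]
          constructor
          · rintro ⟨⟨hg, hir⟩, h⟩
            refine ⟨hg, fun k => ⟨fun hk => ⟨?_, (h k).1 (Or.inl hk)⟩, fun hk => ?_⟩⟩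
            · rintro rfl
              exact hir hk
            · rcases (h k).2 hk.2 with h' | h'
              · exact h'
              · exact absurd h'.symm hk.1
          · rintro ⟨hg, h⟩
            refine ⟨⟨hg, fun hk => ((h i).1 hk).1 rfl⟩, fun k => ⟨?_, fun hk => ?_⟩⟩
            · rintro (hk | rfl)
              · exact ((h k).1 hk).2
              · exact hi
            · by_cases hki : k = i
              · exact Or.inr hki.symm
              · exact Or.inl ((h k).2 ⟨hki, hk⟩)
        by_cases hg : (Function.Injective g ∧ ∀ k, (∃ j, g j = k) ↔ k ∉ insert i T)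
        · rw [if_pos hg, if_pos (hiff.2 hg), Fin.prod_univ_castSucc]
          simp [Fin.snocEquiv]
          ring
        · rw [if_neg hg, if_neg (fun h => hg (hiff.1 h)), mul_zero]
      · refine sum_eq_zero fun g _ => ?_
        rw [if_neg]
        rintro ⟨-, h⟩
        apply hi
        rw [mem_compl]
        refine (h i).1 ⟨Fin.last r, ?_⟩
        simp [Fin.snocEquiv]
    rw [sum_congr rfl fun i _ => h1 i, sum_ite_mem, univ_inter]

end general

section real

variable {ι : Type*} [Fintype ι] [DecidableEq ι]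

lemma W_pos {A : ι → ℕ → ℝ} (hA : ∀ i j, 0 < A i j) (r : ℕ) : ∀ T : Finset ι,
    T.card + r = Fintype.card ι → 0 < W A r T := by
  induction r with
  | zero =>
    intro T h
    have : T = univ := by rw [← card_eq_iff_eq_univ]; omega
    simp [W, this]
  | succ r ih =>
    intro T h
    rw [W]
    refine sum_pos (fun i hi => ?_) ?_
    · rw [mem_compl] at hi
      refine mul_pos (hA i r) (ih _ ?_)
      rw [card_insert_of_notMem hi]
      omega
    · rw [← card_pos, card_compl]
      omega

lemma W_nonneg {A : ι → ℕ → ℝ} (hA : ∀ i j, 0 < A i j) (r : ℕ) (T : Finset ι) :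
    0 ≤ W A r T := by
  by_cases h : W A r T = 0
  · exact h.ge
  · exact (W_pos hA r T (card_of_W_ne A r T h)).le

lemma sum_W_pos {A : ι → ℕ → ℝ} (hA : ∀ i j, 0 < A i j) {r : ℕ} (hr : r ≤ Fintype.card ι)
    (l : ι → ℝ) (hl : ∀ i, 0 < l i) : 0 < ∑ T : Finset ι, W A r T * ∏ i ∈ T, l i := by
  obtain ⟨T, -, hT⟩ := exists_subset_card_eq (s := (univ : Finset ι))
    (n := Fintype.card ι - r) (by rw [card_univ]; omega)
  refine sum_pos' (fun T _ => mul_nonneg (W_nonneg hA r T) (prod_nonneg fun i _ => (hl i).le))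
    ⟨T, mem_univ _, mul_pos (W_pos hA r T (by omega)) (prod_pos fun i _ => hl i)⟩

lemma map_W (A : ι → ℕ → ℝ) (r : ℕ) : ∀ T : Finset ι,
    ((W A r T : ℝ) : ℂ) = W (fun i j => (A i j : ℂ)) r T := by
  induction r with
  | zero => intro T; by_cases hT : T = univ <;> simp [W, hT]
  | succ r ih =>
    intro T
    rw [W, W]
    push_cast
    exact sum_congr rfl fun i _ => by rw [ih]

omit [Fintype ι] [DecidableEq ι] in
lemma map_L (A : ι → ℕ → ℝ) (n r : ℕ) (i : ι) (x : ℕ → ℝ) :
    ((L A n r i x : ℝ) : ℂ) = L (fun i j => (A i j : ℂ)) n r i (fun j => (x j : ℂ)) := by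
  unfold L
  push_cast
  rfl

lemma map_Q (A : ι → ℕ → ℝ) (n r : ℕ) (x : ℕ → ℝ) :
    ((Q A n r x : ℝ) : ℂ) = Q (fun i j => (A i j : ℂ)) n r (fun j => (x j : ℂ)) := by
  unfold Q
  push_cast
  refine sum_congr rfl fun T _ => ?_
  rw [map_W]
  congr 1
  exact prod_congr rfl fun i _ => map_L A n r i x

/-- no zero with all real parts `≥ 0` and one positive -/
def St (A : ι → ℕ → ℝ) (n r : ℕ) : Prop :=
  ∀ z : ℕ → ℂ, (∀ j, 0 ≤ (z j).re) → (∃ j, r ≤ j ∧ j < n ∧ 0 < (z j).re) →
    Q (fun i j => (A i j : ℂ)) n r z ≠ 0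

omit [Fintype ι] [DecidableEq ι] in
lemma re_L_pos {A : ι → ℕ → ℝ} (hA : ∀ i j, 0 < A i j) {n r : ℕ} {z : ℕ → ℂ}
    (h0 : ∀ j, 0 ≤ (z j).re) (h1 : ∃ j, r ≤ j ∧ j < n ∧ 0 < (z j).re) (i : ι) :
    0 < (L (fun i j => (A i j : ℂ)) n r i z).re := by
  unfold L
  rw [Complex.re_sum]
  obtain ⟨j, hj1, hj2, hj3⟩ := h1
  refine sum_pos' (fun k _ => ?_) ⟨j, mem_Ico.2 ⟨hj1, hj2⟩, ?_⟩
  · rw [Complex.re_ofReal_mul]
    exact mul_nonneg (hA i k).le (h0 k)
  · rw [Complex.re_ofReal_mul]
    exact mul_pos (hA i j) hj3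

lemma St_zero {A : ι → ℕ → ℝ} (hA : ∀ i j, 0 < A i j) (n : ℕ) : St A n 0 := by
  intro z h0 h1
  unfold Q
  rw [sum_eq_single (univ : Finset ι)]
  · simp only [W, if_true, one_mul]
    refine prod_ne_zero_iff.2 fun i _ h => ?_
    have := re_L_pos hA h0 h1 i
    rw [h] at this
    simp at this
  · intro T _ hT
    simp [W, hT]
  · intro h
    exact absurd (mem_univ _) h

lemma Rp_natDegree {A : ι → ℕ → ℝ} (hA : ∀ i j, 0 < A i j) {n r : ℕ} (hn : Fintype.card ι = n)
    (hr : r < n) (z : ℕ → ℂ) : (Rp (fun i j => (A i j : ℂ)) n r z).natDegree ≠ 0 := by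
  intro h
  have h1 := coeff_Rp (fun i j => (A i j : ℂ)) (n := n) (r := r) z (m := n - r) (by omega)
  rw [coeff_eq_zero_of_natDegree_lt (by omega)] at h1
  have h2 := sum_W_pos hA (r := r) (by omega) (fun i => A i r) (fun i => hA i r)
  have h3 : ((∑ T : Finset ι, W A r T * ∏ i ∈ T, A i r : ℝ) : ℂ)
      = ∑ T : Finset ι, W (fun i j => (A i j : ℂ)) r T * ∏ i ∈ T, ((A i r : ℝ) : ℂ) := by
    push_cast
    exact sum_congr rfl fun T _ => by rw [map_W]
  rw [← h3] at h1
  exact h2.ne (by exact_mod_cast h1)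

lemma roots_ne {P : ℂ[X]} (hP : P.natDegree ≠ 0) : P.roots ≠ 0 :=
  Splits.roots_ne_zero (IsAlgClosed.splits _) hP

lemma re_sum_pos (M : Multiset ℂ) (hM : M ≠ 0) (h : ∀ w ∈ M, w.re < 0) :
    0 < ((M.map fun w => 1 / (0 - w)).sum).re := by
  have key : ∀ w : ℂ, w.re < 0 → 0 < (1 / (0 - w)).re := by
    intro w hw
    have hw0 : w ≠ 0 := by rintro rfl; simp at hw
    rw [zero_sub, one_div, Complex.inv_re, Complex.normSq_neg, Complex.neg_re]
    exact div_pos (by linarith) (Complex.normSq_pos.2 hw0)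
  have gen : ∀ M : Multiset ℂ, (∀ w ∈ M, w.re < 0) →
      0 ≤ ((M.map fun w => 1 / (0 - w)).sum).re := by
    intro M
    induction M using Multiset.induction_on with
    | empty => intro _; simp
    | cons a M ih =>
      intro h
      rw [Multiset.map_cons, Multiset.sum_cons, Complex.add_re]
      have h1 := key a (h a (Multiset.mem_cons_self a M))
      have h2 := ih fun w hw => h w (Multiset.mem_cons_of_mem hw)
      linarith
  obtain ⟨a, ha⟩ := Multiset.exists_mem_of_ne_zero hM
  obtain ⟨M', rfl⟩ := Multiset.exists_cons_of_mem ha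
  rw [Multiset.map_cons, Multiset.sum_cons, Complex.add_re]
  have h1 := key a (h a (Multiset.mem_cons_self a M'))
  have h2 := gen M' fun w hw => h w (Multiset.mem_cons_of_mem hw)
  linarith

lemma update_re {z : ℕ → ℂ} {r : ℕ} {t : ℂ} (h0 : ∀ j, 0 ≤ (z j).re) (ht : 0 ≤ t.re) (j : ℕ) :
    0 ≤ (Function.update z r t j).re := by
  by_cases hj : j = r
  · subst hj
    simpa using ht
  · rw [Function.update_of_ne hj]
    exact h0 j

lemma St_succ {A : ι → ℕ → ℝ} (hA : ∀ i j, 0 < A i j) {n r : ℕ} (hn : Fintype.card ι = n)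
    (h : St A n r) : St A n (r + 1) := by
  intro z h0 h1
  obtain ⟨j, hj1, hj2, hj3⟩ := h1
  have hr : r < n := by omega
  have hroot : ∀ t : ℂ, 0 ≤ t.re → (Rp (fun i j => (A i j : ℂ)) n r z).eval t ≠ 0 := by
    intro t ht
    rw [eval_Rp _ hr]
    refine h _ (update_re h0 ht) ⟨j, by omega, hj2, ?_⟩
    rw [Function.update_of_ne (by omega)]
    exact hj3
  have hP := Rp_natDegree hA hn hr z
  have hP0 : Rp (fun i j => (A i j : ℂ)) n r z ≠ 0 := by
    intro h
    rw [h] at hP
    simp at hP
  rw [← eval_derivative_Rp, (IsAlgClosed.splits _).eval_derivative_eq_eval_mul_sum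
    (hroot 0 (by simp))]
  refine mul_ne_zero (hroot 0 (by simp)) fun h => ?_
  have h2 := re_sum_pos (Rp (fun i j => (A i j : ℂ)) n r z).roots (roots_ne hP) (fun w hw => by
    by_contra hc
    rw [mem_roots hP0] at hw
    exact hroot w (not_lt.1 hc) hw)
  rw [h] at h2
  simp at h2

lemma St_all {A : ι → ℕ → ℝ} (hA : ∀ i j, 0 < A i j) {n : ℕ} (hn : Fintype.card ι = n)
    (r : ℕ) : St A n r := by
  induction r with
  | zero => exact St_zero hA n
  | succ r ih => exact St_succ hA hn ih

/-- the roots are negative reals -/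
lemma root_neg {A : ι → ℕ → ℝ} (hA : ∀ i j, 0 < A i j) {n r : ℕ} (hn : Fintype.card ι = n)
    (hr : r + 1 < n) {x : ℕ → ℝ} (hx : ∀ j, 0 < x j) {t : ℂ}
    (ht : (Rp (fun i j => (A i j : ℂ)) n r (fun j => (x j : ℂ))).eval t = 0) :
    t.re < 0 ∧ t.im = 0 := by
  rw [← Complex.arg_eq_pi_iff]
  rw [eval_Rp _ (by omega)] at ht
  by_contra harg
  set y := Function.update (fun j => (x j : ℂ)) r t with hy
  set c : ℂ := Complex.exp (-(((t.arg / 2 : ℝ) : ℂ) * Complex.I)) with hc
  have hlt : |t.arg / 2| < Real.pi / 2 := by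
    have h1 := Complex.arg_le_pi t
    have h2 := Complex.neg_pi_lt_arg t
    have h3 : t.arg < Real.pi := lt_of_le_of_ne h1 harg
    rw [abs_lt]
    constructor <;> linarith
  have hcos : 0 < Real.cos (t.arg / 2) :=
    Real.cos_pos_of_mem_Ioo ⟨by have := (abs_lt.1 hlt).1; linarith, (abs_lt.1 hlt).2⟩
  have hcre : c.re = Real.cos (t.arg / 2) := by
    rw [hc, ← neg_mul, ← Complex.ofReal_neg, Complex.exp_ofReal_mul_I_re, Real.cos_neg]
  have hct : (c * t).re = ‖t‖ * Real.cos (t.arg / 2) := by
    have h1 : c * t = (‖t‖ : ℂ) * Complex.exp (((t.arg / 2 : ℝ) : ℂ) * Complex.I) := by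
      conv_lhs => rw [← Complex.norm_mul_exp_arg_mul_I t]
      rw [hc, mul_left_comm, ← Complex.exp_add]
      congr 2
      push_cast
      ring
    rw [h1, Complex.re_ofReal_mul, Complex.exp_ofReal_mul_I_re]
  have h2 := St_all hA hn r (fun j => c * y j) (fun j => ?_) ⟨r + 1, by omega, hr, ?_⟩
  · apply h2
    rw [Q_smul (m := n - r) _ (by omega), ht, mul_zero]
  · by_cases hj : j = r
    · subst hj
      rw [hy, Function.update_self, hct]
      positivity
    · rw [hy, Function.update_of_ne hj, mul_comm, Complex.re_ofReal_mul, hcre]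
      exact mul_nonneg (hx j).le hcos.le
  · rw [hy, Function.update_of_ne (by omega), mul_comm, Complex.re_ofReal_mul, hcre]
    exact mul_pos (hx _) hcos

lemma prod_le_exp {t : ℝ} (ht : 0 ≤ t) (M : Multiset ℂ) :
    (∀ w ∈ M, w.re < 0 ∧ w.im = 0) →
    ‖(M.map fun w => (t : ℂ) - w).prod‖ ≤
      ‖(M.map fun w => 0 - w).prod‖ * Real.exp (t * ((M.map fun w => 1 / (0 - w)).sum).re) := by
  induction M using Multiset.induction_on with
  | empty => intro _; simp
  | cons a M ih =>
    intro h
    have ha := h a (Multiset.mem_cons_self a M)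
    have hM := ih fun w hw => h w (Multiset.mem_cons_of_mem hw)
    obtain ⟨s, hs, rfl⟩ : ∃ s : ℝ, 0 < s ∧ a = ((-s : ℝ) : ℂ) :=
      ⟨-a.re, by linarith [ha.1], by apply Complex.ext <;> simp [ha.2]⟩
    simp only [Multiset.map_cons, Multiset.prod_cons, Multiset.sum_cons, norm_mul, Complex.add_re,
      mul_add, Real.exp_add]
    have e1 : ‖(t : ℂ) - ((-s : ℝ) : ℂ)‖ = t + s := by
      rw [← Complex.ofReal_sub, Complex.norm_real, Real.norm_eq_abs, abs_of_nonneg (by linarith)]
      ring
    have e2 : ‖(0 : ℂ) - ((-s : ℝ) : ℂ)‖ = s := by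
      rw [← Complex.ofReal_zero, ← Complex.ofReal_sub, Complex.norm_real, Real.norm_eq_abs,
        abs_of_nonneg (by linarith)]
      ring
    have e3 : (1 / ((0 : ℂ) - ((-s : ℝ) : ℂ))).re = 1 / s := by
      rw [← Complex.ofReal_zero, ← Complex.ofReal_sub, ← Complex.ofReal_one, ← Complex.ofReal_div,
        Complex.ofReal_re]
      ring
    rw [e1, e2, e3]
    have h4 : t + s ≤ s * Real.exp (t * (1 / s)) := by
      have := Real.add_one_le_exp (t * (1 / s))
      calc t + s = s * (t * (1 / s) + 1) := by field_simp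
        _ ≤ _ := by gcongr
    calc (t + s) * ‖(M.map fun w => (t : ℂ) - w).prod‖
        ≤ (s * Real.exp (t * (1 / s))) * (‖(M.map fun w => 0 - w).prod‖ *
          Real.exp (t * ((M.map fun w => 1 / (0 - w)).sum).re)) := by gcongr
      _ = _ := by ring

lemma update_cast (x : ℕ → ℝ) (r : ℕ) (t : ℝ) :
    Function.update (fun j => (x j : ℂ)) r (t : ℂ) = fun j => ((Function.update x r t j : ℝ) : ℂ) := by
  ext j
  by_cases hj : j = r
  · subst hj
    simp
  · simp [Function.update_of_ne hj]

/-- the main estimate -/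
lemma Q_update_le {A : ι → ℕ → ℝ} (hA : ∀ i j, 0 < A i j) {n r : ℕ} (hn : Fintype.card ι = n)
    (hr : r + 1 < n) {x : ℕ → ℝ} (hx : ∀ j, 0 < x j) {t : ℝ} (ht : 0 ≤ t)
    (hq : 0 < Q A n r (Function.update x r 0)) (hqt : 0 ≤ Q A n r (Function.update x r t)) :
    Q A n r (Function.update x r t) ≤ Q A n r (Function.update x r 0) *
      Real.exp (t * (Q A n (r + 1) x / Q A n r (Function.update x r 0))) := by
  set P := Rp (fun i j => (A i j : ℂ)) n r (fun j => (x j : ℂ)) with hP
  have ev : ∀ s : ℝ, P.eval (s : ℂ) = ((Q A n r (Function.update x r s) : ℝ) : ℂ) := by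
    intro s
    rw [hP, eval_Rp _ (by omega), map_Q, update_cast]
  have ev0 : P.eval 0 = ((Q A n r (Function.update x r 0) : ℝ) : ℂ) := by
    have := ev 0
    rwa [Complex.ofReal_zero] at this
  have hP0 : P.eval 0 ≠ 0 := by
    rw [ev0]
    exact_mod_cast hq.ne'
  have hPne : P ≠ 0 := by
    rintro h
    rw [h] at hP0
    simp at hP0
  have hroots : ∀ w ∈ P.roots, w.re < 0 ∧ w.im = 0 := by
    intro w hw
    rw [mem_roots hPne] at hw
    exact root_neg hA hn hr hx hw
  have hs := (IsAlgClosed.splits P).eval_derivative_div_eval_of_ne_zero hP0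
  have hd : P.derivative.eval 0 = ((Q A n (r + 1) x : ℝ) : ℂ) := by
    rw [hP, eval_derivative_Rp, map_Q]
  rw [hd, ev0, ← Complex.ofReal_div] at hs
  have h1 := prod_le_exp ht P.roots hroots
  rw [← hs, Complex.ofReal_re] at h1
  have h2 := (IsAlgClosed.splits P).eval_eq_prod_roots (t : ℂ)
  have h3 := (IsAlgClosed.splits P).eval_eq_prod_roots 0
  have h4 : ‖P.eval (t : ℂ)‖ ≤ ‖P.eval 0‖ *
      Real.exp (t * (Q A n (r + 1) x / Q A n r (Function.update x r 0))) := by
    rw [h2, h3, norm_mul, norm_mul, mul_assoc]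
    exact mul_le_mul_of_nonneg_left h1 (norm_nonneg _)
  rw [ev, ev0, Complex.norm_real, Complex.norm_real, Real.norm_eq_abs, Real.norm_eq_abs,
    abs_of_nonneg hqt, abs_of_pos hq] at h4
  exact h4

omit [Fintype ι] [DecidableEq ι] in
lemma L_pos {A : ι → ℕ → ℝ} (hA : ∀ i j, 0 < A i j) {n r : ℕ} (hr : r < n) {x : ℕ → ℝ}
    (hx : ∀ j, 0 < x j) (i : ι) : 0 < L A n r i x := by
  unfold L
  exact sum_pos (fun j _ => mul_pos (hA i j) (hx j)) ⟨r, mem_Ico.2 ⟨le_rfl, hr⟩⟩

lemma base {A : ι → ℕ → ℝ} (hA : ∀ i j, 0 < A i j) {n : ℕ}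
    (hrow : ∀ i, ∑ j ∈ range n, A i j = 1) (hcol : ∀ j, j < n → ∑ i, A i j = 1)
    {x : ℕ → ℝ} (hx : ∀ j, 0 < x j) : ∏ j ∈ Ico 0 n, x j ≤ Q A n 0 x := by
  have h1 : Q A n 0 x = ∏ i, L A n 0 i x := by
    unfold Q
    rw [sum_eq_single (univ : Finset ι)]
    · simp [W]
    · intro T _ hT
      simp [W, hT]
    · intro h
      exact absurd (mem_univ _) h
  rw [h1, ← range_eq_Ico]
  have h2 : ∀ i, ∏ j ∈ range n, x j ^ A i j ≤ L A n 0 i x := by
    intro i
    unfold L
    rw [← range_eq_Ico]
    exact Real.geom_mean_le_arith_mean_weighted _ _ _ (fun j _ => (hA i j).le) (hrow i)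
      (fun j _ => (hx j).le)
  calc ∏ j ∈ range n, x j = ∏ i, ∏ j ∈ range n, x j ^ A i j := by
        rw [prod_comm]
        refine prod_congr rfl fun j hj => ?_
        rw [← Real.rpow_sum_of_pos (hx j), hcol j (mem_range.1 hj), Real.rpow_one]
    _ ≤ _ := prod_le_prod (fun i _ => prod_nonneg fun j _ => Real.rpow_nonneg (hx j).le _)
        (fun i _ => h2 i)

lemma chain {A : ι → ℕ → ℝ} (hA : ∀ i j, 0 < A i j) {n : ℕ} (hn : Fintype.card ι = n)
    (hrow : ∀ i, ∑ j ∈ range n, A i j = 1) (hcol : ∀ j, j < n → ∑ i, A i j = 1) (r : ℕ) :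
    r < n → ∀ x : ℕ → ℝ, (∀ j, 0 < x j) →
      Real.exp (-(r : ℝ)) * ∏ j ∈ Ico r n, x j ≤ Q A n r x := by
  induction r with
  | zero =>
    intro _ x hx
    simpa using base hA hrow hcol hx
  | succ r ih =>
    intro hr x hx
    have hup : ∀ t : ℝ, 0 < t → ∀ j, 0 < Function.update x r t j := by
      intro t ht j
      by_cases hj : j = r
      · subst hj
        simpa using ht
      · rw [Function.update_of_ne hj]
        exact hx j
    have ha : 0 < Q A n r (Function.update x r 0) := by
      unfold Q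
      refine sum_W_pos hA (by omega) _ fun i => ?_
      rw [L_update A (by omega), mul_zero, add_zero]
      exact L_pos hA hr hx i
    have hb : 0 < Q A n (r + 1) x := by
      unfold Q
      exact sum_W_pos hA (by omega) _ fun i => L_pos hA hr hx i
    set a := Q A n r (Function.update x r 0) with hadef
    set b := Q A n (r + 1) x with hbdef
    have ht : 0 < a / b := div_pos ha hb
    have h1 := ih (by omega) (Function.update x r (a / b)) (hup _ ht)
    have hqt : 0 ≤ Q A n r (Function.update x r (a / b)) := by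
      unfold Q
      exact (sum_W_pos hA (by omega) _ fun i => L_pos hA (by omega) (hup _ ht) i).le
    have h2 := Q_update_le hA hn hr hx ht.le ha hqt
    rw [← hadef, ← hbdef] at h2
    have h3 : a / b * (b / a) = 1 := by field_simp
    rw [h3] at h2
    have h4 : ∏ j ∈ Ico r n, Function.update x r (a / b) j
        = a / b * ∏ j ∈ Ico (r + 1) n, x j := by
      rw [prod_eq_prod_Ico_succ_bot (by omega), Function.update_self]
      congr 1
      refine prod_congr rfl fun j hj => ?_
      rw [mem_Ico] at hj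
      rw [Function.update_of_ne (by omega)]
    rw [h4] at h1
    have h5 := h1.trans h2
    have h6 : Real.exp (-((r + 1 : ℕ) : ℝ)) = Real.exp (-(r : ℝ)) / Real.exp 1 := by
      rw [← Real.exp_sub]
      congr 1
      push_cast
      ring
    rw [h6]
    have he : 0 < Real.exp 1 := Real.exp_pos 1
    rw [div_mul_eq_mul_div, div_le_iff₀ he]
    have h7 : Real.exp (-(r : ℝ)) * ∏ j ∈ Ico (r + 1) n, x j
        = (Real.exp (-(r : ℝ)) * (a / b * ∏ j ∈ Ico (r + 1) n, x j)) * (b / a) := by
      field_simp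
    rw [h7]
    calc _ ≤ (a * Real.exp 1) * (b / a) := by gcongr
      _ = b * Real.exp 1 := by field_simp

lemma last_step (A : ι → ℕ → ℝ) {r : ℕ} (hn : Fintype.card ι = r + 1) :
    W A (r + 1) ∅ = Q A (r + 1) r (fun _ => 1) := by
  unfold Q
  rw [W]
  have h1 : ∀ i, L A (r + 1) r i (fun _ => (1 : ℝ)) = A i r := by
    intro i
    simp [L]
  simp only [h1]
  rw [← sum_subset (subset_univ ((univ : Finset ι).powersetCard 1))]
  · rw [powersetCard_one, sum_map, compl_empty]
    refine sum_congr rfl fun i _ => ?_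
    simp [mul_comm]
  · intro T _ hT
    by_cases hW : W A r T = 0
    · simp [hW]
    · exfalso
      apply hT
      rw [mem_powersetCard]
      exact ⟨subset_univ _, by have := card_of_W_ne A r T hW; omega⟩

/-- **The permanent of a positive doubly stochastic matrix is at least `exp (-n)`.** -/
theorem per_ge {A : ι → ℕ → ℝ} (hA : ∀ i j, 0 < A i j) {n : ℕ} (hn : Fintype.card ι = n)
    (hrow : ∀ i, ∑ j ∈ range n, A i j = 1) (hcol : ∀ j, j < n → ∑ i, A i j = 1) :
    Real.exp (-(n : ℝ)) ≤ W A n ∅ := by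
  cases n with
  | zero =>
    have : (∅ : Finset ι) = univ := by
      rw [← card_eq_iff_eq_univ]
      simp [hn]
    simp [W, this]
  | succ r =>
    have h := chain hA hn hrow hcol r (Nat.lt_succ_self r) (fun _ => 1) (fun _ => one_pos)
    rw [prod_const_one, mul_one] at h
    rw [last_step A hn]
    refine le_trans ?_ h
    rw [Real.exp_le_exp]
    push_cast
    linarith

end real

end VdW

end BESL
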