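import Pool.Agent.Lib.MP_c82047_co_LS.Defs
import Pool.Agent.Lib.MP_c82047_co_LS.Per

/-!
# MP_c82047_co, project LS, module V5: injective selections from a regular set system
-/

set_option autoImplicit false

namespace BESL

open Finset

namespace Reg

/-- the matrix `(1 - ε) B / k + ε J / n`, with `B` the incidence matrix -/
noncomputable def M {n : ℕ} (k : ℕ) (A : Fin n → Finset (Fin n)) (ε : ℝ) (i : Fin n) (j : ℕ) : ℝ :=
  if h : j < n then (1 - ε) * (if i ∈ A ⟨j, h⟩ then 1 / (k : ℝ) else 0) + ε / n else 1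

lemma M_pos {n k : ℕ} (A : Fin n → Finset (Fin n)) {ε : ℝ} (h0 : 0 < ε)
    (h1 : ε ≤ 1) (i : Fin n) (j : ℕ) : 0 < M k A ε i j := by
  unfold M
  split_ifs with h
  · have hn : 0 < (n : ℝ) := by exact_mod_cast i.pos
    have : 0 ≤ (1 - ε) * (1 / (k : ℝ)) := mul_nonneg (by linarith) (by positivity)
    have : 0 < ε / n := by positivity
    linarith
  · have hn : 0 < (n : ℝ) := by exact_mod_cast i.pos
    have : 0 < ε / n := by positivity
    linarith
  · exact one_pos

lemma row_sum {n k : ℕ} (hk : 1 ≤ k) (A : Fin n → Finset (Fin n))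
    (h2 : ∀ i, (univ.filter fun j => i ∈ A j).card = k) (ε : ℝ) (i : Fin n) :
    ∑ j ∈ range n, M k A ε i j = 1 := by
  have hn : (n : ℝ) ≠ 0 := by exact_mod_cast i.pos.ne'
  have hk' : (k : ℝ) ≠ 0 := by positivity
  rw [sum_range]
  have h3 : ∀ j : Fin n, M k A ε i j = (1 - ε) * (if i ∈ A j then 1 / (k : ℝ) else 0) + ε / n := by
    intro j
    unfold M
    rw [dif_pos j.2]
  simp only [h3]
  rw [sum_add_distrib, ← mul_sum, ← sum_filter, sum_const, sum_const, h2, card_univ,
    Fintype.card_fin]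
  simp only [nsmul_eq_mul]
  field_simp
  ring

lemma col_sum {n k : ℕ} (hk : 1 ≤ k) (A : Fin n → Finset (Fin n))
    (h1 : ∀ j, (A j).card = k) (ε : ℝ) (j : ℕ) (hj : j < n) :
    ∑ i, M k A ε i j = 1 := by
  have hn : (n : ℝ) ≠ 0 := by
    have : n ≠ 0 := by omega
    exact_mod_cast this
  have hk' : (k : ℝ) ≠ 0 := by positivity
  have h3 : ∀ i : Fin n, M k A ε i j =
      (1 - ε) * (if i ∈ A ⟨j, hj⟩ then 1 / (k : ℝ) else 0) + ε / n := by
    intro i
    unfold M
    rw [dif_pos hj]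
  simp only [h3]
  rw [sum_add_distrib, ← mul_sum, ← sum_filter, sum_const, sum_const, filter_mem_eq_inter,
    univ_inter, h1, card_univ, Fintype.card_fin]
  simp only [nsmul_eq_mul]
  field_simp
  ring

lemma W_sum {n : ℕ} (k : ℕ) (A : Fin n → Finset (Fin n)) (ε : ℝ) :
    VdW.W (M k A ε) n ∅ = ∑ f : Fin n → Fin n,
      if Function.Injective f then ∏ j, M k A ε (f j) j else 0 := by
  rw [VdW.W_eq]
  refine sum_congr rfl fun f _ => ?_
  by_cases hf : Function.Injective f
  · rw [if_pos hf, if_pos]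
    refine ⟨hf, fun i => ?_⟩
    simpa using (Finite.injective_iff_surjective.1 hf) i
  · rw [if_neg hf, if_neg fun h => hf h.1]

lemma cont {n : ℕ} (k : ℕ) (A : Fin n → Finset (Fin n)) :
    Continuous fun ε => VdW.W (M k A ε) n ∅ := by
  simp only [W_sum]
  refine continuous_finsetSum _ fun f _ => ?_
  by_cases hf : Function.Injective f
  · simp only [if_pos hf]
    refine continuous_finsetProd _ fun j _ => ?_
    unfold M
    simp only [j.2, dif_pos]
    fun_prop
  · simp only [if_neg hf]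
    exact continuous_const

end Reg

theorem reg_sdr {n k : ℕ} (hk : 1 ≤ k) (A : Fin n → Finset (Fin n))
    (h1 : ∀ j, (A j).card = k) (h2 : ∀ i, (univ.filter fun j => i ∈ A j).card = k) :
    ((k : ℝ) / Real.exp 1) ^ n ≤ ((sdr A).card : ℝ) := by
  have hlim : Real.exp (-(n : ℝ)) ≤ VdW.W (Reg.M k A 0) n ∅ := by
    have hc := (Reg.cont k A).tendsto 0
    have hc' := hc.mono_left (nhdsWithin_le_nhds (s := Set.Ioi (0 : ℝ)))
    refine ge_of_tendsto hc' ?_
    have hmem : Set.Ioo (0 : ℝ) 1 ∈ nhdsWithin (0 : ℝ) (Set.Ioi 0) := Ioo_mem_nhdsGT one_pos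
    filter_upwards [hmem] with ε hε
    exact VdW.per_ge (fun i j => Reg.M_pos A hε.1 hε.2.le i j) (Fintype.card_fin n)
      (Reg.row_sum hk A h2 ε) (Reg.col_sum hk A h1 ε)
  have hk' : (k : ℝ) ≠ 0 := by positivity
  have hval : VdW.W (Reg.M k A 0) n ∅ = (1 / (k : ℝ)) ^ n * ((sdr A).card : ℝ) := by
    rw [Reg.W_sum, sdr, card_filter, Nat.cast_sum, mul_sum]
    refine sum_congr rfl fun f _ => ?_
    by_cases hf : Function.Injective f
    · rw [if_pos hf]
      have h3 : ∀ j : Fin n, Reg.M k A 0 (f j) j = if f j ∈ A j then 1 / (k : ℝ) else 0 := by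
        intro j
        unfold Reg.M
        rw [dif_pos j.2]
        simp
      simp only [h3]
      by_cases hA : ∀ j, f j ∈ A j
      · rw [if_pos ⟨hf, hA⟩, prod_congr rfl fun j _ => if_pos (hA j), prod_const, card_univ,
          Fintype.card_fin]
        simp
      · rw [if_neg fun h => hA h.2]
        push Not at hA
        obtain ⟨j, hj⟩ := hA
        rw [prod_eq_zero (mem_univ j) (if_neg hj)]
        simp
    · rw [if_neg hf, if_neg fun h => hf h.1]
      simp
  rw [hval] at hlim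
  have h4 : ((k : ℝ) / Real.exp 1) ^ n = (k : ℝ) ^ n * Real.exp (-(n : ℝ)) := by
    rw [div_pow, ← Real.exp_nat_mul, mul_one, Real.exp_neg]
    rfl
  rw [h4]
  calc (k : ℝ) ^ n * Real.exp (-(n : ℝ)) ≤ (k : ℝ) ^ n * ((1 / (k : ℝ)) ^ n * ((sdr A).card : ℝ)) := by
        gcongr
    _ = ((sdr A).card : ℝ) := by
        rw [← mul_assoc, ← mul_pow, mul_one_div_cancel hk', one_pow, one_mul]

end BESL
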