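import Pool.Agent.Lib.MP_c82047_co_LS.Basic

/-!
# MP_c82047_co, project LS, module WS: the container step

One run of the algorithm (Saxton-Thomason, Balogh-Morris-Samotij), in the form of a family of
pairs `(X, g)`: `X` is a set of vertices outside of `I`, and `g` an `r`-uniform weight for which
`I` is independent.
-/

set_option autoImplicit false

namespace BESL

open Finset

namespace Step

variable {V : Type} [Fintype V] [DecidableEq V]

open Classical in
/-- saturated sets -/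
noncomputable def Sat (D' : ℕ → ℝ) (g : Finset V → ℝ) : Finset (Finset V) :=
  univ.filter fun s => s.Nonempty ∧ D' s.card ≤ deg g s

theorem mem_Sat (D' : ℕ → ℝ) (g : Finset V → ℝ) (s : Finset V) :
    s ∈ Sat D' g ↔ s.Nonempty ∧ D' s.card ≤ deg g s := by
  simp [Sat]

/-- the states of the algorithm -/
structure Stt (r : ℕ) (w : Finset V → ℝ) (E0 : ℝ) (D D' : ℕ → ℝ) (b : ℕ)
    (W : Finset V) (wc g : Finset V → ℝ) (X : Finset V) (t : ℕ) : Prop where
  wcw : ∀ E, wc E ≤ w E
  wcu : Unif (r + 1) wc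
  wcW : ∀ E, wc E ≠ 0 → E ⊆ W
  sat : ∀ s, s ∈ Sat D' g → deg wc s = 0
  gu : Unif r g
  gd : ∀ s : Finset V, s.Nonempty → deg g s ≤ D' s.card + D (s.card + 1)
  gs : supp g ⊆ supp w
  iv : tot w ≤ tot wc + D 1 * (X.card : ℝ) + D 1 * (t : ℝ) + ∑ s ∈ Sat D' g, D s.card
  lo : (t : ℝ) * (E0 / (2 * (Fintype.card V : ℝ))) ≤ tot g
  hi : tot g ≤ D 1 * (t : ℝ)
  Xs : X ⊆ supp w
  XW : Disjoint X W
  tb : t ≤ b

theorem mem_supp (w : Finset V → ℝ) (u : V) : u ∈ supp w ↔ 0 < deg w {u} := by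
  simp [supp]

theorem deg_singleton_ne (w : Finset V → ℝ) {u : V} (h : deg w {u} ≠ 0) :
    ∃ E, u ∈ E ∧ w E ≠ 0 := by
  by_contra hne
  push Not at hne
  apply h
  unfold deg
  apply Finset.sum_eq_zero
  intro E _
  by_cases hu : ({u} : Finset V) ⊆ E
  · rw [if_pos hu]
    exact hne E (Finset.singleton_subset_iff.1 hu)
  · rw [if_neg hu]

theorem sum_sat_le {r : ℕ} {g : Finset V → ℝ} (hg : Unif r g) (D D' : ℕ → ℝ)
    (hD : ∀ j, 0 ≤ D j) (hD' : ∀ j, 0 < D' j) :
    ∑ s ∈ Sat D' g, D s.card ≤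
      ∑ j ∈ Finset.Icc 1 r, (D j / D' j) * ((r.choose j : ℝ) * tot g) := by
  classical
  have h1 : ∀ s ∈ Sat D' g, s.card ∈ Finset.Icc 1 r := by
    intro s hs
    rw [mem_Sat] at hs
    rw [Finset.mem_Icc]
    refine ⟨Finset.card_pos.2 hs.1, ?_⟩
    by_contra hlt
    push Not at hlt
    have := deg_eq_zero hg hlt
    rw [this] at hs
    exact absurd hs.2 (not_le.2 (hD' _))
  rw [← Finset.sum_fiberwise_of_maps_to h1]
  apply Finset.sum_le_sum
  intro j hj
  rw [← sum_deg hg j, Finset.mul_sum]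
  calc ∑ s ∈ (Sat D' g).filter (fun s => s.card = j), D s.card
      ≤ ∑ s ∈ (Sat D' g).filter (fun s => s.card = j), D j / D' j * deg g s := by
        apply Finset.sum_le_sum
        intro s hs
        rw [Finset.mem_filter, mem_Sat] at hs
        obtain ⟨⟨_, h3⟩, h4⟩ := hs
        rw [h4] at h3 ⊢
        calc D j = D j / D' j * D' j := by
              rw [div_mul_cancel₀ _ (hD' j).ne']
          _ ≤ _ := mul_le_mul_of_nonneg_left h3 (div_nonneg (hD j) (hD' j).le)
    _ ≤ _ := by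
        apply Finset.sum_le_sum_of_subset_of_nonneg
        · intro s hs
          rw [Finset.mem_filter] at hs
          rw [Finset.mem_powersetCard]
          exact ⟨Finset.subset_univ _, hs.2⟩
        · intro s _ _
          exact mul_nonneg (div_nonneg (hD j) (hD' j).le) (deg_nonneg hg.nonneg s)

theorem branchA {r : ℕ} {w : Finset V → ℝ} {E0 : ℝ} {D D' : ℕ → ℝ} {b : ℕ}
    (hdeg : ∀ σ : Finset V, σ.Nonempty → deg w σ ≤ D σ.card)
    {W : Finset V} {wc g : Finset V → ℝ} {X : Finset V} {t : ℕ}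
    (h : Stt r w E0 D D' b W wc g X t) {u : V} (huW : u ∈ W) (hus : u ∈ supp w) :
    Stt r w E0 D D' b (W.erase u)
      (dl wc fun E => ∃ σ ∈ ({{u}} : Finset (Finset V)), σ ⊆ E) g (insert u X) t := by
  have hle := dl_le h.wcu.nonneg (fun E => ∃ σ ∈ ({{u}} : Finset (Finset V)), σ ⊆ E)
  have huni := unif_dl h.wcu (fun E => ∃ σ ∈ ({{u}} : Finset (Finset V)), σ ⊆ E)
  refine ⟨fun E => (hle E).trans (h.wcw E), huni, ?_, ?_, h.gu, h.gd, h.gs, ?_, h.lo, h.hi, ?_,
    ?_, h.tb⟩
  · intro E hE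
    have h1 : ¬ ∃ σ ∈ ({{u}} : Finset (Finset V)), σ ⊆ E := by
      intro hc
      exact hE (by unfold dl; rw [if_pos hc])
    have h2 : wc E ≠ 0 := by
      intro hc
      exact hE (by unfold dl; rw [if_neg h1, hc])
    intro x hx
    rw [Finset.mem_erase]
    refine ⟨?_, h.wcW E h2 hx⟩
    rintro rfl
    exact h1 ⟨{x}, Finset.mem_singleton_self _, Finset.singleton_subset_iff.2 hx⟩
  · intro s hs
    have h1 := h.sat s hs
    have h2 := deg_mono hle s
    have h3 := deg_nonneg huni.nonneg s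
    linarith
  · have h1 := tot_le_tot_dl h.wcu.nonneg ({{u}} : Finset (Finset V))
    rw [Finset.sum_singleton] at h1
    have h2 := deg_mono h.wcw {u}
    have h3 := hdeg {u} (Finset.singleton_nonempty u)
    rw [Finset.card_singleton] at h3
    have huX : u ∉ X := fun hx => (Finset.disjoint_left.1 h.XW hx) huW
    rw [Finset.card_insert_of_notMem huX]
    push_cast
    have h4 := h.iv
    linarith
  · intro x hx
    rcases Finset.mem_insert.1 hx with rfl | hx
    · exact hus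
    · exact h.Xs hx
  · rw [Finset.disjoint_left]
    intro x hx hx'
    rw [Finset.mem_erase] at hx'
    rcases Finset.mem_insert.1 hx with rfl | hx
    · exact hx'.1 rfl
    · exact Finset.disjoint_left.1 h.XW hx hx'.2

theorem branchB {r : ℕ} {w : Finset V → ℝ} {E0 : ℝ} {D D' : ℕ → ℝ} {b : ℕ}
    (hD : ∀ j, 0 ≤ D j)
    (hdeg : ∀ σ : Finset V, σ.Nonempty → deg w σ ≤ D σ.card)
    {W : Finset V} {wc g : Finset V → ℝ} {X : Finset V} {t : ℕ}
    (h : Stt r w E0 D D' b W wc g X t) {u : V}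
    (hu : E0 / (2 * (Fintype.card V : ℝ)) ≤ deg wc {u}) (htb : t < b) :
    Stt r w E0 D D' b (W.erase u)
      (dl wc fun E => ∃ σ ∈ insert {u} (Sat D' (fun E => g E + lnk wc u E) \ Sat D' g), σ ⊆ E)
      (fun E => g E + lnk wc u E) X (t + 1) := by
  classical
  set S : Finset (Finset V) := insert {u} (Sat D' (fun E => g E + lnk wc u E) \ Sat D' g) with hS
  have hle := dl_le h.wcu.nonneg (fun E => ∃ σ ∈ S, σ ⊆ E)
  have huni := unif_dl h.wcu (fun E => ∃ σ ∈ S, σ ⊆ E)
  have hlu := unif_lnk h.wcu u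
  have hlnk0 : ∀ s, 0 ≤ deg (lnk wc u) s := fun s => deg_nonneg hlu.nonneg s
  have hadd : ∀ s, deg (fun E => g E + lnk wc u E) s = deg g s + deg (lnk wc u) s :=
    fun s => deg_add g (lnk wc u) s
  have hlnkle : ∀ s, deg (lnk wc u) s ≤ deg wc s := fun s =>
    (deg_lnk_le h.wcu.nonneg u s).trans (deg_anti h.wcu.nonneg (Finset.subset_insert u s))
  refine ⟨fun E => (hle E).trans (h.wcw E), huni, ?_, ?_, unif_add h.gu hlu, ?_, ?_, ?_, ?_, ?_,
    h.Xs, ?_, htb⟩
  · intro E hE
    have h1 : ¬ ∃ σ ∈ S, σ ⊆ E := by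
      intro hc
      exact hE (by unfold dl; rw [if_pos hc])
    have h2 : wc E ≠ 0 := by
      intro hc
      exact hE (by unfold dl; rw [if_neg h1, hc])
    intro x hx
    rw [Finset.mem_erase]
    refine ⟨?_, h.wcW E h2 hx⟩
    rintro rfl
    exact h1 ⟨{x}, Finset.mem_insert_self _ _, Finset.singleton_subset_iff.2 hx⟩
  · intro s hs
    by_cases hsg : s ∈ Sat D' g
    · have h1 := h.sat s hsg
      have h2 := deg_mono hle s
      have h3 := deg_nonneg huni.nonneg s
      linarith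
    · have hsS : s ∈ S := Finset.mem_insert_of_mem (Finset.mem_sdiff.2 ⟨hs, hsg⟩)
      unfold deg
      apply Finset.sum_eq_zero
      intro E _
      by_cases hsE : s ⊆ E
      · rw [if_pos hsE]
        unfold dl
        rw [if_pos ⟨s, hsS, hsE⟩]
      · rw [if_neg hsE]
  · intro s hs
    rw [hadd]
    by_cases hsg : s ∈ Sat D' g
    · have h1 := h.sat s hsg
      have h2 := hlnkle s
      have h3 := hlnk0 s
      have h4 := h.gd s hs
      linarith
    · have h1 : deg g s < D' s.card := by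
        by_contra hc
        push Not at hc
        exact hsg ((mem_Sat D' g s).2 ⟨hs, hc⟩)
      have h2 : deg (lnk wc u) s ≤ D (s.card + 1) := by
        by_cases hus : u ∈ s
        · rw [deg_lnk_of_mem wc hus]
          exact hD _
        · have h3 := deg_lnk_le h.wcu.nonneg u s
          have h4 := deg_mono h.wcw (insert u s)
          have h5 := hdeg (insert u s) (Finset.insert_nonempty u s)
          rw [Finset.card_insert_of_notMem hus] at h5
          linarith
      linarith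
  · intro v hv
    rw [mem_supp] at hv ⊢
    rw [hadd] at hv
    by_cases hg : 0 < deg g {v}
    · exact (mem_supp w v).1 (h.gs ((mem_supp g v).2 hg))
    · have h1 := hlnkle {v}
      have h2 := deg_mono h.wcw {v}
      push Not at hg
      linarith
  · have h1 := tot_le_tot_dl h.wcu.nonneg S
    have h2 : ∑ σ ∈ S, deg wc σ ≤
        D 1 + ∑ σ ∈ Sat D' (fun E => g E + lnk wc u E) \ Sat D' g, D σ.card := by
      have h3 : ∑ σ ∈ S, deg wc σ ≤ deg wc {u} +
          ∑ σ ∈ Sat D' (fun E => g E + lnk wc u E) \ Sat D' g, deg wc σ := by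
        by_cases hm : ({u} : Finset V) ∈ Sat D' (fun E => g E + lnk wc u E) \ Sat D' g
        · rw [hS, Finset.insert_eq_of_mem hm]
          have := deg_nonneg h.wcu.nonneg {u}
          linarith
        · rw [hS, Finset.sum_insert hm]
      have h4 : deg wc {u} ≤ D 1 := by
        have h5 := deg_mono h.wcw {u}
        have h6 := hdeg {u} (Finset.singleton_nonempty u)
        rw [Finset.card_singleton] at h6
        linarith
      have h5 : ∑ σ ∈ Sat D' (fun E => g E + lnk wc u E) \ Sat D' g, deg wc σ ≤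
          ∑ σ ∈ Sat D' (fun E => g E + lnk wc u E) \ Sat D' g, D σ.card := by
        apply Finset.sum_le_sum
        intro σ hσ
        rw [Finset.mem_sdiff, mem_Sat] at hσ
        exact (deg_mono h.wcw σ).trans (hdeg σ hσ.1.1)
      linarith
    have h3 : Sat D' g ⊆ Sat D' (fun E => g E + lnk wc u E) := by
      intro s hs
      rw [mem_Sat] at hs ⊢
      refine ⟨hs.1, ?_⟩
      rw [hadd]
      have := hlnk0 s
      linarith [hs.2]
    have h4 := Finset.sum_sdiff (f := fun σ : Finset V => D σ.card) h3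
    have h5 := h.iv
    push_cast
    linarith
  · have h1 : tot (fun E => g E + lnk wc u E) = tot g + deg wc {u} := by
      rw [tot_add, tot_lnk]
    rw [h1]
    have h2 := h.lo
    push_cast
    linarith
  · have h1 : tot (fun E => g E + lnk wc u E) = tot g + deg wc {u} := by
      rw [tot_add, tot_lnk]
    rw [h1]
    have h2 := h.hi
    have h5 := deg_mono h.wcw {u}
    have h6 := hdeg {u} (Finset.singleton_nonempty u)
    rw [Finset.card_singleton] at h6
    push_cast
    linarith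
  · exact Finset.disjoint_of_subset_right (Finset.erase_subset _ _) h.XW

/-- the choice of the vertex -/
theorem exists_vertex {r : ℕ} {w : Finset V → ℝ} {E0 : ℝ} (hE0 : 0 < E0) (hE : E0 ≤ tot w)
    {D D' : ℕ → ℝ} (hD : ∀ j, 0 ≤ D j) (hD' : ∀ j, 0 < D' j) {b : ℕ}
    (h1 : (b : ℝ) * D 1 ≤ E0 / 8)
    (h2 : ∑ j ∈ Finset.Icc 1 r, (r.choose j : ℝ) * (D j / D' j) * (b * D 1) ≤ E0 / 8)
    {W : Finset V} {wc g : Finset V → ℝ} {X : Finset V} {t : ℕ}
    (h : Stt r w E0 D D' b W wc g X t) (hX : ¬ E0 ≤ 4 * D 1 * (X.card : ℝ)) :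
    ∃ u, E0 / (2 * (Fintype.card V : ℝ)) ≤ deg wc {u} ∧ u ∈ W ∧ u ∈ supp w := by
  classical
  push Not at hX
  have htb : (t : ℝ) ≤ b := by exact_mod_cast h.tb
  have h3 : D 1 * (t : ℝ) ≤ b * D 1 := by
    rw [mul_comm]
    exact mul_le_mul_of_nonneg_right htb (hD 1)
  have h4 : ∑ s ∈ Sat D' g, D s.card ≤ E0 / 8 := by
    refine (sum_sat_le h.gu D D' hD hD').trans (le_trans ?_ h2)
    apply Finset.sum_le_sum
    intro j _
    have h5 : tot g ≤ b * D 1 := h.hi.trans h3
    calc D j / D' j * ((r.choose j : ℝ) * tot g)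
        ≤ D j / D' j * ((r.choose j : ℝ) * (b * D 1)) := by
          apply mul_le_mul_of_nonneg_left _ (div_nonneg (hD j) (hD' j).le)
          exact mul_le_mul_of_nonneg_left h5 (Nat.cast_nonneg _)
      _ = _ := by ring
  have h5 : E0 / 2 ≤ tot wc := by
    have := h.iv
    nlinarith [h.iv]
  have h6 := sum_deg_singleton h.wcu
  have h7 : E0 / 2 ≤ ∑ u, deg wc {u} := by
    rw [h6]
    have h8 : (1 : ℝ) ≤ ((r + 1 : ℕ) : ℝ) := by push_cast; linarith [Nat.cast_nonneg (α := ℝ) r]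
    nlinarith
  have hne : (Finset.univ : Finset V).Nonempty := by
    by_contra hc
    rw [Finset.not_nonempty_iff_eq_empty] at hc
    rw [hc, Finset.sum_empty] at h7
    linarith
  have hN : (0 : ℝ) < (Fintype.card V : ℝ) := by
    exact_mod_cast Finset.card_pos.2 hne
  have h8 : ∑ _u : V, E0 / (2 * (Fintype.card V : ℝ)) ≤ ∑ u, deg wc {u} := by
    rw [Finset.sum_const, Finset.card_univ, nsmul_eq_mul]
    have : (Fintype.card V : ℝ) * (E0 / (2 * (Fintype.card V : ℝ))) = E0 / 2 := by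
      field_simp
    linarith
  obtain ⟨u, _, hu⟩ := Finset.exists_le_of_sum_le hne h8
  have hpos : 0 < deg wc {u} := lt_of_lt_of_le (by positivity) hu
  refine ⟨u, hu, ?_, ?_⟩
  · obtain ⟨E, huE, hE'⟩ := deg_singleton_ne wc hpos.ne'
    exact h.wcW E hE' huE
  · rw [mem_supp]
    exact lt_of_lt_of_le hpos (deg_mono h.wcw {u})

theorem claim {r : ℕ} {w : Finset V → ℝ} {E0 : ℝ} (hE0 : 0 < E0) (hE : E0 ≤ tot w)
    {D D' : ℕ → ℝ} (hD : ∀ j, 0 ≤ D j) (hD' : ∀ j, 0 < D' j)
    (hdeg : ∀ σ : Finset V, σ.Nonempty → deg w σ ≤ D σ.card) {b : ℕ}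
    (h1 : (b : ℝ) * D 1 ≤ E0 / 8)
    (h2 : ∑ j ∈ Finset.Icc 1 r, (r.choose j : ℝ) * (D j / D' j) * (b * D 1) ≤ E0 / 8) (M : ℕ) :
    ∀ (W : Finset V) (wc g : Finset V → ℝ) (X : Finset V) (t : ℕ), W.card = M →
      Stt r w E0 D D' b W wc g X t →
      ∃ O : List (Finset V × (Finset V → ℝ)), O.length ≤ (M + 1) ^ (b - t) ∧
        (∀ X g, (X, g) ∈ O → X ⊆ supp w ∧ (E0 ≤ 4 * D 1 * (X.card : ℝ) ∨
          (Unif r g ∧ b * E0 / (2 * (Fintype.card V : ℝ)) ≤ tot g ∧
            (∀ σ : Finset V, σ.Nonempty → deg g σ ≤ D' σ.card + D (σ.card + 1)) ∧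
            supp g ⊆ supp w))) ∧
        ∀ I : Finset V, Ind w I → Ind g I → Disjoint X I →
          ∃ X g, (X, g) ∈ O ∧ Disjoint X I ∧ Ind g I := by
  classical
  induction M with
  | zero =>
    intro W wc g X t hW h
    by_cases hX : E0 ≤ 4 * D 1 * (X.card : ℝ)
    · refine ⟨[(X, g)], by simp, ?_, ?_⟩
      · intro X' g' hm
        rw [List.mem_singleton] at hm
        obtain ⟨rfl, rfl⟩ := Prod.mk.inj hm
        exact ⟨h.Xs, Or.inl hX⟩
      · intro I _ hg hXI
        exact ⟨X, g, by simp, hXI, hg⟩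
    · obtain ⟨u, _, huW, _⟩ := exists_vertex hE0 hE hD hD' h1 h2 h hX
      rw [Finset.card_eq_zero] at hW
      rw [hW] at huW
      exact absurd huW (Finset.notMem_empty u)
  | succ M ih =>
    intro W wc g X t hW h
    by_cases hX : E0 ≤ 4 * D 1 * (X.card : ℝ)
    · refine ⟨[(X, g)], ?_, ?_, ?_⟩
      · simpa using Nat.one_le_pow _ _ (Nat.succ_pos _)
      · intro X' g' hm
        rw [List.mem_singleton] at hm
        obtain ⟨rfl, rfl⟩ := Prod.mk.inj hm
        exact ⟨h.Xs, Or.inl hX⟩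
      · intro I _ hg hXI
        exact ⟨X, g, by simp, hXI, hg⟩
    by_cases htb : t = b
    · subst htb
      refine ⟨[(X, g)], ?_, ?_, ?_⟩
      · simpa using Nat.one_le_pow _ _ (Nat.succ_pos _)
      · intro X' g' hm
        rw [List.mem_singleton] at hm
        obtain ⟨rfl, rfl⟩ := Prod.mk.inj hm
        refine ⟨h.Xs, Or.inr ⟨h.gu, ?_, h.gd, h.gs⟩⟩
        rw [mul_div_assoc]
        exact h.lo
      · intro I _ hg hXI
        exact ⟨X, g, by simp, hXI, hg⟩
    have htb' : t < b := lt_of_le_of_ne h.tb htb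
    obtain ⟨u, hu, huW, hus⟩ := exists_vertex hE0 hE hD hD' h1 h2 h hX
    have hW' : (W.erase u).card = M := by
      rw [Finset.card_erase_of_mem huW, hW]
      rfl
    obtain ⟨OA, hA1, hA2, hA3⟩ := ih _ _ _ _ _ hW' (branchA hdeg h huW hus)
    obtain ⟨OB, hB1, hB2, hB3⟩ := ih _ _ _ _ _ hW' (branchB hD hdeg h hu htb')
    refine ⟨OA ++ OB, ?_, ?_, ?_⟩
    · rw [List.length_append]
      obtain ⟨k, hk⟩ : ∃ k, b - t = k + 1 := ⟨b - t - 1, by omega⟩
      have hk' : b - (t + 1) = k := by omega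
      rw [hk] at hA1 ⊢
      rw [hk'] at hB1
      calc OA.length + OB.length ≤ (M + 1) ^ (k + 1) + (M + 1) ^ k := Nat.add_le_add hA1 hB1
        _ = (M + 1) ^ k * (M + 2) := by ring
        _ ≤ (M + 1 + 1) ^ k * (M + 2) :=
            Nat.mul_le_mul_right _ (Nat.pow_le_pow_left (Nat.le_succ _) _)
        _ = (M + 1 + 1) ^ (k + 1) := by ring
    · intro X' g' hm
      rcases List.mem_append.1 hm with hm | hm
      · exact hA2 X' g' hm
      · exact hB2 X' g' hm
    · intro I hI hg hXI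
      by_cases huI : u ∈ I
      · have hwcI : Ind wc I := by
          intro E hE
          have h3 := h.wcw E
          rw [hI E hE] at h3
          exact le_antisymm h3 (h.wcu.nonneg E)
        have h4 : Ind (fun E => g E + lnk wc u E) I := by
          intro E hE
          have h5 := ind_lnk hwcI huI E hE
          have h6 := hg E hE
          simp only [h5, h6, add_zero]
        obtain ⟨X', g', hm, hd, hi⟩ := hB3 I hI h4 hXI
        exact ⟨X', g', List.mem_append.2 (Or.inr hm), hd, hi⟩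
      · have h4 : Disjoint (insert u X) I := by
          rw [Finset.disjoint_insert_left]
          exact ⟨huI, hXI⟩
        obtain ⟨X', g', hm, hd, hi⟩ := hA3 I hI hg h4
        exact ⟨X', g', List.mem_append.2 (Or.inl hm), hd, hi⟩

end Step

theorem step {V : Type} [Fintype V] [DecidableEq V] (r : ℕ) (w : Finset V → ℝ)
    (hw : Unif (r + 1) w) (E0 : ℝ) (hE0 : 0 < E0) (hE : E0 ≤ tot w) (D D' : ℕ → ℝ)
    (hD : ∀ j, 0 ≤ D j) (hD' : ∀ j, 0 < D' j)
    (hdeg : ∀ σ : Finset V, σ.Nonempty → deg w σ ≤ D σ.card) (b : ℕ)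
    (h1 : (b : ℝ) * D 1 ≤ E0 / 8)
    (h2 : ∑ j ∈ Finset.Icc 1 r, (r.choose j : ℝ) * (D j / D' j) * (b * D 1) ≤ E0 / 8) :
    ∃ O : List (Finset V × (Finset V → ℝ)), O.length ≤ (Fintype.card V + 1) ^ b ∧
      (∀ X g, (X, g) ∈ O → X ⊆ supp w ∧ (E0 ≤ 4 * D 1 * (X.card : ℝ) ∨
        (Unif r g ∧ b * E0 / (2 * (Fintype.card V : ℝ)) ≤ tot g ∧
          (∀ σ : Finset V, σ.Nonempty → deg g σ ≤ D' σ.card + D (σ.card + 1)) ∧
          supp g ⊆ supp w))) ∧
      ∀ I : Finset V, Ind w I → ∃ X g, (X, g) ∈ O ∧ Disjoint X I ∧ Ind g I := by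
  classical
  have hd0 : ∀ s : Finset V, deg (fun _ => (0 : ℝ)) s = 0 := by
    intro s
    simp [deg]
  have hs0 : Step.Sat (V := V) D' (fun _ => (0 : ℝ)) = ∅ := by
    rw [Finset.eq_empty_iff_forall_notMem]
    intro s hs
    rw [Step.mem_Sat, hd0] at hs
    exact absurd hs.2 (not_le.2 (hD' _))
  have hst : Step.Stt r w E0 D D' b Finset.univ w (fun _ => 0) ∅ 0 := by
    refine ⟨fun E => le_rfl, hw, fun E _ => Finset.subset_univ E, ?_, ⟨fun _ => le_rfl, ?_⟩, ?_,
      ?_, ?_, ?_, ?_, Finset.empty_subset _, Finset.disjoint_empty_left _, Nat.zero_le _⟩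
    · intro s hs
      rw [hs0] at hs
      exact absurd hs (Finset.notMem_empty s)
    · intro E hE
      exact absurd rfl hE
    · intro s _
      rw [hd0]
      exact add_nonneg (hD' _).le (hD _)
    · intro v hv
      rw [Step.mem_supp, hd0] at hv
      exact absurd hv (lt_irrefl _)
    · rw [hs0]
      simp
    · simp [tot]
    · simp [tot]
  obtain ⟨O, hO1, hO2, hO3⟩ := Step.claim hE0 hE hD hD' hdeg h1 h2 (Fintype.card V)
    Finset.univ w (fun _ => 0) ∅ 0 Finset.card_univ hst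
  refine ⟨O, by simpa using hO1, hO2, ?_⟩
  intro I hI
  exact hO3 I hI (fun E _ => rfl) (Finset.disjoint_empty_left I)

end BESL
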