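import Pool.Agent.Lib.MP_c82047_co_LS.Num

/-!
# MP_c82047_co, project LS, module UB: union bound over the containers
-/

set_option autoImplicit false

namespace BESL

open Finset

open Classical in
theorem union_LS {n : ℕ} (hn : 1 ≤ n) (P : Finset (Tr n) → Prop) (O : List (Finset (Tr n)))
    (M m : ℕ) (hO : ∀ C ∈ O, C.card ≤ M) (hP : ∀ A, P A → ∃ C ∈ O, A ⊆ C) :
    (((LS n).filter fun L => ∃ A, A ⊆ cells L ∧ A.card = m ∧ P A).card : ℝ) ≤
      (O.length : ℝ) * (M.choose m : ℝ) * ((Real.exp 2 / (n : ℝ)) ^ m *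
        Real.exp ((n : ℝ) * (1 + Real.log n) ^ 2) * ((LS n).card : ℝ)) := by
  set B : ℝ := (Real.exp 2 / (n : ℝ)) ^ m *
        Real.exp ((n : ℝ) * (1 + Real.log n) ^ 2) * ((LS n).card : ℝ) with hB
  have hB0 : 0 ≤ B := by positivity
  set g : Finset (Tr n) → Finset (Fin n → Fin n → Fin n) :=
    fun S => (LS n).filter fun L => S ⊆ cells L with hg
  have hsub : ((LS n).filter fun L => ∃ A, A ⊆ cells L ∧ A.card = m ∧ P A) ⊆
      O.toFinset.biUnion fun C => (C.powersetCard m).biUnion g := by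
    intro L hL
    obtain ⟨hLS, A, hA, hAm, hPA⟩ := Finset.mem_filter.mp hL
    obtain ⟨C, hC, hAC⟩ := hP A hPA
    refine Finset.mem_biUnion.mpr ⟨C, List.mem_toFinset.mpr hC, ?_⟩
    refine Finset.mem_biUnion.mpr ⟨A, Finset.mem_powersetCard.mpr ⟨hAC, hAm⟩, ?_⟩
    exact Finset.mem_filter.mpr ⟨hLS, hA⟩
  have h1 : (((LS n).filter fun L => ∃ A, A ⊆ cells L ∧ A.card = m ∧ P A).card : ℝ) ≤
      ∑ C ∈ O.toFinset, ((((C.powersetCard m).biUnion g).card : ℕ) : ℝ) := by
    have := (Finset.card_le_card hsub).trans Finset.card_biUnion_le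
    calc (((LS n).filter fun L => ∃ A, A ⊆ cells L ∧ A.card = m ∧ P A).card : ℝ) ≤
        ((∑ C ∈ O.toFinset, ((C.powersetCard m).biUnion g).card : ℕ) : ℝ) := by
          exact_mod_cast this
      _ = _ := by push_cast; rfl
  have h2 : ∀ C ∈ O.toFinset, ((((C.powersetCard m).biUnion g).card : ℕ) : ℝ) ≤
      (M.choose m : ℝ) * B := by
    intro C hC
    have hCM : C.card ≤ M := hO C (List.mem_toFinset.mp hC)
    have h3 : ((((C.powersetCard m).biUnion g).card : ℕ) : ℝ) ≤
        ∑ S ∈ C.powersetCard m, ((g S).card : ℝ) := by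
      have := Finset.card_biUnion_le (s := C.powersetCard m) (t := g)
      calc ((((C.powersetCard m).biUnion g).card : ℕ) : ℝ) ≤
          ((∑ S ∈ C.powersetCard m, (g S).card : ℕ) : ℝ) := by exact_mod_cast this
        _ = _ := by push_cast; rfl
    refine h3.trans ?_
    have h4 : ∀ S ∈ C.powersetCard m, ((g S).card : ℝ) ≤ B := by
      intro S hS
      have hSm : S.card = m := (Finset.mem_powersetCard.mp hS).2
      have := prob_LS hn S
      rw [hSm] at this
      exact this
    refine (Finset.sum_le_card_nsmul _ _ _ h4).trans ?_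
    rw [Finset.card_powersetCard, nsmul_eq_mul]
    have h5 : (C.card.choose m : ℝ) ≤ (M.choose m : ℝ) := by
      exact_mod_cast Nat.choose_le_choose m hCM
    exact mul_le_mul_of_nonneg_right h5 hB0
  refine h1.trans ((Finset.sum_le_card_nsmul _ _ _ h2).trans ?_)
  rw [nsmul_eq_mul]
  have h6 : (O.toFinset.card : ℝ) ≤ (O.length : ℝ) := by
    exact_mod_cast List.toFinset_card_le O
  have h7 : 0 ≤ (M.choose m : ℝ) * B := by positivity
  calc (O.toFinset.card : ℝ) * ((M.choose m : ℝ) * B) ≤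
      (O.length : ℝ) * ((M.choose m : ℝ) * B) := mul_le_mul_of_nonneg_right h6 h7
    _ = _ := by ring

end BESL
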