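import Pool.Agent.Lib.MP_c82047_co_LS.Bregman

/-!
# MP_c82047_co, project LS, module LU: the number of Latin squares with prescribed cells, upper
bound
-/

set_option autoImplicit false

namespace BESL

open Finset

/-- the number of prescribed cells in column `j` -/
def hh {n : ℕ} (S : Finset (Tr n)) (j : Fin n) : ℕ := (S.filter fun t => t.2.1 = j).card

/-- the cell `(i, j)` is prescribed -/
private def Fx {n : ℕ} (S : Finset (Tr n)) (i j : Fin n) : Prop := ∃ s, (i, j, s) ∈ S

private instance {n : ℕ} (S : Finset (Tr n)) (i j : Fin n) : Decidable (Fx S i j) := by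
  unfold Fx
  infer_instance

/-- the number of free cells of column `j` in the rows from `i` on -/
private def uu {n : ℕ} (S : Finset (Tr n)) (i j : Fin n) : ℕ :=
  (univ.filter fun i' => i ≤ i' ∧ ¬ Fx S i' j).card

open Classical in
/-- the squares which contain `S` -/
private noncomputable def QQ {n : ℕ} (S : Finset (Tr n)) : Finset (Fin n → Fin n → Fin n) :=
  (LS n).filter fun L => S ⊆ cells L

private theorem mem_QQ {n : ℕ} {S : Finset (Tr n)} {L : Fin n → Fin n → Fin n} :
    L ∈ QQ S ↔ IsLatin L ∧ ∀ i j s, (i, j, s) ∈ S → L i j = s := by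
  classical
  unfold QQ LS
  rw [mem_filter, mem_filter]
  constructor
  · rintro ⟨⟨_, h1⟩, h2⟩
    refine ⟨h1, fun i j s h => ?_⟩
    have := h2 h
    unfold cells at this
    rw [mem_filter] at this
    exact this.2
  · rintro ⟨h1, h2⟩
    refine ⟨⟨mem_univ _, h1⟩, fun t ht => ?_⟩
    unfold cells
    rw [mem_filter]
    exact ⟨mem_univ _, h2 t.1 t.2.1 t.2.2 ht⟩

/-- the first `k` rows -/
private def rs {n : ℕ} (k : ℕ) (L : Fin n → Fin n → Fin n) : Fin n → Option (Fin n → Fin n) :=
  fun i => if (i : ℕ) < k then some (L i) else none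

open Classical in
private noncomputable def TT {n : ℕ} (S : Finset (Tr n)) (k : ℕ) :
    Finset (Fin n → Option (Fin n → Fin n)) := (QQ S).image (rs k)

private theorem bf_nonneg (r : ℕ) : 0 ≤ bf r := by
  unfold bf
  positivity

private theorem fiber_bound {n : ℕ} (S : Finset (Tr n)) (k : Fin n)
    (L0 : Fin n → Fin n → Fin n) (hL0 : L0 ∈ QQ S) (F : Finset (Fin n → Option (Fin n → Fin n)))
    (hF : ∀ a ∈ F, ∃ L ∈ QQ S, a = rs ((k : ℕ) + 1) L ∧ rs k L = rs k L0) :
    (F.card : ℝ) ≤ ∏ j : {j : Fin n // ¬ Fx S k j}, bf (uu S k j.1) := by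
  classical
  have hL0' := mem_QQ.mp hL0
  have hbij : Function.Bijective (L0 k) := Finite.injective_iff_bijective.mp (hL0'.1.1 k)
  have heq : ∀ j : Fin n, ¬ Fx S k j ↔ ¬ ∃ j', (k, j', L0 k j) ∈ S := by
    intro j
    refine not_congr ⟨?_, ?_⟩
    · rintro ⟨s, hs⟩
      refine ⟨j, ?_⟩
      rw [hL0'.2 k j s hs]
      exact hs
    · rintro ⟨j', hj'⟩
      have h1 := hL0'.2 k j' _ hj'
      have h2 := hL0'.1.1 k h1
      rw [h2] at hj'
      exact ⟨_, hj'⟩
  have hc : Fintype.card {j : Fin n // ¬ Fx S k j} =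
      Fintype.card {s : Fin n // ¬ ∃ j', (k, j', s) ∈ S} :=
    Fintype.card_congr ((Equiv.ofBijective (L0 k) hbij).subtypeEquiv heq)
  set A : {j : Fin n // ¬ Fx S k j} → Finset {s : Fin n // ¬ ∃ j', (k, j', s) ∈ S} :=
    fun j => univ.filter fun s => (∀ i, i < k → L0 i j.1 ≠ s.1) ∧ ∀ i, k < i → (i, j.1, s.1) ∉ S
    with hA
  have hr : ∀ j, (A j).card ≤ uu S k j.1 := by
    intro j
    have h1 : ((A j).image fun s => s.1) ⊆
        (univ.filter fun i' => k ≤ i' ∧ ¬ Fx S i' j.1).image fun i => L0 i j.1 := by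
      intro s hs
      rw [mem_image] at hs
      obtain ⟨s, hs, rfl⟩ := hs
      rw [hA, mem_filter] at hs
      obtain ⟨_, h2, h3⟩ := hs
      have hbj : Function.Bijective fun i => L0 i j.1 :=
        Finite.injective_iff_bijective.mp (hL0'.1.2 j.1)
      obtain ⟨i, hi⟩ := hbj.2 s.1
      rw [mem_image]
      refine ⟨i, ?_, hi⟩
      rw [mem_filter]
      refine ⟨mem_univ _, ?_, ?_⟩
      · by_contra h
        exact h2 i (not_le.mp h) hi
      · rintro ⟨t, ht⟩
        have h4 := hL0'.2 i j.1 t ht
        have h5 : t = s.1 := by rw [← h4]; exact hi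
        rw [h5] at ht
        rcases lt_trichotomy k i with h | h | h
        · exact h3 i h ht
        · exact j.2 ⟨s.1, by rw [← h] at ht; exact ht⟩
        · exact h2 i h hi
    calc (A j).card = ((A j).image fun s => s.1).card :=
          (card_image_of_injective _ Subtype.val_injective).symm
      _ ≤ _ := card_le_card h1
      _ ≤ _ := card_image_le
      _ = uu S k j.1 := by unfold uu; rfl
  refine le_trans ?_ (bregman hc A (fun j => uu S k j.1) hr)
  rw [Nat.cast_le]
  set f : ({j : Fin n // ¬ Fx S k j} → {s : Fin n // ¬ ∃ j', (k, j', s) ∈ S}) →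
      (Fin n → Option (Fin n → Fin n)) := fun σ i =>
    if (i : ℕ) < k then rs k L0 i else if (i : ℕ) < (k : ℕ) + 1 then
      some (fun j => if h : Fx S k j then h.choose else (σ ⟨j, h⟩).1) else none with hf
  refine card_le_card_of_surjOn f ?_
  intro a ha
  obtain ⟨L, hL, rfl, hLk⟩ := hF a ha
  have hL' := mem_QQ.mp hL
  have hrow : ∀ i : Fin n, i < k → L i = L0 i := by
    intro i hi
    have h1 := congrFun hLk i
    unfold rs at h1
    rw [if_pos (show (i : ℕ) < k from hi), if_pos (show (i : ℕ) < k from hi)] at h1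
    exact Option.some_injective _ h1
  refine ⟨fun j => ⟨L k j.1, ?_⟩, ?_, ?_⟩
  · rintro ⟨j', hj'⟩
    have h1 := hL'.2 k j' _ hj'
    have h2 := hL'.1.1 k h1
    rw [h2] at hj'
    exact j.2 ⟨_, hj'⟩
  · rw [mem_coe]
    unfold sdr
    rw [mem_filter]
    refine ⟨mem_univ _, ?_, ?_⟩
    · intro j1 j2 h
      exact Subtype.ext (hL'.1.1 k (Subtype.ext_iff.mp h))
    · intro j
      rw [hA, mem_filter]
      refine ⟨mem_univ _, ?_, ?_⟩
      · intro i hi h
        rw [← hrow i hi] at h
        have := hL'.1.2 j.1 h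
        exact absurd this (ne_of_lt hi)
      · intro i hi h
        have h1 := hL'.2 i j.1 _ h
        have := hL'.1.2 j.1 h1
        exact absurd this (ne_of_gt hi)
  · funext i
    simp only [hf]
    unfold rs
    by_cases h1 : (i : ℕ) < k
    · rw [if_pos h1, if_pos h1, if_pos (by omega), hrow i h1]
    · rw [if_neg h1]
      by_cases h2 : (i : ℕ) < (k : ℕ) + 1
      · rw [if_pos h2, if_pos h2]
        have h3 : i = k := Fin.ext (by omega)
        congr 1
        funext j
        split_ifs with h
        · rw [h3, hL'.2 k j _ h.choose_spec]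
        · rw [h3]
      · rw [if_neg h2, if_neg h2]

private theorem step_bound {n : ℕ} (S : Finset (Tr n)) (k : Fin n) :
    ((TT S ((k : ℕ) + 1)).card : ℝ) ≤
      (TT S k).card * ∏ j : {j : Fin n // ¬ Fx S k j}, bf (uu S k j.1) := by
  classical
  set g : (Fin n → Option (Fin n → Fin n)) → (Fin n → Option (Fin n → Fin n)) :=
    fun R i => if (i : ℕ) < k then R i else none with hg
  have hgr : ∀ L : Fin n → Fin n → Fin n, g (rs ((k : ℕ) + 1) L) = rs k L := by
    intro L
    funext i
    simp only [hg, rs]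
    by_cases h : (i : ℕ) < k
    · rw [if_pos h, if_pos (by omega), if_pos h]
    · rw [if_neg h, if_neg h]
  have hmap : ∀ a ∈ TT S ((k : ℕ) + 1), g a ∈ TT S k := by
    intro a ha
    unfold TT at ha ⊢
    rw [mem_image] at ha
    obtain ⟨L, hL, rfl⟩ := ha
    rw [hgr]
    exact mem_image_of_mem _ hL
  rw [card_eq_sum_card_fiberwise hmap]
  push_cast
  rw [← nsmul_eq_mul]
  refine sum_le_card_nsmul _ _ _ ?_
  intro b hb
  unfold TT at hb
  rw [mem_image] at hb
  obtain ⟨L0, hL0, rfl⟩ := hb
  refine fiber_bound S k L0 hL0 _ ?_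
  intro a ha
  rw [mem_filter] at ha
  obtain ⟨h1, h2⟩ := ha
  unfold TT at h1
  rw [mem_image] at h1
  obtain ⟨L, hL, rfl⟩ := h1
  exact ⟨L, hL, rfl, by rw [← hgr, h2]⟩

private theorem prod_sub {n : ℕ} (S : Finset (Tr n)) (k : Fin n) :
    (∏ j : {j : Fin n // ¬ Fx S k j}, bf (uu S k j.1)) =
      ∏ j : Fin n, (if Fx S k j then 1 else bf (uu S k j)) := by
  classical
  have h : ∏ j : Fin n, (if Fx S k j then 1 else bf (uu S k j)) =
      ∏ j : Fin n, (if ¬ Fx S k j then bf (uu S k j) else 1) := by
    refine prod_congr rfl fun j _ => ?_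
    by_cases h : Fx S k j
    · rw [if_pos h, if_neg (not_not.mpr h)]
    · rw [if_neg h, if_pos h]
  rw [h, ← prod_filter]
  rw [prod_subtype (p := fun j => ¬ Fx S k j) (univ.filter fun j => ¬ Fx S k j) (by simp)
    (fun j => bf (uu S k j))]

private theorem all_bound {n : ℕ} (S : Finset (Tr n)) (k : ℕ) (hk : k ≤ n) :
    ((TT S k).card : ℝ) ≤
      ∏ i ∈ univ.filter (fun i : Fin n => (i : ℕ) < k),
        ∏ j : {j : Fin n // ¬ Fx S i j}, bf (uu S i j.1) := by
  classical
  induction k with
  | zero =>
    have h1 : TT S 0 ⊆ {fun _ => none} := by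
      intro a ha
      unfold TT at ha
      rw [mem_image] at ha
      obtain ⟨L, _, rfl⟩ := ha
      rw [mem_singleton]
      funext i
      simp [rs]
    have h2 := card_le_card h1
    rw [card_singleton] at h2
    have h3 : (univ.filter fun i : Fin n => (i : ℕ) < 0) = ∅ := by simp
    rw [h3, prod_empty]
    exact_mod_cast h2
  | succ k ih =>
    have h1 := step_bound S ⟨k, hk⟩
    have h2 : (univ.filter fun i : Fin n => (i : ℕ) < k + 1) =
        insert ⟨k, hk⟩ (univ.filter fun i : Fin n => (i : ℕ) < k) := by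
      ext i
      simp only [mem_filter, mem_univ, true_and, mem_insert, Fin.ext_iff]
      omega
    rw [h2, prod_insert (by simp), mul_comm]
    refine h1.trans ?_
    refine mul_le_mul_of_nonneg_right (ih (by omega)) ?_
    exact prod_nonneg fun j _ => bf_nonneg _

private theorem prod_count {α : Type} [LinearOrder α] (f : ℕ → ℝ) (F : Finset α) :
    ∏ i ∈ F, f (F.filter fun i' => i ≤ i').card = ∏ u ∈ Finset.Icc 1 F.card, f u := by
  induction F using Finset.induction_on_min with
  | empty => simp
  | insert a s ha ih =>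
    have hna : a ∉ s := fun h => lt_irrefl _ (ha a h)
    rw [prod_insert hna, card_insert_of_notMem hna, prod_Icc_succ_top (by omega), ← ih, mul_comm]
    congr 1
    · refine prod_congr rfl fun i hi => ?_
      congr 2
      ext i'
      simp only [mem_filter, mem_insert]
      constructor
      · rintro ⟨h1 | h1, h2⟩
        · rw [h1] at h2
          exact absurd (ha i hi) (not_lt.mpr h2)
        · exact ⟨h1, h2⟩
      · rintro ⟨h1, h2⟩
        exact ⟨Or.inr h1, h2⟩
    · congr 1
      rw [filter_true_of_mem, card_insert_of_notMem hna]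
      intro i hi
      rw [mem_insert] at hi
      rcases hi with rfl | hi
      · exact le_rfl
      · exact (ha i hi).le

theorem upper_LS {n : ℕ} (S : Finset (Tr n)) :
    (((LS n).filter fun L => S ⊆ cells L).card : ℝ) ≤
      ∏ j, ∏ u ∈ Finset.Icc 1 (n - hh S j), bf u := by
  classical
  have hQ : ((LS n).filter fun L => S ⊆ cells L) = QQ S := by
    unfold QQ
    ext L
    simp only [mem_filter]
  rw [hQ]
  rcases (QQ S).eq_empty_or_nonempty with he | ⟨L0, hL0⟩
  · rw [he, card_empty, Nat.cast_zero]
    exact prod_nonneg fun j _ => prod_nonneg fun u _ => bf_nonneg u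
  have hL0' := mem_QQ.mp hL0
  have hT : (QQ S).card = (TT S n).card := by
    unfold TT
    rw [card_image_of_injective]
    intro L L' h
    funext i
    have h1 := congrFun h i
    unfold rs at h1
    rw [if_pos i.2, if_pos i.2] at h1
    exact Option.some_injective _ h1
  rw [hT]
  refine (all_bound S n le_rfl).trans (le_of_eq ?_)
  have h1 : (univ.filter fun i : Fin n => (i : ℕ) < n) = univ := by
    refine filter_true_of_mem fun i _ => i.2
  rw [h1]
  simp only [prod_sub]
  rw [prod_comm]
  refine prod_congr rfl fun j _ => ?_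
  have h2 : ∏ i : Fin n, (if Fx S i j then 1 else bf (uu S i j)) =
      ∏ i ∈ univ.filter (fun i : Fin n => ¬ Fx S i j), bf (uu S i j) := by
    rw [prod_filter]
    refine prod_congr rfl fun i _ => ?_
    by_cases h : Fx S i j
    · rw [if_pos h, if_neg (not_not.mpr h)]
    · rw [if_neg h, if_pos h]
  have h3 : ∏ i ∈ univ.filter (fun i : Fin n => ¬ Fx S i j), bf (uu S i j) =
      ∏ i ∈ univ.filter (fun i : Fin n => ¬ Fx S i j),
        bf ((univ.filter (fun i : Fin n => ¬ Fx S i j)).filter fun i' => i ≤ i').card := by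
    refine prod_congr rfl fun i _ => ?_
    unfold uu
    congr 2
    ext i'
    simp only [mem_filter, mem_univ, true_and]
    exact and_comm
  have h4 : (univ.filter (fun i : Fin n => ¬ Fx S i j)).card = n - hh S j := by
    have h5 : (univ.filter (fun i : Fin n => Fx S i j)).card = hh S j := by
      have h6 : (S.filter fun t => t.2.1 = j).image (fun t => t.1) =
          univ.filter (fun i : Fin n => Fx S i j) := by
        ext i
        simp only [mem_image, mem_filter, mem_univ, true_and]
        constructor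
        · rintro ⟨t, ⟨ht, htj⟩, rfl⟩
          exact ⟨t.2.2, by rw [← htj]; exact ht⟩
        · rintro ⟨s, hs⟩
          exact ⟨(i, j, s), ⟨hs, rfl⟩, rfl⟩
      rw [← h6]
      unfold hh
      refine card_image_of_injOn ?_
      intro t ht t' ht' htt
      rw [mem_coe, mem_filter] at ht ht'
      obtain ⟨i, j1, s⟩ := t
      obtain ⟨i', j2, s'⟩ := t'
      simp only at ht ht' htt
      obtain ⟨h7, rfl⟩ := ht
      obtain ⟨h8, rfl⟩ := ht'
      subst htt
      have h9 := hL0'.2 _ _ _ h7
      have h10 := hL0'.2 _ _ _ h8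
      rw [← h9, ← h10]
    have h6 := card_filter_add_card_filter_not (s := (univ : Finset (Fin n))) (fun i => Fx S i j)
    rw [card_univ, Fintype.card_fin, h5] at h6
    omega
  calc _ = ∏ i : Fin n, (if Fx S i j then 1 else bf (uu S i j)) := by
        refine prod_congr rfl fun i _ => ?_
        congr
    _ = _ := h2
    _ = _ := h3
    _ = _ := prod_count bf _
    _ = _ := by rw [h4]

end BESL
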